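import Mathlib
import Pool.Agent.Helper96.MC.CSt
import Pool.Agent.Helper42.MC.AP

/-!
MP_4042d8_co, section C, row C6: two mated apexes are not both accessible.
-/

set_option autoImplicit false
set_option linter.unusedSectionVars false
set_option linter.unusedSimpArgs false
set_option linter.unusedVariables false

namespace Pool.Agent.Helper6.MC

open Pool.Agent.Helper27.MC
open Pool.Agent.Helper51.MC Pool.Agent.Helper88.MC Pool.Agent.Helper64.MC
open Pool.Agent.Helper91.MC Pool.Agent.Helper42.MC Pool.Agent.Helper96.MC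

section

variable {V : Type} [Fintype V] [DecidableEq V] {G : SimpleGraph V} [DecidableRel G.Adj]
  {c c1 : V → Bool}

theorem nQ_zero {v : V} : nQ G c v = 0 ↔ ∀ w, G.Adj v w → ¬ tQ G c w := by
  unfold nQ
  rw [Finset.card_eq_zero, Finset.filter_eq_empty_iff]
  constructor
  · intro h w h1 h2
    exact h (Finset.mem_univ w) ⟨h1, h2⟩
  · intro h w _ h1
    exact h w h1.1 h1.2

theorem mem_Fr {v : V} : v ∈ Fr G c ↔ tS G c v ∧ ∀ w, G.Adj v w → ¬ tQ G c w := by
  unfold Fr
  simp only [Finset.mem_filter, Finset.mem_univ, true_and]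
  rw [nQ_zero]

/-- the rotation does not leave the colourings with `Kp` minimal -/
theorem M1_CK {j : ℕ} {q p x x' n n' : V} (h : M1o G c c1 q p x x' n n') (hc : CK G c j) :
    CK G c1 j :=
  ⟨h.opt j hc.1, fun c' h' => h.kp.trans (hc.2 c' h')⟩

theorem n3_col {a x y z : V} (h : N3 G a x y z) (ha : tA G c a) :
    c x = false ∧ c y = false ∧ c z = false := by
  have e : ∀ w, G.Adj a w → c w = false := fun w hw => false_of_A ha.1 ha.2 hw
  exact ⟨e x ((h.nb x).2 (by simp)), e y ((h.nb y).2 (by simp)), e z ((h.nb z).2 (by simp))⟩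

/-- `Ta` after the rotation at a double, outer neighbour not an S-apex -/
theorem M1_Ta_lt (hm : ∀ v, mu G c v ≤ 1) {q p x x' n n' : V} (hd : Td G c q p x x' n n')
    (h : M1o G c c1 q p x x' n n') (hq : Apx G c q) (hp : Apx G c p) (hn : ¬ Pm G c n x) :
    Ta G c1 < Ta G c := by
  classical
  unfold Ta
  have hqp : q ≠ p := hd.rqp.ne
  have e1 : Finset.univ.filter (fun v => Apx G c1 v) ⊆
      insert x (((Finset.univ.filter (fun v => Apx G c v)).erase q).erase p) := by
    intro v hv
    simp only [Finset.mem_filter, Finset.mem_univ, true_and] at hv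
    rw [h.apx] at hv
    rcases hv with ⟨h1, h2, h3⟩ | h1 | ⟨h1, h2⟩
    · simp [h1, h2, h3]
    · simp [h1]
    · exact absurd h2 hn
  have e2 : p ∈ (Finset.univ.filter (fun v => Apx G c v)).erase q := by
    simp [hqp.symm, hp]
  have e3 : q ∈ Finset.univ.filter (fun v => Apx G c v) := by simp [hq]
  have e4 := Finset.card_le_card e1
  have e5 := Finset.card_insert_le x
    (((Finset.univ.filter (fun v => Apx G c v)).erase q).erase p)
  have e6 := Finset.card_erase_add_one e2
  have e7 := Finset.card_erase_add_one e3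
  omega

/-- `Ta` after the rotation at a double, in general -/
theorem M1_Ta_le (hm : ∀ v, mu G c v ≤ 1) {q p x x' n n' : V} (hd : Td G c q p x x' n n')
    (h : M1o G c c1 q p x x' n n') (hq : Apx G c q) (hp : Apx G c p) :
    Ta G c1 ≤ Ta G c := by
  classical
  unfold Ta
  have hqp : q ≠ p := hd.rqp.ne
  have e1 : Finset.univ.filter (fun v => Apx G c1 v) ⊆
      insert n (insert x (((Finset.univ.filter (fun v => Apx G c v)).erase q).erase p)) := by
    intro v hv
    simp only [Finset.mem_filter, Finset.mem_univ, true_and] at hv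
    rw [h.apx] at hv
    rcases hv with ⟨h1, h2, h3⟩ | h1 | ⟨h1, h2⟩
    · simp [h1, h2, h3]
    · simp [h1]
    · simp [h1]
  have e2 : p ∈ (Finset.univ.filter (fun v => Apx G c v)).erase q := by
    simp [hqp.symm, hp]
  have e3 : q ∈ Finset.univ.filter (fun v => Apx G c v) := by simp [hq]
  have e4 := Finset.card_le_card e1
  have e5 := Finset.card_insert_le x
    (((Finset.univ.filter (fun v => Apx G c v)).erase q).erase p)
  have e5' := Finset.card_insert_le n
    (insert x (((Finset.univ.filter (fun v => Apx G c v)).erase q).erase p))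
  have e6 := Finset.card_erase_add_one e2
  have e7 := Finset.card_erase_add_one e3
  omega

/-- in a double the outer neighbour of type `A` of a corner is an S-apex, by minimality -/
theorem dbl_Pm (hM1 : ST_M1) (hG : G.IsRegularOfDegree 3) {j : ℕ} (hE : Exm G c j)
    {q p x x' n n' : V} (hd : Td G c q p x x' n n') (hq : Apx G c q) (hp : Apx G c p)
    (hn : tA G c n) : Pm G c n x := by
  have hm := hE.ck.1.mu1
  have h := hM1 V G hG c hm q p x x' n n' hd hn
  by_contra hP
  have h1 := M1_Ta_lt hm hd h hq hp hP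
  have h2 := hE.ta _ (M1_CK h hE.ck)
  omega

/-- the corners of a double have an outer neighbour of type `A` -/
theorem acc_zero (hG : G.IsRegularOfDegree 3) (hm : ∀ v, mu G c v ≤ 1) {m : ℕ} {q p : V}
    (hr : Rm G c q p) (hno : ∀ w, ¬ Ch G c q w) (h : Acc G c m q) :
    ∃ x x' n n', Td G c q p x x' n n' ∧ tA G c n := by
  obtain ⟨w, h0, h1, h2⟩ := h
  have hm0 : m = 0 := by
    by_contra hne
    have := h1 0 (Nat.pos_of_ne_zero hne)
    rw [h0] at this
    exact hno _ this
  subst hm0
  rw [h0] at h2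
  obtain ⟨p', x, x', n, n', hd, hn⟩ := h2
  have e : p' = p := rm_uniq (hm q) hd.rqp hr
  subst e
  exact ⟨x, x', n, n', hd, hn⟩

/-- two corners of the two apexes of a double, outer neighbours in `A` and S-apexes: the mates
around the outer neighbour of the first are not corners of the second -/
theorem dbl_disj (hm : ∀ v, mu G c v ≤ 1) {q p s n t t' l l' m m' : V}
    (h2 : Td G c p q t t' l l') (hnA : tA G c n) (hnp : n ≠ p)
    (hnn : l ≠ l') (hN : N3 G n s m m') (hr : Rm G c m m') :
    m ≠ t ∧ m ≠ t' ∧ m' ≠ t ∧ m' ≠ t' := by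
  have am : G.Adj m n := ((hN.nb m).2 (by simp)).symm
  have am' : G.Adj m' n := ((hN.nb m').2 (by simp)).symm
  have ntt' : n ≠ t' := (ne_col h2.cx' hnA.1).symm
  have ntt : n ≠ t := (ne_col h2.cx hnA.1).symm
  have key : ∀ y y', Rm G c y y' → G.Adj y n → G.Adj y' n → y = t → False := by
    intro y y' hyy hy hy' e
    subst e
    have e' : y' = t' := rm_uniq (hm y) hyy h2.rxx
    subst e'
    have f1 : n = l := by
      rcases (h2.nx.nb n).1 hy with e | e | e
      · exact absurd e hnp
      · exact absurd e ntt'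
      · exact e
    have f2 : n = l' := by
      rcases (h2.nx'.nb n).1 hy' with e | e | e
      · exact absurd e hnp
      · exact absurd e ntt
      · exact e
    exact hnn (f1.symm.trans f2)
  have key' : ∀ y y', Rm G c y y' → G.Adj y n → G.Adj y' n → y = t' → False := by
    intro y y' hyy hy hy' e
    subst e
    have e' : y' = t := rm_uniq (hm y) hyy h2.rxx.symm
    exact key y' y hyy.symm hy' hy e'
  exact ⟨fun e => key m m' hr am am' e, fun e => key' m m' hr am am' e,
    fun e => key m' m hr.symm am' am e, fun e => key' m' m hr.symm am' am e⟩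

/-- the other true neighbour of `m` is of type `Q` -/
theorem dbl_key (hM1 : ST_M1) (hC1 : Pool.Agent.Helper96.MC.ST_C1) (hG : G.IsRegularOfDegree 3) {j : ℕ} (hj : 1 ≤ j)
    (hc : CK G c j) {q p s s' n n' t t' l l' m m' k k' g : V} (h1 : Td G c q p s s' n n')
    (h2 : Td G c p q t t' l l') (hn : tA G c n) (hl : tA G c l) (hnl : n ≠ l) (hN : N3 G n s m m')
    (hr : Rm G c m m') (hL : N3 G l t k k') (hk : Rm G c k k') (hts : t ≠ s) (hts' : t ≠ s')
    (d1 : m ≠ t) (d2 : m' ≠ t) (hg : N3 G m n m' g) : tQ G c g := by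
  have hm := hc.1.mu1
  have o := hM1 V G hG c hm p q t t' l l' h2 hl
  have hc1 := M1_CK o hc
  have cm : c m = false := (n3_col hN hn).2.1
  have cm' : c m' = false := (n3_col hN hn).2.2
  have hnp : n ≠ p := by
    rintro rfl
    exact nomate hn.2 q h1.rqp.symm
  have hnq : n ≠ q := by
    rintro rfl
    exact nomate hn.2 p h1.rqp
  have hsp : s ≠ p := ne_col h1.cx h1.cp
  have hs'p : s' ≠ p := ne_col h1.cx' h1.cp
  have hmp : m ≠ p := ne_col cm h1.cp
  have hm'p : m' ≠ p := ne_col cm' h1.cp
  have hmq : m ≠ q := ne_col cm h1.cq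
  have hqp : q ≠ p := h1.rqp.ne
  have hqt : q ≠ t := (ne_col h2.cx h1.cq).symm
  have hnt : n ≠ t := (ne_col h2.cx hn.1).symm
  have hms' : m ≠ s' := by
    rintro rfl
    exact hN.xz (rm_uniq (hm m) h1.rxx.symm hr)
  have aq : tA G (flp c {p, t}) q := (o.tA q).2 (Or.inr rfl)
  have an : tA G (flp c {p, t}) n := (o.tA n).2 (Or.inl ⟨hn, hnl⟩)
  have c1s : flp c {p, t} s = false := by rw [o.col s hsp hts.symm]; exact h1.cx
  have c1s' : flp c {p, t} s' = false := by rw [o.col s' hs'p hts'.symm]; exact h1.cx'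
  have c1m : flp c {p, t} m = false := by rw [o.col m hmp d1]; exact cm
  have c1m' : flp c {p, t} m' = false := by rw [o.col m' hm'p d2]; exact cm'
  have cg : c g = true := by
    cases h : c g
    · exact absurd (rm_uniq (hm m) hr ⟨(hg.nb g).2 (by simp), by rw [h, cm]⟩) hg.yz
    · rfl
  have hgq : g ≠ q := by
    rintro rfl
    have h3 : G.Adj g m := ((hg.nb g).2 (by simp)).symm
    rcases (h1.nq.nb m).1 h3 with e | e | e
    · exact hmp e
    · exact hN.xy e.symm
    · exact hms' e
  have S : Slot G (flp c {p, t}) s s' n q m m' :=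
    { cu := c1s
      cm := c1s'
      ca := an.1
      cb := aq.1
      ma := an.2
      mb := aq.2
      hab := hnq
      nbu := fun w => (h1.nx.nb w).trans (by tauto)
      nba := hN.nb
      hxy := hN.yz
      hxu := hN.xy.symm
      hyu := hN.xz.symm }
  have r1 : Rm G (flp c {p, t}) m m' := by
    rw [o.rm]
    exact Or.inl ⟨hr, hmp, d1, hm'p, d2⟩
  have hgp : g ≠ p := by
    rintro rfl
    have h3 : G.Adj g m := ((hg.nb g).2 (by simp)).symm
    rcases (h2.nq.nb m).1 h3 with e | e | e
    · exact hmq e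
    · exact d1 e
    · subst e
      exact d2 (rm_uniq (hm m) hr h2.rxx.symm)
  have hgt : g ≠ t := (ne_col h2.cx cg).symm
  have c1g : flp c {p, t} g = true := by rw [o.col g hgp hgt]; exact cg
  have T : Sv G (flp c {p, t}) m m' n g :=
    ⟨c1m, c1m', an.1, c1g, n3_12 hg⟩
  rcases AP V G hG _ j hj hc1.1 s s' n q m m' g S r1 T with h | h
  · rcases (o.tQ g).1 h with ⟨h3, _, _⟩ | h3 | h3
    · exact h3
    · exact absurd h3 hgt
    · exfalso
      subst h3
      have h4 : G.Adj g m := ((hg.nb g).2 (by simp)).symm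
      have h5 : (m = k ∧ m' = k') ∨ (m = k' ∧ m' = k) := by
        rcases (hL.nb m).1 h4 with e | e | e
        · exact absurd e d1
        · subst e
          exact Or.inl ⟨rfl, rm_uniq (hm m) hr hk⟩
        · subst e
          exact Or.inr ⟨rfl, rm_uniq (hm m) hr hk.symm⟩
      have hmg : G.Adj g m' := by
        rcases h5 with ⟨_, e⟩ | ⟨_, e⟩
        · rw [e]
          exact (hL.nb k').2 (by simp)
        · rw [e]
          exact (hL.nb k).2 (by simp)
      have hN4 : N3 G g t m m' := by
        rcases h5 with ⟨e1, e2⟩ | ⟨e1, e2⟩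
        · rw [e1, e2]
          exact hL
        · rw [e1, e2]
          exact n3_23 hL
      have hN5 : N3 G m' n m g := by
        obtain ⟨z, hz⟩ := n3_of2 hG ((hN.nb m').2 (by simp)).symm
          ((hg.nb m').2 (by simp)).symm (ne_col cm hn.1).symm
        have : g = z := by
          rcases (hz.nb g).1 hmg.symm with e | e | e
          · exact absurd e hg.xz.symm
          · exact absurd e (ne_col cm cg).symm
          · exact e
        rw [this]
        exact hz
      have c1t : flp c {p, t} t = true := o.cx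
      have hd : Td G (flp c {p, t}) g t m m' n n :=
        ⟨c1g, c1t, c1m, c1m', an.1, an.1, hN4, n3_13 hg, n3_13 hN5⟩
      rcases hC1 V G hG _ j hj hc1 g t m m' n n hd with ⟨e, _⟩ | ⟨_, _, e⟩
      · exact hnt e
      · exact e rfl
  · exact absurd h hgq

/-- in a colouring with `Ta`, `Fr` extremal: no double with both apexes having a corner with
outer neighbour of type `A` -/
theorem dbl_no (hM1 : ST_M1) (hC1 : Pool.Agent.Helper96.MC.ST_C1) (hG : G.IsRegularOfDegree 3)
    {j : ℕ} (hj : 1 ≤ j) (hE : Exm G c j) {q p s s' n n' t t' l l' : V}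
    (h1 : Td G c q p s s' n n') (h2 : Td G c p q t t' l l') (hn : tA G c n) (hl : tA G c l) :
    False := by
  have hc := hE.ck
  have hm := hc.1.mu1
  have aq : Apx G c q := h1.apx hm
  have ap : Apx G c p := h2.apx hm
  obtain ⟨m, m', hN, hr⟩ := dbl_Pm hM1 hG hE h1 aq ap hn
  obtain ⟨k, k', hL, hk⟩ := dbl_Pm hM1 hG hE h2 ap aq hl
  have hnp : n ≠ p := by
    rintro rfl
    exact nomate hn.2 q h1.rqp.symm
  have hlq : l ≠ q := by
    rintro rfl
    exact nomate hl.2 p h2.rqp.symm
  obtain ⟨_, hn'p, hnn⟩ : n ≠ p ∧ n' ≠ p ∧ n ≠ n' := by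
    rcases hC1 V G hG c j hj hc q p s s' n n' h1 with ⟨e, _⟩ | h
    · exact absurd e hnp
    · exact h
  obtain ⟨_, hl'q, hll⟩ : l ≠ q ∧ l' ≠ q ∧ l ≠ l' := by
    rcases hC1 V G hG c j hj hc p q t t' l l' h2 with ⟨e, _⟩ | h
    · exact absurd e hlq
    · exact h
  have a1 : ∀ x, G.Adj q x → c x = false → x = s ∨ x = s' := by
    intro x hx cx
    rcases (h1.nq.nb x).1 hx with e | e | e
    · rw [e, h1.cp] at cx
      cases cx
    · exact Or.inl e
    · exact Or.inr e
  have a2 : ∀ x, G.Adj p x → ¬ (x = s ∨ x = s') := by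
    rintro x hx (e | e)
    · subst e
      rcases (h1.nx.nb p).1 hx.symm with e | e | e
      · exact h1.rqp.ne e.symm
      · exact ne_col h1.cx' h1.cp e.symm
      · exact hnp e.symm
    · subst e
      rcases (h1.nx'.nb p).1 hx.symm with e | e | e
      · exact h1.rqp.ne e.symm
      · exact ne_col h1.cx h1.cp e.symm
      · exact hn'p e.symm
  have b1 : ¬ (t = s ∨ t = s') := a2 t ((h2.nq.nb t).2 (by simp))
  have b2 : ¬ (t' = s ∨ t' = s') := a2 t' ((h2.nq.nb t').2 (by simp))
  have hts : t ≠ s := fun e => b1 (Or.inl e)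
  have hts' : t ≠ s' := fun e => b1 (Or.inr e)
  have ht's : t' ≠ s := fun e => b2 (Or.inl e)
  obtain ⟨d1, d2, d3, d4⟩ := dbl_disj hm h2 hn hnp hll hN hr
  have hnl : n ≠ l := by
    rintro rfl
    have h3 : G.Adj n t := (hL.nb t).2 (by simp)
    rcases (hN.nb t).1 h3 with e | e | e
    · exact hts e
    · exact d1 e.symm
    · exact d3 e.symm
  have am : G.Adj m n := ((hN.nb m).2 (by simp)).symm
  have am' : G.Adj m' n := ((hN.nb m').2 (by simp)).symm
  have cm : c m = false := (n3_col hN hn).2.1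
  have cm' : c m' = false := (n3_col hN hn).2.2
  obtain ⟨g, hg⟩ := n3_of2 hG am hr.1 (ne_col cm' hn.1).symm
  obtain ⟨g', hg'⟩ := n3_of2 hG am' hr.1.symm (ne_col cm hn.1).symm
  have qg := dbl_key hM1 hC1 hG hj hc h1 h2 hn hl hnl hN hr hL hk hts hts' d1 d3 hg
  have qg' := dbl_key hM1 hC1 hG hj hc h1 h2 hn hl hnl (n3_23 hN) hr.symm hL hk hts hts' d3 d1 hg'
  have fm : m ∉ Fr G c := by
    rw [mem_Fr]
    rintro ⟨_, h⟩
    exact h g ((hg.nb g).2 (by simp)) qg
  have fm' : m' ∉ Fr G c := by
    rw [mem_Fr]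
    rintro ⟨_, h⟩
    exact h g' ((hg'.nb g').2 (by simp)) qg'
  have tqq : tQ G c q := (tQ_iff hm).2 ⟨h1.cq, p, h1.rqp⟩
  have tqp : tQ G c p := (tQ_iff hm).2 ⟨h1.cp, q, h2.rqp⟩
  have o := hM1 V G hG c hm q p s s' n n' h1 hn
  have hc2 := M1_CK o hc
  have hT : Ta G (flp c {q, s}) = Ta G c :=
    le_antisymm (M1_Ta_le hm h1 o aq ap) (hE.ta _ hc2)
  have hF := hE.fr _ hc2 hT
  have key : insert t (Fr G c) ⊆ Fr G (flp c {q, s}) := by
    intro v hv
    rw [Finset.mem_insert] at hv
    rcases hv with rfl | hv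
    · rw [mem_Fr]
      refine ⟨(o.tS v).2 (Or.inl ⟨(tS_iff hm).2 ⟨h2.cx, t', h2.rxx⟩, hts⟩), ?_⟩
      intro w hw hq
      rcases (h2.nx.nb w).1 hw with e | e | e
      · subst e
        rcases (o.tQ w).1 hq with h | h | h
        · exact h.2.2 rfl
        · exact ne_col h1.cx h1.cp h.symm
        · exact hnp h.symm
      · subst e
        rcases (o.tQ w).1 hq with h | h | h
        · exact ne_col h2.cx' h.1.1 rfl
        · exact ht's h
        · exact ne_col h2.cx' hn.1 h
      · subst e
        rcases (o.tQ w).1 hq with h | h | h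
        · have h5 := h.1.2
          rw [hl.2] at h5
          cases h5
        · exact ne_col h1.cx hl.1 h.symm
        · exact hnl h.symm
    · have hv' := hv
      rw [mem_Fr] at hv
      obtain ⟨hs, hv⟩ := hv
      rw [mem_Fr]
      have hvs : v ≠ s := by
        rintro rfl
        exact hv q ((h1.nx.nb q).2 (by simp)) tqq
      refine ⟨(o.tS v).2 (Or.inl ⟨hs, hvs⟩), ?_⟩
      intro w hw hq
      rcases (o.tQ w).1 hq with h | h | h
      · exact hv w hw h.1
      · subst h
        rcases (h1.nx.nb v).1 hw.symm with e | e | e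
        · exact ne_col hs.1 h1.cq e
        · subst e
          exact hv q ((h1.nx'.nb q).2 (by simp)) tqq
        · exact ne_col hs.1 hn.1 e
      · subst h
        rcases (hN.nb v).1 hw.symm with e | e | e
        · exact hvs e
        · exact fm (e ▸ hv')
        · exact fm' (e ▸ hv')
  have hnot : t ∉ Fr G c := by
    rw [mem_Fr]
    rintro ⟨_, h⟩
    exact h p ((h2.nx.nb p).2 (by simp)) tqp
  have h6 := Finset.card_le_card key
  rw [Finset.card_insert_of_notMem hnot] at h6
  omega

end

/-- row C6 -/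
theorem C6 (hM1 : ST_M1) (hC1 : Pool.Agent.Helper96.MC.ST_C1) (hC5 : ST_C5) : ST_C6 := by
  intro V _ _ G _ hG c j hj hE m m' q p hq hp hr h1 h2
  have hm := hE.ck.1.mu1
  obtain ⟨s, s', n, n', d1, hn⟩ := acc_zero hG hm hr
    (fun w hw => hC5 V G hG c j hj hE.ck m' q p w hq hp hr hw h2) h1
  obtain ⟨t, t', l, l', d2, hl⟩ := acc_zero hG hm hr.symm
    (fun w hw => hC5 V G hG c j hj hE.ck m p q w hp hq hr.symm hw h1) h2
  exact dbl_no hM1 hC1 hG hj hE d1 d2 hn hl

end Pool.Agent.Helper6.MC
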