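import Mathlib
import Pool.Agent.Helper33.MC.St

/-!
MP_4042d8_co, section D part II: the operations `B(u,a;i)` on the hard set, and the runs.
`u` free, `a` its `A`-neighbour, `t`, `t'` mates in `T1` at `a`, `q` the `Q`-neighbour of `t`,
`k` the mate of `q`.
-/

set_option autoImplicit false
set_option linter.unusedSectionVars false
set_option linter.unusedVariables false

namespace Pool.Agent.Helper6.MC

open Pool.Agent.Helper27.MC Pool.Agent.Helper51.MC Pool.Agent.Helper88.MC Pool.Agent.Helper64.MC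
open Pool.Agent.Helper33.MC (Clr OpU OpN OpM OpV Run)

section defs

variable {V : Type} [Fintype V] [DecidableEq V] (G : SimpleGraph V) [DecidableRel G.Adj]

/-- data of a branch `(u, a; t)`, not touched by `H` -/
structure KB (c : V → Bool) (H : Finset V) (u v a b t t' q k : V) : Prop where
  su : Sv G c u v a b
  av : Av G c a u t t'
  ta : tA G c a
  tb : tA G c b
  st : Sv G c t t' a q
  qk : Rm G c q k
  lu : Clr G H u
  la : Clr G H a
  lk : Clr G H k

/-- `B3`: a new unmatched `P3-` formed by `g1 k g2` -/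
def OpK3 (c : V → Bool) (H H' : Finset V) : Prop :=
  ∃ u v a b t t' q k g1 g2, KB G c H u v a b t t' q k ∧ N3 G k q g1 g2 ∧
    Pool.Agent.Helper33.MC.Bare G c H u g1 ∧ Pool.Agent.Helper33.MC.Bare G c H u g2 ∧
    H' = H ∪ {u, b, a, t', t, q, k, g1, g2}

/-- `B4`: a new `P4-` formed by `g1 k g2 h` -/
def OpK4 (c : V → Bool) (H H' : Finset V) : Prop :=
  ∃ u v a b t t' q k g1 g2 h, KB G c H u v a b t t' q k ∧ N3 G k q g1 g2 ∧
    Pool.Agent.Helper33.MC.Bare G c H u g1 ∧ g2 ≠ t' ∧ Rm G c g2 h ∧ h ≠ u ∧ h ∉ H ∧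
    H' = H ∪ {u, b, a, t', t, q, k, g1, g2, h}

/-- house: a new `P4-` formed by `a t' k g` -/
def OpKH (c : V → Bool) (H H' : Finset V) : Prop :=
  ∃ u v a b t t' q k g, KB G c H u v a b t t' q k ∧ N3 G k q t' g ∧
    Pool.Agent.Helper33.MC.Bare G c H u g ∧ H' = H ∪ {u, b, a, t', t, q, k, g}

/-- Runs: `i` = number of slot operations made, `k` = number of unmatched `P3-`. -/
inductive RunG (c : V → Bool) : ℕ → ℕ → Finset V → Prop
  | start : RunG c 0 0 ∅
  | n {i k : ℕ} {H H' : Finset V} : RunG c i k H → (OpN G c H H' ∨ OpK3 G c H H') →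
      RunG c (i + 1) (k + 1) H'
  | un {i k : ℕ} {H H1 H' : Finset V} : RunG c i k H → OpU G c H H1 → OpN G c H1 H' →
      RunG c (i + 1) k H'
  | mv {i k : ℕ} {H H1 H' : Finset V} : RunG c i k H →
      (OpM G c H H1 ∨ OpK4 G c H H1 ∨ OpKH G c H H1) → OpV G c H1 H' → RunG c (i + 1) k H'
  | u {i k : ℕ} {H H' : Finset V} : RunG c i (k + 1) H → OpU G c H H' → RunG c i k H'

end defs

/-- row D_SEQ for part II: runs give final colourings (arbitrary cubic graph) -/
def ST_SEQG : Prop :=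
  ∀ (V : Type) [Fintype V] [DecidableEq V] (G : SimpleGraph V) [DecidableRel G.Adj],
    G.IsRegularOfDegree 3 → ∀ (c : V → Bool) (j : ℕ), (∀ v, mu G c v ≤ 1) →
      imb c = 2 * (j : ℤ) → ∀ H, RunG G c j 0 H → Good G

end Pool.Agent.Helper6.MC
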