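import Mathlib
import Pool.Agent.Helper33.MC.StG

/-!
MP_4042d8_co, section D part II: branches of `K`-slots. Which branches are lost by the operations.
-/

set_option autoImplicit false
set_option linter.unusedSectionVars false
set_option linter.unusedSimpArgs false
set_option linter.unusedVariables false

namespace Pool.Agent.Helper6.MC

open Pool.Agent.Helper27.MC hiding Fr T1 ter
open Pool.Agent.Helper51.MC Pool.Agent.Helper88.MC Pool.Agent.Helper64.MC
open Pool.Agent.Helper33.MC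
open Pool.Agent.Helper91.MC (sv_ex av_ex sv_Fr sv_T1 sv_Dd sv_swap sv_rm sv_tS sv_tSm tA_or_tQ
  tB_or_tS tA_not_tQ mem_Fr mem_T1)
open Pool.Agent.Helper91.MC.GK (Khb)
open Pool.Agent.Helper96.MC (Apx Td)

section defs

variable {V : Type} [Fintype V] [DecidableEq V] (G : SimpleGraph V) [DecidableRel G.Adj]

/-- a good branch with its vertex `t`, its free vertex `f` and its `k` -/
def Brn (c : V → Bool) (H : Finset V) (t f k : V) : Prop :=
  ∃ v x y t' q q' k', Khb G c f v x y t t' q q' k k' ∧ LS G c H f x ∧ Clr G H k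

end defs

variable {V : Type} [Fintype V] [DecidableEq V] {G : SimpleGraph V} [DecidableRel G.Adj]
  {c : V → Bool} {j : ℕ} {L : V → V → Prop} {H H' : Finset V}

theorem gb_iff {t : V} : GB G c H t ↔ ∃ f k, Brn G c H t f k := by
  constructor
  · rintro ⟨u, v, a, b, t', q, q', k, k', h1, h2, h3⟩
    exact ⟨u, k, v, a, b, t', q, q', k', h1, h2, h3⟩
  · rintro ⟨u, k, v, a, b, t', q, q', k', h1, h2, h3⟩
    exact ⟨u, v, a, b, t', q, q', k, k', h1, h2, h3⟩

theorem mem_goodB {t : V} : t ∈ goodB G c H ↔ GB G c H t := by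
  unfold goodB
  simp

theorem khb_rqk {f v x y t t' q q' k k' : V} (K : Khb G c f v x y t t' q q' k k') :
    Rm G c q k := K.q1

theorem khb_ck {f v x y t t' q q' k k' : V} (K : Khb G c f v x y t t' q q' k k') :
    c k = true := by rw [K.q1.2, K.h1.cb]

theorem khb_rtt {f v x y t t' q q' k k' : V} (K : Khb G c f v x y t t' q q' k k') :
    Rm G c t t' := sv_rm K.h1

section facts

variable (F : FxG G c j L)
include F

theorem khb_fr {f v x y t t' q q' k k' : V} (K : Khb G c f v x y t t' q q' k k') :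
    f ∈ Fr G c := (sv_Fr F.mu1 K.hu).2 ⟨K.ta, K.tb⟩

theorem khb_tQ {f v x y t t' q q' k k' : V} (K : Khb G c f v x y t t' q q' k k') :
    tQ G c q := ⟨K.h1.cb, mu_of_rm F.mu1 K.q1⟩

theorem khb_tQk {f v x y t t' q q' k k' : V} (K : Khb G c f v x y t t' q q' k k') :
    tQ G c k := ⟨khb_ck K, mu_of_rm F.mu1 K.q1.symm⟩

theorem khb_t1 {f v x y t t' q q' k k' : V} (K : Khb G c f v x y t t' q q' k k') :
    t ∈ T1 G c := (sv_T1 F.mu1 K.h1).2 (Or.inl ⟨K.ta, khb_tQ F K⟩)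

theorem fr_nT1 {s : V} (h : s ∈ Fr G c) : s ∉ T1 G c := by
  intro h'
  have h1 := (mem_Fr.1 h).2
  have h2 := (mem_T1.1 h').2
  omega

/-- a free vertex has no neighbour of type `Q` -/
theorem fr_nQ {s w : V} (h : s ∈ Fr G c) (hw : G.Adj s w) : ¬ tQ G c w := by
  intro hq
  obtain ⟨m, b, hs⟩ := sv_ex F.reg (mem_Fr.1 h).1 hw hq.1
  exact tA_not_tQ ((sv_Fr F.mu1 hs).1 h).1 hq

/-- the two true neighbours of a vertex of `T1` are of different types -/
theorem t1_A {t a e : V} (h : t ∈ T1 G c) (ha : G.Adj t a) (he : G.Adj t e) (ta : tA G c a)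
    (te : tA G c e) : a = e := by
  obtain ⟨m, b, hs⟩ := sv_ex F.reg (mem_T1.1 h).1 ha ta.1
  rcases (hs.n3.nb e).1 he with h1 | h1 | h1
  · have h2 := te.1
    rw [h1, hs.cm] at h2
    cases h2
  · exact h1.symm
  · rcases (sv_T1 F.mu1 hs).1 h with h2 | h2
    · exact (tA_not_tQ te (h1 ▸ h2.2)).elim
    · exact (tA_not_tQ ta h2.1).elim

/-- a vertex of type `Q` which is no apex has at most one neighbour of type `S` -/
theorem q_one {q s s' : V} (hq : tQ G c q) (hn : ¬ Apx G c q) (hs : tS G c s) (hs' : tS G c s')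
    (h : G.Adj q s) (h' : G.Adj q s') : s = s' := by
  by_contra hne
  exact hn ⟨s, s', hq, h, h', F.f1 q s s' hq hs hs' h h' hne, hs.1⟩

/-- the vertices in `K0` near a lost branch -/
theorem brn_near {K0 : Finset V} {f v x y t t' q q' k k' : V}
    (K : Khb G c f v x y t t' q q' k k') (hl : LS G c H f x) (hk : Clr G H k)
    (hn : ¬ GB G c (H ∪ K0) t) :
    ∃ w ∈ K0, w = f ∨ w = v ∨ w = x ∨ w = y ∨ w = t ∨ w = t' ∨ w = k ∨ G.Adj k w := by
  by_cases h1 : Clr G (H ∪ K0) f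
  · by_cases h2 : Clr G (H ∪ K0) x
    · have h3 : ¬ Clr G (H ∪ K0) k := fun h3 =>
        hn ⟨f, v, x, y, t', q, q', k, k', K, ⟨hl.1, hl.2.1, hl.2.2.1, h1, h2⟩, h3⟩
      rcases not_clr' hk h3 with h4 | ⟨w, h4, h5⟩
      · exact ⟨k, h4, by tauto⟩
      · exact ⟨w, h5, by tauto⟩
    · rcases not_clr' hl.2.2.2.2 h2 with h4 | ⟨w, h4, h5⟩
      · exact ⟨x, h4, by tauto⟩
      · refine ⟨w, h5, ?_⟩
        have := (K.ha.n3.nb w).1 h4
        tauto
  · rcases not_clr' hl.2.2.2.1 h1 with h4 | ⟨w, h4, h5⟩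
    · exact ⟨f, h4, by tauto⟩
    · refine ⟨w, h5, ?_⟩
      have := (K.hu.n3.nb w).1 h4
      tauto

/-- near vertex of type `A` -/
theorem near_A {f v x y t t' q q' k k' w : V} (K : Khb G c f v x y t t' q q' k k')
    (hw : tA G c w)
    (h : w = f ∨ w = v ∨ w = x ∨ w = y ∨ w = t ∨ w = t' ∨ w = k ∨ G.Adj k w) :
    G.Adj f w := by
  have n : ∀ z, c z = false → w ≠ z := by
    rintro z hz rfl
    rw [hw.1] at hz
    cases hz
  have ck := khb_ck K
  rcases h with h | h | h | h | h | h | h | h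
  · exact (n f K.hu.cs h).elim
  · exact (n v K.hu.cm h).elim
  · rw [h]
    exact (K.hu.n3.nb x).2 (by simp)
  · rw [h]
    exact (K.hu.n3.nb y).2 (by simp)
  · exact (n t K.h1.cs h).elim
  · exact (n t' K.h1.cm h).elim
  · exact (nomate (h ▸ hw.2) q K.q1.symm).elim
  · exact (nomate hw.2 k ⟨h.symm, by rw [ck, hw.1]⟩).elim

/-- near free vertex -/
theorem near_Fr {f v x y t t' q q' k k' w : V} (K : Khb G c f v x y t t' q q' k k')
    (hw : w ∈ Fr G c)
    (h : w = f ∨ w = v ∨ w = x ∨ w = y ∨ w = t ∨ w = t' ∨ w = k ∨ G.Adj k w) :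
    f = w ∨ Rm G c w f := by
  have cw := (mem_Fr.1 hw).1.1
  have n : ∀ z, c z = true → w ≠ z := by
    rintro z hz rfl
    rw [cw] at hz
    cases hz
  have ck := khb_ck K
  rcases h with h | h | h | h | h | h | h | h
  · exact Or.inl h.symm
  · rw [h]
    exact Or.inr (sv_rm K.hu).symm
  · exact (n x K.ta.1 h).elim
  · exact (n y K.tb.1 h).elim
  · exact (fr_nT1 F hw (h ▸ khb_t1 F K)).elim
  · exact (fr_nT1 F hw (h ▸ khb_t1 F K.symm)).elim
  · exact (n k ck h).elim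
  · exact (fr_nQ F hw h.symm (khb_tQk F K)).elim

/-- near bare vertex -/
theorem near_bare {f v x y t t' q q' k k' w u : V} (K : Khb G c f v x y t t' q q' k k')
    (hl : LS G c H f x) (cw : c w = false) (hu : u ∈ Fr G c) (hw : Bare G c H u w)
    (h : w = f ∨ w = v ∨ w = x ∨ w = y ∨ w = t ∨ w = t' ∨ w = k ∨ G.Adj k w) :
    f = u ∨ Rm G c u f ∨ G.Adj k w := by
  have n : ∀ z, c z = true → w ≠ z := by
    rintro z hz rfl
    rw [cw] at hz
    cases hz
  have ck := khb_ck K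
  have fH := hl.2.2.2.1.1
  have tH := hl.2.2.2.2.2 t ((K.ha.n3.nb t).2 (by simp))
  have tH' := hl.2.2.2.2.2 t' ((K.ha.n3.nb t').2 (by simp))
  have vH := hl.2.2.2.1.2 v ((K.hu.n3.nb v).2 (by simp))
  rcases h with h | h | h | h | h | h | h | h
  · rw [h] at hw
    rcases hw v (sv_rm K.hu) with h1 | h1
    · rw [← h1]
      exact Or.inr (Or.inl (sv_rm K.hu).symm)
    · exact (vH h1).elim
  · rw [h] at hw
    rcases hw f (sv_rm K.hu).symm with h1 | h1
    · exact Or.inl h1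
    · exact (fH h1).elim
  · exact (n x K.ta.1 h).elim
  · exact (n y K.tb.1 h).elim
  · rw [h] at hw
    rcases hw t' (khb_rtt K) with h1 | h1
    · exact (fr_nT1 F hu (h1 ▸ khb_t1 F K.symm)).elim
    · exact (tH' h1).elim
  · rw [h] at hw
    rcases hw t (khb_rtt K).symm with h1 | h1
    · exact (fr_nT1 F hu (h1 ▸ khb_t1 F K)).elim
    · exact (tH h1).elim
  · exact (n k ck h).elim
  · exact Or.inr (Or.inr h)

/-- a vertex of `T1` adjacent to the `k` of a branch: fact K1 -/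
theorem k_T1 {f v x y t t' q q' k k' w m e : V} (K : Khb G c f v x y t t' q q' k k')
    (hw : w ∈ T1 G c) (hm : Rm G c w m) (he : G.Adj w e) (te : tA G c e) (h : G.Adj k w) :
    f = m ∨ G.Adj f e := by
  have hS := (mem_T1.1 hw).1
  by_cases h1 : w = v
  · left
    rw [h1] at hm
    exact rm_uniq (F.mu1 v) (sv_rm K.hu).symm hm
  by_cases h2 : w = t'
  · right
    have h3 : G.Adj t' x := (K.h2.n3.nb x).2 (by simp)
    rw [t1_A F hw he (h2 ▸ h3) te K.ta]
    exact (K.hu.n3.nb x).2 (by simp)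
  have hwq : w ≠ q := by
    rintro rfl
    have h3 := hS.1
    rw [K.h1.cb] at h3
    cases h3
  obtain ⟨z, hz⟩ := Pool.Agent.Helper96.MC.n3_of2 F.reg K.q1.symm.1 h hwq.symm
  have hz' := F.g3' _ _ _ _ _ _ _ _ _ _ w z K hz hS
  obtain ⟨m', k0, hs⟩ := sv_ex F.reg hS h.symm (khb_ck K)
  have h5 : e = k0 := by
    rcases (hs.n3.nb e).1 he with h4 | h4 | h4
    · have h5 := te.1
      rw [h4, hs.cm] at h5
      cases h5
    · exact (tA_not_tQ te (h4 ▸ khb_tQk F K)).elim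
    · exact h4
  subst h5
  have h6 := F.k1 _ _ _ _ _ _ _ _ _ _ w z m' e K hz hz' hs te h1 h2
  right
  rw [h6]
  exact (K.hu.n3.nb y).2 (by simp)

/-- near vertex of `T1` -/
theorem near_T1 {f v x y t t' q q' k k' w m e : V} (K : Khb G c f v x y t t' q q' k k')
    (hw : w ∈ T1 G c) (hm : Rm G c w m) (he : G.Adj w e) (te : tA G c e)
    (h : w = f ∨ w = v ∨ w = x ∨ w = y ∨ w = t ∨ w = t' ∨ w = k ∨ G.Adj k w) :
    f = m ∨ G.Adj f e := by
  have cw := (mem_T1.1 hw).1.1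
  have n : ∀ z, c z = true → w ≠ z := by
    rintro z hz rfl
    rw [cw] at hz
    cases hz
  have ck := khb_ck K
  have fx : G.Adj f x := (K.hu.n3.nb x).2 (by simp)
  rcases h with h | h | h | h | h | h | h | h
  · exact (fr_nT1 F (khb_fr F K) (h ▸ hw)).elim
  · left
    rw [h] at hm
    exact rm_uniq (F.mu1 v) (sv_rm K.hu).symm hm
  · exact (n x K.ta.1 h).elim
  · exact (n y K.tb.1 h).elim
  · right
    have h3 : G.Adj t x := (K.h1.n3.nb x).2 (by simp)
    rw [t1_A F hw he (h ▸ h3) te K.ta]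
    exact fx
  · right
    have h3 : G.Adj t' x := (K.h2.n3.nb x).2 (by simp)
    rw [t1_A F hw he (h ▸ h3) te K.ta]
    exact fx
  · exact (n k ck h).elim
  · exact k_T1 F K hw hm he te h

/-- near vertex of type `S` -/
theorem near_S {f v x y t t' q q' k k' w m : V} (K : Khb G c f v x y t t' q q' k k')
    (hw : tS G c w) (hm : Rm G c w m)
    (h : w = f ∨ w = v ∨ w = x ∨ w = y ∨ w = t ∨ w = t' ∨ w = k ∨ G.Adj k w) :
    f = w ∨ f = m ∨ m = t' ∨ m = t ∨ G.Adj k w := by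
  have n : ∀ z, c z = true → w ≠ z := by
    rintro z hz rfl
    rw [hw.1] at hz
    cases hz
  have ck := khb_ck K
  rcases h with h | h | h | h | h | h | h | h
  · exact Or.inl h.symm
  · right; left
    rw [h] at hm
    exact rm_uniq (F.mu1 v) (sv_rm K.hu).symm hm
  · exact (n x K.ta.1 h).elim
  · exact (n y K.tb.1 h).elim
  · right; right; left
    rw [h] at hm
    exact rm_uniq (F.mu1 t) hm (khb_rtt K)
  · right; right; right; left
    rw [h] at hm
    exact rm_uniq (F.mu1 t') hm (khb_rtt K).symm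
  · exact (n k ck h).elim
  · tauto

/-- near vertex of type `Q` -/
theorem near_Q {f v x y t t' q q' k k' w w' : V} (K : Khb G c f v x y t t' q q' k k')
    (hw : tQ G c w) (hm : Rm G c w w')
    (h : w = f ∨ w = v ∨ w = x ∨ w = y ∨ w = t ∨ w = t' ∨ w = k ∨ G.Adj k w) :
    (w = k ∧ w' = q) ∨ (w = q ∧ w' = k) := by
  have n : ∀ z, c z = false → w ≠ z := by
    rintro z hz rfl
    rw [hw.1] at hz
    cases hz
  have ck := khb_ck K
  rcases h with h | h | h | h | h | h | h | h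
  · exact (n f K.hu.cs h).elim
  · exact (n v K.hu.cm h).elim
  · exact (tA_not_tQ K.ta (h ▸ hw)).elim
  · exact (tA_not_tQ K.tb (h ▸ hw)).elim
  · exact (n t K.h1.cs h).elim
  · exact (n t' K.h1.cm h).elim
  · left
    refine ⟨h, ?_⟩
    rw [h] at hm
    exact rm_uniq (F.mu1 k) hm K.q1.symm
  · right
    have h1 : Rm G c k w := ⟨h, by rw [hw.1, ck]⟩
    have h2 : w = q := rm_uniq (F.mu1 k) h1 K.q1.symm
    refine ⟨h2, ?_⟩
    rw [h2] at hm
    exact rm_uniq (F.mu1 q) hm K.q1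

/-- two free vertices, not mates, have no common `A`-neighbour if one of them has a `K`-hub -/
theorem kf_far {f v x y t t' q q' k k' s a : V} (K : Khb G c f v x y t t' q q' k k')
    (hs : s ∈ Fr G c) (hne : f ≠ s) (hr : ¬ Rm G c s f) (ta : tA G c a) (h1 : G.Adj f a)
    (h2 : G.Adj s a) : False := by
  have ff := khb_fr F K
  have nx : ¬ G.Adj s x := by
    intro h
    rcases (K.ha.n3.nb s).1 h.symm with h3 | h3 | h3
    · exact hne h3.symm
    · exact fr_nT1 F hs (h3 ▸ khb_t1 F K)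
    · exact fr_nT1 F hs (h3 ▸ khb_t1 F K.symm)
  have hay : a = y := by
    rcases (K.hu.n3.nb a).1 h1 with h3 | h3 | h3
    · have h4 := ta.1
      rw [h3, K.hu.cm] at h4
      cases h4
    · exact (nx (h3 ▸ h2)).elim
    · exact h3
  obtain ⟨b, v1, v2, za, zb, hq⟩ := F.g1 a s f ta hs ff hne.symm hr h2.symm h1.symm
  have h4 : x = b := by
    have h5 : G.Adj f x := (K.hu.n3.nb x).2 (by simp)
    rcases (hq.h2.n3.nb x).1 h5 with h6 | h6 | h6
    · have h7 := K.ta.1
      rw [h6, hq.h2.cm] at h7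
      cases h7
    · exact (K.hu.n3.yz (h6.trans hay)).elim
    · exact h6
  subst h4
  exact nx ((hq.h1.n3.nb x).2 (by simp))

/-- `f` near `a`, `a ~ u` free with mate `v` -/
theorem kf_near {f v x y t t' q q' k k' u v0 a : V} (K : Khb G c f v x y t t' q q' k k')
    (hu : u ∈ Fr G c) (hv : Rm G c u v0) (ta : tA G c a) (h1 : G.Adj f a) (h2 : G.Adj u a) :
    f = u ∨ f = v0 := by
  by_cases h3 : f = u
  · exact Or.inl h3
  by_cases h4 : Rm G c u f
  · exact Or.inr (rm_uniq (F.mu1 u) h4 hv)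
  · exact (kf_far F K hu h3 h4 ta h1 h2).elim

/-! ### lost branches -/

/-- branches lost by `U(s)` -/
theorem lkU {s m a b t f k : V} (hs : Sv G c s m a b) (ta : tA G c a) (tb : tA G c b)
    (h : Brn G c H t f k) (hn : ¬ GB G c (H ∪ {s, a, b}) t) : f = s ∨ f = m := by
  obtain ⟨v, x, y, t', q, q', k', K, hl, hk⟩ := h
  obtain ⟨w, hw, h⟩ := brn_near F K hl hk hn
  have fs : s ∈ Fr G c := (sv_Fr F.mu1 hs).2 ⟨ta, tb⟩
  have sa : G.Adj s a := (hs.n3.nb a).2 (by simp)
  have sb : G.Adj s b := (hs.n3.nb b).2 (by simp)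
  have hr := sv_rm hs
  simp only [Finset.mem_insert, Finset.mem_singleton] at hw
  rcases hw with hw | hw | hw
  · subst hw
    exact (near_Fr F K fs h).imp id fun h1 => rm_uniq (F.mu1 w) h1 hr
  · subst hw
    exact kf_near F K fs hr ta (near_A F K ta h) sa
  · subst hw
    exact kf_near F K fs hr tb (near_A F K tb h) sb

/-- branches lost by `N(u,a)` -/
theorem lkN {u v0 a b x0 y0 t f k : V} (hu : Sv G c u v0 a b) (ha : Av G c a u x0 y0)
    (ta : tA G c a) (tb : tA G c b) (bx : Bare G c H u x0) (by0 : Bare G c H u y0)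
    (h : Brn G c H t f k) (hn : ¬ GB G c (H ∪ {u, b, x0, a, y0}) t) :
    f = u ∨ f = v0 ∨ G.Adj k x0 ∨ G.Adj k y0 := by
  obtain ⟨v, x, y, t', q, q', k', K, hl, hk⟩ := h
  obtain ⟨w, hw, h⟩ := brn_near F K hl hk hn
  have fu : u ∈ Fr G c := (sv_Fr F.mu1 hu).2 ⟨ta, tb⟩
  have ua : G.Adj u a := (hu.n3.nb a).2 (by simp)
  have ub : G.Adj u b := (hu.n3.nb b).2 (by simp)
  have hr := sv_rm hu
  have e1 : Rm G c u f → f = v0 := fun h1 => rm_uniq (F.mu1 u) h1 hr
  simp only [Finset.mem_insert, Finset.mem_singleton] at hw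
  have e3 : f = u ∨ f = v0 → f = u ∨ f = v0 ∨ G.Adj k x0 ∨ G.Adj k y0 :=
    fun h1 => h1.elim Or.inl fun h2 => Or.inr (Or.inl h2)
  rcases hw with hw | hw | hw | hw | hw
  · subst hw
    exact e3 ((near_Fr F K fu h).imp id e1)
  · subst hw
    exact e3 (kf_near F K fu hr tb (near_A F K tb h) ub)
  · subst hw
    rcases near_bare F K hl ha.cy fu bx h with h1 | h1 | h1
    · exact Or.inl h1
    · exact Or.inr (Or.inl (e1 h1))
    · exact Or.inr (Or.inr (Or.inl h1))
  · subst hw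
    exact e3 (kf_near F K fu hr ta (near_A F K ta h) ua)
  · subst hw
    rcases near_bare F K hl ha.cz fu by0 h with h1 | h1 | h1
    · exact Or.inl h1
    · exact Or.inr (Or.inl (e1 h1))
    · exact Or.inr (Or.inr (Or.inr h1))

/-- branches lost by `M(u,a)` -/
theorem lkM {u v0 a b x0 t0 r t f k : V} (hu : Sv G c u v0 a b) (ha : Av G c a u x0 t0)
    (ta : tA G c a) (tb : tA G c b) (bx : Bare G c H u x0) (ht : t0 ∈ T1 G c) (hr0 : Rm G c t0 r)
    (h : Brn G c H t f k) (hn : ¬ GB G c (H ∪ {u, b, x0, a, t0, r}) t) :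
    f = u ∨ f = v0 ∨ f = r ∨ G.Adj k x0 ∨ G.Adj k r := by
  obtain ⟨v, x, y, t', q, q', k', K, hl, hk⟩ := h
  obtain ⟨w, hw, h⟩ := brn_near F K hl hk hn
  have fu : u ∈ Fr G c := (sv_Fr F.mu1 hu).2 ⟨ta, tb⟩
  have ua : G.Adj u a := (hu.n3.nb a).2 (by simp)
  have ub : G.Adj u b := (hu.n3.nb b).2 (by simp)
  have at0 : G.Adj a t0 := (ha.n3.nb t0).2 (by simp)
  have hr := sv_rm hu
  have e1 : Rm G c u f → f = v0 := fun h1 => rm_uniq (F.mu1 u) h1 hr
  have e2 : G.Adj f a → f = u ∨ f = v0 := fun h1 => kf_near F K fu hr ta h1 ua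
  simp only [Finset.mem_insert, Finset.mem_singleton] at hw
  have e3 : f = u ∨ f = v0 → f = u ∨ f = v0 ∨ f = r ∨ G.Adj k x0 ∨ G.Adj k r :=
    fun h1 => h1.elim Or.inl fun h2 => Or.inr (Or.inl h2)
  rcases hw with hw | hw | hw | hw | hw | hw
  · subst hw
    exact e3 ((near_Fr F K fu h).imp id e1)
  · subst hw
    exact e3 (kf_near F K fu hr tb (near_A F K tb h) ub)
  · subst hw
    rcases near_bare F K hl ha.cy fu bx h with h1 | h1 | h1
    · exact Or.inl h1
    · exact Or.inr (Or.inl (e1 h1))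
    · exact Or.inr (Or.inr (Or.inr (Or.inl h1)))
  · subst hw
    exact e3 (e2 (near_A F K ta h))
  · subst hw
    rcases near_T1 F K ht hr0 at0.symm ta h with h1 | h1
    · exact Or.inr (Or.inr (Or.inl h1))
    · exact e3 (e2 h1)
  · subst hw
    have hS : tS G c w := ⟨by rw [hr0.2]; exact (mem_T1.1 ht).1.1, mu_of_rm F.mu1 hr0.symm⟩
    have xt : ∀ z, (z = t ∨ z = t') → t0 = z → G.Adj f a := by
      intro z hz hzt
      have h3 : G.Adj t0 x := by
        rw [hzt]
        rcases hz with hz | hz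
        · rw [hz]
          exact (K.h1.n3.nb x).2 (by simp)
        · rw [hz]
          exact (K.h2.n3.nb x).2 (by simp)
      rw [t1_A F ht at0.symm h3 ta K.ta]
      exact (K.hu.n3.nb x).2 (by simp)
    rcases near_S F K hS hr0.symm h with h1 | h1 | h1 | h1 | h1
    · exact Or.inr (Or.inr (Or.inl h1))
    · exact (fr_nT1 F (khb_fr F K) (h1 ▸ ht)).elim
    · exact e3 (e2 (xt t' (Or.inr rfl) h1))
    · exact e3 (e2 (xt t (Or.inl rfl) h1))
    · exact Or.inr (Or.inr (Or.inr (Or.inr h1)))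

/-- branches lost by `U4(t0)` -/
theorem lkV {t0 r a q0 q0' t f k : V} (h0 : Sv G c t0 r a q0) (ta : tA G c a) (tq : tQ G c q0)
    (hq : Rm G c q0 q0') (h : Brn G c H t f k) (hn : ¬ GB G c (H ∪ {t0, a, q0, q0'}) t) :
    f = r ∨ G.Adj f a := by
  obtain ⟨v, x, y, t', q, q', k', K, hl, hk⟩ := h
  obtain ⟨w, hw, h⟩ := brn_near F K hl hk hn
  have t01 : t0 ∈ T1 G c := (sv_T1 F.mu1 h0).2 (Or.inl ⟨ta, tq⟩)
  have t0a : G.Adj t0 a := (h0.n3.nb a).2 (by simp)
  have t0q : G.Adj t0 q0 := (h0.n3.nb q0).2 (by simp)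
  have hr := sv_rm h0
  have tq' : tQ G c q0' := ⟨by rw [hq.2]; exact tq.1, mu_of_rm F.mu1 hq.symm⟩
  have key : ∀ w w', tQ G c w → Rm G c w w' → (w = q0 ∨ w' = q0) →
      (w = f ∨ w = v ∨ w = x ∨ w = y ∨ w = t ∨ w = t' ∨ w = k ∨ G.Adj k w) →
      f = r ∨ G.Adj f a := by
    intro w w' h1 h2 h3 h4
    have h5 : k = q0 ∨ q = q0 := by
      rcases near_Q F K h1 h2 h4 with ⟨h6, h7⟩ | ⟨h6, h7⟩
      · rcases h3 with h8 | h8
        · exact Or.inl (h6.symm.trans h8)
        · exact Or.inr (h7.symm.trans h8)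
      · rcases h3 with h8 | h8
        · exact Or.inr (h6.symm.trans h8)
        · exact Or.inl (h7.symm.trans h8)
    rcases h5 with h6 | h6
    · exact k_T1 F K t01 hr t0a ta (h6 ▸ t0q.symm)
    · right
      have h7 : t = t0 := q_one F (khb_tQ F K) (F.g3 _ _ _ _ _ _ _ _ _ _ K).2.1
        (mem_T1.1 (khb_t1 F K)).1 (mem_T1.1 t01).1
        (((K.h1.n3.nb q).2 (by simp)).symm) (h6 ▸ t0q.symm)
      have h8 : G.Adj t0 x := by
        rw [← h7]
        exact (K.h1.n3.nb x).2 (by simp)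
      rw [t1_A F t01 t0a h8 ta K.ta]
      exact (K.hu.n3.nb x).2 (by simp)
  simp only [Finset.mem_insert, Finset.mem_singleton] at hw
  rcases hw with hw | hw | hw | hw
  · subst hw
    exact near_T1 F K t01 hr t0a ta h
  · subst hw
    exact Or.inr (near_A F K ta h)
  · subst hw
    exact key w q0' tq hq (Or.inl rfl) h
  · subst hw
    exact key w q0 tq' hq.symm (Or.inr rfl) h

/-! ### counting branches -/

omit F in
theorem covB_hub (f a : V) : Cov (fun t : V => ∃ v y t' q q' k k',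
    Khb G c f v a y t t' q q' k k') 2 := by
  classical
  by_cases h : ∃ t v y t' q q' k k', Khb G c f v a y t t' q q' k k'
  · obtain ⟨t, v, y, t', q, q', k, k', K⟩ := h
    refine ⟨{t, t'}, Finset.card_le_two, ?_⟩
    rintro t2 ⟨v2, y2, t2', q2, q2', k2, k2', K2⟩
    have h1 : G.Adj a t2 := (K2.ha.n3.nb t2).2 (by simp)
    simp only [Finset.mem_insert, Finset.mem_singleton]
    rcases (K.ha.n3.nb t2).1 h1 with h2 | h2 | h2
    · exact (K2.ha.n3.xy h2.symm).elim
    · exact Or.inl h2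
    · exact Or.inr h2
  · refine ⟨∅, by simp, ?_⟩
    rintro t ht
    exact (h ⟨t, ht⟩).elim

omit F in
/-- the branches of one free vertex -/
theorem covB_f (H : Finset V) (f : V) : Cov (fun t : V => ∃ k, Brn G c H t f k) 4 := by
  classical
  by_cases h : ∃ t k, Brn G c H t f k
  · obtain ⟨t, k, v, x, y, t', q, q', k', K, hl, hk⟩ := h
    refine ((covB_hub (G := G) (c := c) f x).or (covB_hub (G := G) (c := c) f y)).mono ?_
      (by norm_num)
    rintro t2 ⟨k2, v2, x2, y2, t2', q2, q2', k2', K2, hl2, hk2⟩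
    have h1 : G.Adj f x2 := (K2.hu.n3.nb x2).2 (by simp)
    rcases (K.hu.n3.nb x2).1 h1 with h2 | h2 | h2
    · have h3 := K2.ta.1
      rw [h2, K.hu.cm] at h3
      cases h3
    · subst h2
      exact Or.inl ⟨v2, y2, t2', q2, q2', k2, k2', K2⟩
    · subst h2
      exact Or.inr ⟨v2, y2, t2', q2, q2', k2, k2', K2⟩
  · refine ⟨∅, by simp, ?_⟩
    rintro t ht
    exact (h ⟨t, ht⟩).elim

/-- the branch is determined by its `k` -/
theorem brn_k {t t2 f f2 k : V} (h : Brn G c H t f k) (h' : Brn G c H' t2 f2 k) : t = t2 := by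
  obtain ⟨v, x, y, t', q, q', k', K, hl, hk⟩ := h
  obtain ⟨v2, x2, y2, t2', q2, q2', k2', K2, hl2, hk2⟩ := h'
  have e : q2 = q := rm_uniq (F.mu1 k) K2.q1.symm K.q1.symm
  subst e
  exact q_one F (khb_tQ F K) (F.g3 _ _ _ _ _ _ _ _ _ _ K).2.1 (mem_T1.1 (khb_t1 F K)).1
    (mem_T1.1 (khb_t1 F K2)).1 (((K.h1.n3.nb q2).2 (by simp)).symm)
    (((K2.h1.n3.nb q2).2 (by simp)).symm)

theorem covB_k (H : Finset V) (k : V) : Cov (fun t : V => ∃ f, Brn G c H t f k) 1 :=
  Cov.sub fun _ _ ⟨_, h⟩ ⟨_, h'⟩ => brn_k F h h'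

/-- the branches with `k ~ w`, `k` different from a given neighbour of `w` -/
theorem covB_w (H : Finset V) {w a n1 n2 : V} (h : N3 G w a n1 n2) :
    Cov (fun t : V => ∃ f k, Brn G c H t f k ∧ G.Adj k w ∧ k ≠ a) 2 := by
  classical
  refine ((covB_k F H n1).or (covB_k F H n2)).mono ?_ (by norm_num)
  rintro t ⟨f, k, hb, hk, hne⟩
  rcases (h.nb k).1 hk.symm with h1 | h1 | h1
  · exact (hne h1).elim
  · exact Or.inl ⟨f, h1 ▸ hb⟩
  · exact Or.inr ⟨f, h1 ▸ hb⟩

/-- all branches with `k ~ w` -/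
theorem covB_w3 (H : Finset V) (w : V) :
    Cov (fun t : V => ∃ f k, Brn G c H t f k ∧ G.Adj k w) 3 := by
  classical
  by_cases h : ∃ a, G.Adj w a
  · obtain ⟨a, ha⟩ := h
    obtain ⟨n1, n2, hw⟩ := Pool.Agent.Helper96.MC.n3_of F.reg ha
    refine ((covB_k F H a).or (covB_w F H hw)).mono ?_ (by norm_num)
    rintro t ⟨f, k, hb, hk⟩
    by_cases h1 : k = a
    · exact Or.inl ⟨f, h1 ▸ hb⟩
    · exact Or.inr ⟨f, k, hb, hk, h1⟩
  · refine (Cov.none (P := fun t : V => ∃ f k, Brn G c H t f k ∧ G.Adj k w) ?_).mono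
      (fun _ h => h) (by norm_num)
    rintro t ⟨f, k, hb, hk⟩
    exact h ⟨k, hk.symm⟩

omit F in
theorem cov_goodB {n : ℕ} (h : Cov (fun t : V => GB G c H t ∧ ¬ GB G c H' t) n) :
    (goodB G c H \ goodB G c H').card ≤ n := by
  classical
  refine h.card fun p hp => ?_
  rw [Finset.mem_sdiff, mem_goodB, mem_goodB] at hp
  exact hp

omit F in
theorem cov_of_goodB {n : ℕ} (h : (goodB G c H \ goodB G c H').card ≤ n) :
    Cov (fun t : V => GB G c H t ∧ ¬ GB G c H' t) n :=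
  ⟨_, h, fun p hp => by rw [Finset.mem_sdiff, mem_goodB, mem_goodB]; exact hp⟩

omit F in
/-- composition of two steps (branches) -/
theorem covB_comp {H1 : Finset V} {m n : ℕ}
    (h : Cov (fun t : V => GB G c H t ∧ ¬ GB G c H1 t) m)
    (h' : Cov (fun t : V => GB G c H1 t ∧ ¬ GB G c H' t) n) :
    Cov (fun t : V => GB G c H t ∧ ¬ GB G c H' t) (m + n) := by
  classical
  refine (h.or h').mono ?_ le_rfl
  rintro t ⟨h1, h2⟩
  by_cases h3 : GB G c H1 t
  · exact Or.inr ⟨h3, h2⟩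
  · exact Or.inl ⟨h1, h3⟩

end facts

end Pool.Agent.Helper6.MC
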