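import Mathlib
import Pool.Agent.Helper6.MC.LK
import Pool.Agent.Helper33.MC.GBas

/-!
MP_4042d8_co, section D part II, row G_C5c: only `K`-slots have positive weight.
-/

set_option autoImplicit false
set_option linter.unusedSectionVars false
set_option linter.unusedSimpArgs false
set_option linter.unusedVariables false

namespace Pool.Agent.Helper6.MC

open Pool.Agent.Helper27.MC hiding Fr T1 ter
open Pool.Agent.Helper51.MC Pool.Agent.Helper88.MC Pool.Agent.Helper64.MC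
open Pool.Agent.Helper33.MC
open Pool.Agent.Helper91.MC (sv_ex av_ex sv_Fr sv_T1 sv_Dd sv_swap sv_rm sv_tS sv_tSm tA_or_tQ
  tB_or_tS tA_not_tQ mem_Fr mem_T1)
open Pool.Agent.Helper91.MC.GK (Khb)
open Pool.Agent.Helper96.MC (Apx Td)

variable {V : Type} [Fintype V] [DecidableEq V] {G : SimpleGraph V} [DecidableRel G.Adj]
  {c : V → Bool} {j : ℕ} {L : V → V → Prop} {H H' : Finset V}

section facts

variable (F : FxG G c j L)
include F

/-- the vertices of the chosen branch: which ones are near another branch -/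
theorem kk_near {u v0 a b t0 t0' q0 q0' k0 k0' : V}
    (K0 : Khb G c u v0 a b t0 t0' q0 q0' k0 k0')
    {f v x y t t' q q' k k' w : V} (K : Khb G c f v x y t t' q q' k k')
    (h : w = f ∨ w = v ∨ w = x ∨ w = y ∨ w = t ∨ w = t' ∨ w = k ∨ G.Adj k w)
    (hw : w = u ∨ w = b ∨ w = a ∨ w = t0' ∨ w = t0 ∨ w = q0 ∨ w = k0) : f = u ∨ f = v0 := by
  have fu := khb_fr F K0
  have hr := sv_rm K0.hu
  have ua : G.Adj u a := (K0.hu.n3.nb a).2 (by simp)
  have ub : G.Adj u b := (K0.hu.n3.nb b).2 (by simp)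
  have t01 := khb_t1 F K0
  have t01' := khb_t1 F K0.symm
  have ta0 : G.Adj t0 a := (K0.h1.n3.nb a).2 (by simp)
  have ta0' : G.Adj t0' a := (K0.h2.n3.nb a).2 (by simp)
  have tq0 : G.Adj t0 q0 := (K0.h1.n3.nb q0).2 (by simp)
  have e2 : G.Adj f a → f = u ∨ f = v0 := fun h1 => kf_near F K fu hr K0.ta h1 ua
  have ff := khb_fr F K
  have e3 : f = t0 ∨ f = t0' ∨ G.Adj f a → f = u ∨ f = v0 := by
    rintro (h1 | h1 | h1)
    · exact (fr_nT1 F ff (h1 ▸ t01)).elim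
    · exact (fr_nT1 F ff (h1 ▸ t01')).elim
    · exact e2 h1
  have e5 : k = q0 → f = u ∨ f = v0 := by
    intro h1
    rcases k_T1 F K t01 (khb_rtt K0) ta0 K0.ta (h1 ▸ tq0.symm) with h2 | h2
    · exact e3 (Or.inr (Or.inl h2))
    · exact e2 h2
  have e4 : q = q0 → f = u ∨ f = v0 := by
    intro h6
    have h7 : t = t0 := q_one F (khb_tQ F K) (F.g3 _ _ _ _ _ _ _ _ _ _ K).2.1
      (mem_T1.1 (khb_t1 F K)).1 (mem_T1.1 t01).1
      (((K.h1.n3.nb q).2 (by simp)).symm) (h6 ▸ tq0.symm)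
    have h8 : G.Adj t0 x := by
      rw [← h7]
      exact (K.h1.n3.nb x).2 (by simp)
    refine e2 ?_
    rw [t1_A F t01 ta0 h8 K0.ta K.ta]
    exact (K.hu.n3.nb x).2 (by simp)
  rcases hw with hw | hw | hw | hw | hw | hw | hw
  · subst hw
    exact (near_Fr F K fu h).imp id fun h1 => rm_uniq (F.mu1 w) h1 hr
  · subst hw
    exact kf_near F K fu hr K0.tb (near_A F K K0.tb h) ub
  · subst hw
    exact e2 (near_A F K K0.ta h)
  · subst hw
    rcases near_T1 F K t01' (khb_rtt K0).symm ta0' K0.ta h with h1 | h1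
    · exact e3 (Or.inl h1)
    · exact e2 h1
  · subst hw
    rcases near_T1 F K t01 (khb_rtt K0) ta0 K0.ta h with h1 | h1
    · exact e3 (Or.inr (Or.inl h1))
    · exact e2 h1
  · subst hw
    rcases near_Q F K (khb_tQ F K0) K0.q1 h with ⟨h1, h2⟩ | ⟨h1, h2⟩
    · exact e5 h1.symm
    · exact e4 h1.symm
  · subst hw
    rcases near_Q F K (khb_tQk F K0) K0.q1.symm h with ⟨h1, h2⟩ | ⟨h1, h2⟩
    · exact e4 h2.symm
    · exact e5 h2.symm

/-- `k = k0`: the same branch -/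
theorem kk_eq {u v0 a b t0 t0' q0 q0' k0 k0' : V}
    (K0 : Khb G c u v0 a b t0 t0' q0 q0' k0 k0')
    {f v x y t t' q q' k k' : V} (K : Khb G c f v x y t t' q q' k k') (h : k = k0) :
    f = u ∨ f = v0 :=
  kk_near F K0 K (w := k0) (by simp [h]) (by simp)

/-- near bare vertex, new `k` -/
theorem kk_bare {u v0 a b t0 t0' q0 q0' k0 k0' : V}
    (K0 : Khb G c u v0 a b t0 t0' q0 q0' k0 k0')
    {f v x y t t' q q' k k' w : V} (K : Khb G c f v x y t t' q q' k k') (hl : LS G c H f x)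
    (cw : c w = false) (hb : Bare G c H u w)
    (h : w = f ∨ w = v ∨ w = x ∨ w = y ∨ w = t ∨ w = t' ∨ w = k ∨ G.Adj k w) :
    f = u ∨ f = v0 ∨ (G.Adj k w ∧ k ≠ k0) := by
  rcases near_bare F K hl cw (khb_fr F K0) hb h with h1 | h1 | h1
  · exact Or.inl h1
  · exact Or.inr (Or.inl (rm_uniq (F.mu1 u) h1 (sv_rm K0.hu)))
  · by_cases h2 : k = k0
    · exact (kk_eq F K0 K h2).imp id Or.inl
    · exact Or.inr (Or.inr ⟨h1, h2⟩)

/-- branches lost by `B3` -/
theorem lkK3 {u v0 a b t0 t0' q0 q0' k0 k0' g1 g2 t f k : V}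
    (K0 : Khb G c u v0 a b t0 t0' q0 q0' k0 k0') (c1 : c g1 = false) (c2 : c g2 = false)
    (b1 : Bare G c H u g1) (b2 : Bare G c H u g2) (h : Brn G c H t f k)
    (hn : ¬ GB G c (H ∪ {u, b, a, t0', t0, q0, k0, g1, g2}) t) :
    (f = u ∨ f = v0) ∨ (G.Adj k g1 ∧ k ≠ k0) ∨ (G.Adj k g2 ∧ k ≠ k0) := by
  obtain ⟨v, x, y, t', q, q', k', K, hl, hk⟩ := h
  obtain ⟨w, hw, h⟩ := brn_near F K hl hk hn
  simp only [Finset.mem_insert, Finset.mem_singleton] at hw
  have key : ∀ z, c z = false → Bare G c H u z → w = z → (f = u ∨ f = v0) ∨ (G.Adj k z ∧ k ≠ k0) := by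
    rintro z hz hb rfl
    rcases kk_bare F K0 K hl hz hb h with h1 | h1 | h1
    · exact Or.inl (Or.inl h1)
    · exact Or.inl (Or.inr h1)
    · exact Or.inr h1
  rcases hw with hw | hw | hw | hw | hw | hw | hw | hw | hw
  · exact Or.inl (kk_near F K0 K h (by simp [hw]))
  · exact Or.inl (kk_near F K0 K h (by simp [hw]))
  · exact Or.inl (kk_near F K0 K h (by simp [hw]))
  · exact Or.inl (kk_near F K0 K h (by simp [hw]))
  · exact Or.inl (kk_near F K0 K h (by simp [hw]))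
  · exact Or.inl (kk_near F K0 K h (by simp [hw]))
  · exact Or.inl (kk_near F K0 K h (by simp [hw]))
  · rcases key g1 c1 b1 hw with h1 | h1
    · exact Or.inl h1
    · exact Or.inr (Or.inl h1)
  · rcases key g2 c2 b2 hw with h1 | h1
    · exact Or.inl h1
    · exact Or.inr (Or.inr h1)

/-- branches lost by the house -/
theorem lkKH {u v0 a b t0 t0' q0 q0' k0 k0' g t f k : V}
    (K0 : Khb G c u v0 a b t0 t0' q0 q0' k0 k0') (cg : c g = false)
    (bg : Bare G c H u g) (h : Brn G c H t f k)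
    (hn : ¬ GB G c (H ∪ {u, b, a, t0', t0, q0, k0, g}) t) :
    (f = u ∨ f = v0) ∨ (G.Adj k g ∧ k ≠ k0) := by
  refine (lkK3 F K0 cg cg bg bg h (fun h1 => hn ?_)).imp id fun h1 => h1.elim id id
  have e : ({u, b, a, t0', t0, q0, k0, g, g} : Finset V) = {u, b, a, t0', t0, q0, k0, g} := by
    ext z
    simp
  rwa [e] at h1

/-- branches lost by `B4` -/
theorem lkK4 {u v0 a b t0 t0' q0 q0' k0 k0' g1 g2 h0 t f k : V}
    (K0 : Khb G c u v0 a b t0 t0' q0 q0' k0 k0') (c1 : c g1 = false) (s2 : tS G c g2)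
    (b1 : Bare G c H u g1) (kg : G.Adj k0 g2) (hh : Rm G c g2 h0) (h : Brn G c H t f k)
    (hn : ¬ GB G c (H ∪ {u, b, a, t0', t0, q0, k0, g1, g2, h0}) t) :
    (f = u ∨ f = v0) ∨ (G.Adj k g1 ∧ k ≠ k0) ∨ (G.Adj k g2 ∧ k ≠ k0) ∨ f = h0 ∨ G.Adj k h0 := by
  obtain ⟨v, x, y, t', q, q', k', K, hl, hk⟩ := h
  obtain ⟨w, hw, h⟩ := brn_near F K hl hk hn
  have ff := khb_fr F K
  have sh : tS G c h0 := ⟨by rw [hh.2, s2.1], mu_of_rm F.mu1 hh.symm⟩
  have nf2 : f ≠ g2 := by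
    rintro rfl
    exact fr_nQ F ff kg.symm (khb_tQk F K0)
  -- `g2` is `t` or `t'`
  have e1 : g2 = t → f = u ∨ f = v0 := by
    rintro rfl
    have h1 : k0 = q := by
      rcases (K.h1.n3.nb k0).1 kg.symm with h1 | h1 | h1
      · have h2 := khb_ck K0
        rw [h1, K.h1.cm] at h2
        cases h2
      · exact (tA_not_tQ K.ta (h1 ▸ khb_tQk F K0)).elim
      · exact h1
    have h2 : k = q0 := by
      have h3 : Rm G c k0 k := h1 ▸ K.q1
      exact rm_uniq (F.mu1 k0) h3 K0.q1.symm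
    exact kk_near F K0 K (w := q0) (by simp [h2]) (by simp)
  have e1' : g2 = t' → f = u ∨ f = v0 := by
    rintro rfl
    have h1 : k0 = q' := by
      rcases (K.h2.n3.nb k0).1 kg.symm with h1 | h1 | h1
      · have h2 := khb_ck K0
        rw [h1, K.h2.cm] at h2
        cases h2
      · exact (tA_not_tQ K.ta (h1 ▸ khb_tQk F K0)).elim
      · exact h1
    have h2 : k' = q0 := by
      have h3 : Rm G c k0 k' := h1 ▸ K.q2
      exact rm_uniq (F.mu1 k0) h3 K0.q1.symm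
    exact kk_near F K0 K.symm (w := q0) (by simp [h2]) (by simp)
  simp only [Finset.mem_insert, Finset.mem_singleton] at hw
  rcases hw with hw | hw | hw | hw | hw | hw | hw | hw | hw | hw
  · exact Or.inl (kk_near F K0 K h (by simp [hw]))
  · exact Or.inl (kk_near F K0 K h (by simp [hw]))
  · exact Or.inl (kk_near F K0 K h (by simp [hw]))
  · exact Or.inl (kk_near F K0 K h (by simp [hw]))
  · exact Or.inl (kk_near F K0 K h (by simp [hw]))
  · exact Or.inl (kk_near F K0 K h (by simp [hw]))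
  · exact Or.inl (kk_near F K0 K h (by simp [hw]))
  · subst hw
    rcases kk_bare F K0 K hl c1 b1 h with h1 | h1 | h1
    · exact Or.inl (Or.inl h1)
    · exact Or.inl (Or.inr h1)
    · exact Or.inr (Or.inl h1)
  · subst hw
    rcases near_S F K s2 hh h with h1 | h1 | h1 | h1 | h1
    · exact (nf2 h1).elim
    · exact Or.inr (Or.inr (Or.inr (Or.inl h1)))
    · have h2 : w = t := by
        rw [h1] at hh
        exact rm_uniq (F.mu1 t') hh.symm (khb_rtt K).symm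
      exact Or.inl (e1 h2)
    · have h2 : w = t' := by
        rw [h1] at hh
        exact rm_uniq (F.mu1 t) hh.symm (khb_rtt K)
      exact Or.inl (e1' h2)
    · by_cases h2 : k = k0
      · exact Or.inl (kk_eq F K0 K h2)
      · exact Or.inr (Or.inr (Or.inl ⟨h1, h2⟩))
  · subst hw
    rcases near_S F K sh hh.symm h with h1 | h1 | h1 | h1 | h1
    · exact Or.inr (Or.inr (Or.inr (Or.inl h1)))
    · exact (nf2 h1).elim
    · exact Or.inl (e1' h1)
    · exact Or.inl (e1 h1)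
    · exact Or.inr (Or.inr (Or.inr (Or.inr h1)))

/-! ### live vertices -/

/-- live vertices lost near the chosen branch -/
theorem kk_live {u v0 a b t0 t0' q0 q0' k0 k0' : V}
    (K0 : Khb G c u v0 a b t0 t0' q0 q0' k0 k0') {f w : V} (ff : f ∈ Fr G c)
    (h : w = f ∨ G.Adj f w)
    (hw : w = u ∨ w = b ∨ w = a ∨ w = t0' ∨ w = t0 ∨ w = q0 ∨ w = k0) : f = u ∨ f = v0 := by
  have fu := khb_fr F K0
  have hr := sv_rm K0.hu
  have ua : G.Adj u a := (K0.hu.n3.nb a).2 (by simp)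
  have ub : G.Adj u b := (K0.hu.n3.nb b).2 (by simp)
  have t01 := khb_t1 F K0
  have t01' := khb_t1 F K0.symm
  have cf := (mem_Fr.1 ff).1.1
  have n : ∀ z, c z = true → w = z → G.Adj f z := by
    rintro z hz rfl
    rcases h with h | h
    · rw [h, cf] at hz
      cases hz
    · exact h
  have n' : ∀ z, c z = false → w = z → f = z ∨ Rm G c z f := by
    rintro z hz rfl
    rcases h with h | h
    · exact Or.inl h.symm
    · exact Or.inr ⟨h.symm, by rw [cf, hz]⟩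
  have e2 : G.Adj f a → f = u ∨ f = v0 := by
    intro h1
    rcases (K0.ha.n3.nb f).1 h1.symm with h2 | h2 | h2
    · exact Or.inl h2
    · exact (fr_nT1 F ff (h2 ▸ t01)).elim
    · exact (fr_nT1 F ff (h2 ▸ t01')).elim
  rcases hw with hw | hw | hw | hw | hw | hw | hw
  · exact (n' u K0.hu.cs hw).imp id fun h1 => rm_uniq (F.mu1 u) h1 hr
  · have h1 := n b K0.hu.cb hw
    by_cases h2 : f = u
    · exact Or.inl h2
    by_cases h3 : Rm G c u f
    · exact Or.inr (rm_uniq (F.mu1 u) h3 hr)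
    · refine (kf_far F K0 ff (fun h => h2 h.symm) (fun h => h3 h.symm) K0.tb ub h1).elim
  · exact e2 (n a K0.ta.1 hw)
  · rcases n' t0' K0.h1.cm hw with h1 | h1
    · exact (fr_nT1 F ff (h1 ▸ t01')).elim
    · have h2 : f = t0 := rm_uniq (F.mu1 t0') h1 (khb_rtt K0).symm
      exact (fr_nT1 F ff (h2 ▸ t01)).elim
  · rcases n' t0 K0.h1.cs hw with h1 | h1
    · exact (fr_nT1 F ff (h1 ▸ t01)).elim
    · have h2 : f = t0' := rm_uniq (F.mu1 t0) h1 (khb_rtt K0)
      exact (fr_nT1 F ff (h2 ▸ t01')).elim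
  · exact (fr_nQ F ff (n q0 K0.h1.cb hw) (khb_tQ F K0)).elim
  · exact (fr_nQ F ff (n k0 (khb_ck K0) hw) (khb_tQk F K0)).elim

omit F in
theorem lost_near {K0 : Finset V} {f : V} (h : Live G c H f) (hn : ¬ Live G c (H ∪ K0) f) :
    ∃ w ∈ K0, w = f ∨ G.Adj f w := by
  have h1 : ¬ Clr G (H ∪ K0) f := fun h1 => hn ⟨h.1, h1⟩
  rcases not_clr' h.2 h1 with h2 | ⟨w, h2, h3⟩
  · exact ⟨f, h2, Or.inl rfl⟩
  · exact ⟨w, h3, Or.inr h2⟩

/-- a bare vertex and a live vertex -/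
theorem bare_live {u v0 f w : V} (hr : Rm G c u v0) (cw : c w = false) (hb : Bare G c H u w)
    (hf : Live G c H f) (h : w = f ∨ G.Adj f w) : f = u ∨ f = v0 := by
  obtain ⟨v, hv⟩ := exists_mate (mem_Fr.1 hf.1).1.2
  rcases h with h | h
  · rw [h] at hb
    rcases hb v hv with h1 | h1
    · right
      rw [h1] at hv
      exact rm_uniq (F.mu1 u) hv.symm hr
    · exact (hf.2.2 v hv.1 h1).elim
  · rcases hb f ⟨h.symm, by rw [(mem_Fr.1 hf.1).1.1, cw]⟩ with h1 | h1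
    · exact Or.inl h1
    · exact (hf.2.1 h1).elim

omit F in
theorem covL_two (u v : V) : Cov (fun f : V => f = u ∨ f = v) 2 := by
  classical
  exact ((Cov.one u).or (Cov.one v)).mono (fun _ h => h) le_rfl

omit F in
theorem covL_three (u v w : V) : Cov (fun f : V => (f = u ∨ f = v) ∨ f = w) 3 := by
  classical
  exact ((covL_two u v).or (Cov.one w)).mono (fun _ h => h) le_rfl

/-! ### counting -/

theorem cov_K3 {u v0 a b t0 t0' q0 q0' k0 k0' g1 g2 : V}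
    (K0 : Khb G c u v0 a b t0 t0' q0 q0' k0 k0') (hk : N3 G k0 q0 g1 g2) (c1 : c g1 = false)
    (c2 : c g2 = false) (b1 : Bare G c H u g1) (b2 : Bare G c H u g2) :
    Cov (fun t : V => GB G c H t ∧ ¬ GB G c (H ∪ {u, b, a, t0', t0, q0, k0, g1, g2}) t) 12 := by
  classical
  obtain ⟨m1, m2, h1⟩ := Pool.Agent.Helper96.MC.n3_of F.reg ((hk.nb g1).2 (by simp)).symm
  obtain ⟨m3, m4, h2⟩ := Pool.Agent.Helper96.MC.n3_of F.reg ((hk.nb g2).2 (by simp)).symm
  refine ((((covB_f (G := G) (c := c) H u).or (covB_f (G := G) (c := c) H v0)).or (covB_w F H h1)).or (covB_w F H h2)).mono ?_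
    (by norm_num)
  rintro t ⟨h3, h4⟩
  obtain ⟨f, k, h⟩ := gb_iff.1 h3
  rcases lkK3 F K0 c1 c2 b1 b2 h h4 with (h5 | h5) | h5 | h5
  · exact Or.inl (Or.inl (Or.inl ⟨k, h5 ▸ h⟩))
  · exact Or.inl (Or.inl (Or.inr ⟨k, h5 ▸ h⟩))
  · exact Or.inl (Or.inr ⟨f, k, h, h5.1, h5.2⟩)
  · exact Or.inr ⟨f, k, h, h5.1, h5.2⟩

theorem cov_KH {u v0 a b t0 t0' q0 q0' k0 k0' g : V}
    (K0 : Khb G c u v0 a b t0 t0' q0 q0' k0 k0') (hk : G.Adj k0 g) (cg : c g = false)
    (bg : Bare G c H u g) :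
    Cov (fun t : V => GB G c H t ∧ ¬ GB G c (H ∪ {u, b, a, t0', t0, q0, k0, g}) t) 15 := by
  classical
  obtain ⟨m1, m2, h1⟩ := Pool.Agent.Helper96.MC.n3_of F.reg hk.symm
  refine (((covB_f (G := G) (c := c) H u).or (covB_f (G := G) (c := c) H v0)).or (covB_w F H h1)).mono ?_ (by norm_num)
  rintro t ⟨h3, h4⟩
  obtain ⟨f, k, h⟩ := gb_iff.1 h3
  rcases lkKH F K0 cg bg h h4 with (h5 | h5) | h5
  · exact Or.inl (Or.inl ⟨k, h5 ▸ h⟩)
  · exact Or.inl (Or.inr ⟨k, h5 ▸ h⟩)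
  · exact Or.inr ⟨f, k, h, h5.1, h5.2⟩

theorem cov_K4 {u v0 a b t0 t0' q0 q0' k0 k0' g1 g2 h0 : V}
    (K0 : Khb G c u v0 a b t0 t0' q0 q0' k0 k0') (hk : N3 G k0 q0 g1 g2) (c1 : c g1 = false)
    (s2 : tS G c g2) (b1 : Bare G c H u g1) (hh : Rm G c g2 h0) :
    Cov (fun t : V => GB G c H t ∧
      ¬ GB G c (H ∪ {u, b, a, t0', t0, q0, k0, g1, g2, h0}) t) 15 := by
  classical
  have kg : G.Adj k0 g2 := (hk.nb g2).2 (by simp)
  have sh : tS G c h0 := ⟨by rw [hh.2, s2.1], mu_of_rm F.mu1 hh.symm⟩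
  obtain ⟨m1, m2, h1⟩ := Pool.Agent.Helper96.MC.n3_of F.reg ((hk.nb g1).2 (by simp)).symm
  have hne : h0 ≠ k0 := by
    rintro rfl
    have h3 := sh.1
    rw [khb_ck K0] at h3
    cases h3
  obtain ⟨m3, h2⟩ := Pool.Agent.Helper96.MC.n3_of2 F.reg hh.1 kg.symm hne
  obtain ⟨m5, m6, h3⟩ := Pool.Agent.Helper96.MC.n3_of F.reg hh.1.symm
  have ckf : ∀ {t f k : V}, Brn G c H t f k → c k = true := by
    rintro t f k ⟨v, x, y, t', q, q', k', K, _, _⟩
    exact khb_ck K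
  have cH : Cov (fun t : V => ∃ f k, Brn G c H t f k ∧ (f = h0 ∨ G.Adj k h0)) 4 := by
    by_cases hf : h0 ∈ Fr G c
    · refine (covB_f (G := G) (c := c) H h0).mono ?_ le_rfl
      rintro t ⟨f, k, h, h4 | h4⟩
      · exact ⟨k, h4 ▸ h⟩
      · obtain ⟨v, x, y, t', q, q', k', K, _, _⟩ := h
        exact (fr_nQ F hf h4.symm (khb_tQk F K)).elim
    · refine (covB_w F H h3).mono ?_ (by norm_num)
      rintro t ⟨f, k, h, h4 | h4⟩
      · obtain ⟨v, x, y, t', q, q', k', K, _, _⟩ := h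
        exact (hf (h4 ▸ khb_fr F K)).elim
      · refine ⟨f, k, h, h4, ?_⟩
        rintro rfl
        have h5 := ckf h
        rw [s2.1] at h5
        cases h5
  have c3 : Cov (fun t : V => ∃ f k, Brn G c H t f k ∧ G.Adj k g2 ∧ k ≠ k0) 1 := by
    refine (covB_k F H m3).mono ?_ le_rfl
    rintro t ⟨f, k, h, h4, h5⟩
    rcases (h2.nb k).1 h4.symm with h6 | h6 | h6
    · have h7 := ckf h
      rw [h6, sh.1] at h7
      cases h7
    · exact (h5 h6).elim
    · exact ⟨f, h6 ▸ h⟩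
  refine (((((covB_f (G := G) (c := c) H u).or (covB_f (G := G) (c := c) H v0)).or (covB_w F H h1)).or c3).or cH).mono ?_
    (by norm_num)
  rintro t ⟨h4, h5⟩
  obtain ⟨f, k, h⟩ := gb_iff.1 h4
  rcases lkK4 F K0 c1 s2 b1 kg hh h h5 with (h6 | h6) | h6 | h6 | h6 | h6
  · exact Or.inl (Or.inl (Or.inl (Or.inl ⟨k, h6 ▸ h⟩)))
  · exact Or.inl (Or.inl (Or.inl (Or.inr ⟨k, h6 ▸ h⟩)))
  · exact Or.inl (Or.inl (Or.inr ⟨f, k, h, h6.1, h6.2⟩))
  · exact Or.inl (Or.inr ⟨f, k, h, h6.1, h6.2⟩)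
  · exact Or.inr ⟨f, k, h, Or.inl h6⟩
  · exact Or.inr ⟨f, k, h, Or.inr h6⟩

/-- `U4` at the vertex `t0` of a branch: only the branches of its free vertex are lost -/
theorem cov_KV {u v0 a b t0 t0' q0 q0' k0 k0' : V}
    (K0 : Khb G c u v0 a b t0 t0' q0 q0' k0 k0') :
    Cov (fun t : V => GB G c H t ∧ ¬ GB G c (H ∪ {t0, a, q0, k0}) t) 4 := by
  classical
  refine (covB_f (G := G) (c := c) H u).mono ?_ le_rfl
  rintro t ⟨h4, h5⟩
  obtain ⟨f, k, h⟩ := gb_iff.1 h4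
  have ff : f ∈ Fr G c := by
    obtain ⟨v, x, y, t', q, q', k', K, _, _⟩ := h
    exact khb_fr F K
  rcases lkV F K0.h1 K0.ta (khb_tQ F K0) K0.q1 h h5 with h6 | h6
  · exact (fr_nT1 F ff (h6 ▸ khb_t1 F K0.symm)).elim
  · rcases (K0.ha.n3.nb f).1 h6.symm with h7 | h7 | h7
    · exact ⟨k, h7 ▸ h⟩
    · exact (fr_nT1 F ff (h7 ▸ khb_t1 F K0)).elim
    · exact (fr_nT1 F ff (h7 ▸ khb_t1 F K0.symm)).elim

/-! ### live vertices of the operations -/

theorem live_K3 {u v0 a b t0 t0' q0 q0' k0 k0' g1 g2 : V}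
    (K0 : Khb G c u v0 a b t0 t0' q0 q0' k0 k0') (c1 : c g1 = false) (c2 : c g2 = false)
    (b1 : Bare G c H u g1) (b2 : Bare G c H u g2) :
    Cov (fun f : V => Live G c H f ∧
      ¬ Live G c (H ∪ {u, b, a, t0', t0, q0, k0, g1, g2}) f) 2 := by
  refine (covL_two u v0).mono ?_ le_rfl
  rintro f ⟨h1, h2⟩
  obtain ⟨w, hw, h⟩ := lost_near h1 h2
  simp only [Finset.mem_insert, Finset.mem_singleton] at hw
  rcases hw with hw | hw | hw | hw | hw | hw | hw | hw | hw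
  · exact kk_live F K0 h1.1 h (by simp [hw])
  · exact kk_live F K0 h1.1 h (by simp [hw])
  · exact kk_live F K0 h1.1 h (by simp [hw])
  · exact kk_live F K0 h1.1 h (by simp [hw])
  · exact kk_live F K0 h1.1 h (by simp [hw])
  · exact kk_live F K0 h1.1 h (by simp [hw])
  · exact kk_live F K0 h1.1 h (by simp [hw])
  · subst hw
    exact bare_live F (sv_rm K0.hu) c1 b1 h1 h
  · subst hw
    exact bare_live F (sv_rm K0.hu) c2 b2 h1 h

theorem live_KH {u v0 a b t0 t0' q0 q0' k0 k0' g : V}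
    (K0 : Khb G c u v0 a b t0 t0' q0 q0' k0 k0') (cg : c g = false) (bg : Bare G c H u g) :
    Cov (fun f : V => Live G c H f ∧
      ¬ Live G c (H ∪ {u, b, a, t0', t0, q0, k0, g}) f) 3 := by
  have e : ({u, b, a, t0', t0, q0, k0, g, g} : Finset V) = {u, b, a, t0', t0, q0, k0, g} := by
    ext z
    simp
  have h := live_K3 F K0 cg cg bg bg
  rw [e] at h
  exact h.mono (fun _ h => h) (by norm_num)

theorem live_K4 {u v0 a b t0 t0' q0 q0' k0 k0' g1 g2 h0 : V}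
    (K0 : Khb G c u v0 a b t0 t0' q0 q0' k0 k0') (c1 : c g1 = false) (s2 : tS G c g2)
    (b1 : Bare G c H u g1) (kg : G.Adj k0 g2) (hh : Rm G c g2 h0) :
    Cov (fun f : V => Live G c H f ∧
      ¬ Live G c (H ∪ {u, b, a, t0', t0, q0, k0, g1, g2, h0}) f) 3 := by
  refine (covL_three u v0 h0).mono ?_ le_rfl
  rintro f ⟨h1, h2⟩
  have cf := (mem_Fr.1 h1.1).1.1
  have nf2 : f ≠ g2 := by
    rintro rfl
    exact fr_nQ F h1.1 kg.symm (khb_tQk F K0)
  obtain ⟨w, hw, h⟩ := lost_near h1 h2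
  simp only [Finset.mem_insert, Finset.mem_singleton] at hw
  rcases hw with hw | hw | hw | hw | hw | hw | hw | hw | hw | hw
  · exact Or.inl (kk_live F K0 h1.1 h (by simp [hw]))
  · exact Or.inl (kk_live F K0 h1.1 h (by simp [hw]))
  · exact Or.inl (kk_live F K0 h1.1 h (by simp [hw]))
  · exact Or.inl (kk_live F K0 h1.1 h (by simp [hw]))
  · exact Or.inl (kk_live F K0 h1.1 h (by simp [hw]))
  · exact Or.inl (kk_live F K0 h1.1 h (by simp [hw]))
  · exact Or.inl (kk_live F K0 h1.1 h (by simp [hw]))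
  · subst hw
    exact Or.inl (bare_live F (sv_rm K0.hu) c1 b1 h1 h)
  · subst hw
    rcases h with h | h
    · exact (nf2 h.symm).elim
    · exact Or.inr (rm_uniq (F.mu1 w) ⟨h.symm, by rw [cf, s2.1]⟩ hh)
  · subst hw
    rcases h with h | h
    · exact Or.inr h.symm
    · have h3 : Rm G c w f := ⟨h.symm, by rw [cf, hh.2, s2.1]⟩
      exact (nf2 (rm_uniq (F.mu1 w) h3 hh.symm)).elim

theorem live_KV {u v0 a b t0 t0' q0 q0' k0 k0' : V}
    (K0 : Khb G c u v0 a b t0 t0' q0 q0' k0 k0') :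
    Cov (fun f : V => Live G c H f ∧ ¬ Live G c (H ∪ {t0, a, q0, k0}) f) 2 := by
  refine (covL_two u v0).mono ?_ le_rfl
  rintro f ⟨h1, h2⟩
  obtain ⟨w, hw, h⟩ := lost_near h1 h2
  simp only [Finset.mem_insert, Finset.mem_singleton] at hw
  rcases hw with hw | hw | hw | hw
  · exact kk_live F K0 h1.1 h (by simp [hw])
  · exact kk_live F K0 h1.1 h (by simp [hw])
  · exact kk_live F K0 h1.1 h (by simp [hw])
  · exact kk_live F K0 h1.1 h (by simp [hw])

/-- no good slot -/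
theorem no_GSG (h1 : ¬ PN G c H) (h2 : ¬ Q5s G c L H) (h3 : ¬ Q5b G c H) {f x : V} :
    ¬ GSG G c L H f x := by
  intro hg
  have hg0 := hg
  obtain ⟨hl, h | ⟨t, ht, htf, ha, hb⟩ | ⟨g, hg1, hg2, hg3, hg4, _⟩⟩ := hg
  · exact h1 ⟨f, x, hl, h⟩
  · obtain ⟨r, hr⟩ := exists_mate (mem_T1.1 ha.1).1.2
    have rH : r ∉ H := ha.2.2 r hr.1
    by_cases hrf : r = f
    · refine h1 ⟨f, x, hl, fun w hw hne => ?_⟩
      by_cases hwt : w = t
      · subst hwt
        intro y hy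
        left
        rw [← hrf]
        exact rm_uniq (F.mu1 w) hy hr
      · exact hb w hw hne hwt
    · exact h3 ⟨f, x, t, r, ⟨hl, ht, htf, ha.1, hr, hrf, rH, hb⟩, ha⟩
  · obtain ⟨v, b, hs, tb⟩ := fr_svG F hl.fr hl.adj hl.ta
    obtain ⟨v2, za, zb, hq⟩ := sqg_of F hs hl.fr hg4.1 hg2.symm hg3 hg1 hl.ta
    exact h2 ⟨f, g, x, b, v, v2, za, zb, hq, hg0, hg4⟩

theorem lossG_of {m n : ℕ} (hG : ∀ f x, ¬ GSG G c L H f x)
    (h : Cov (fun t : V => GB G c H t ∧ ¬ GB G c H' t) m)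
    (hl : Cov (fun f : V => Live G c H f ∧ ¬ Live G c H' f) n) : LossG G c L H H' m n := by
  refine ⟨?_, cov_live hl⟩
  have e : goodG G c L H = ∅ := by
    rw [Finset.eq_empty_iff_forall_notMem]
    intro p hp
    exact hG p.1 p.2 (mem_goodG.1 hp)
  have h1 := cov_goodB h
  rw [e]
  simpa using h1

/-- a branch gives the data `KB` -/
theorem kb_of {u v0 a b t0 t0' q0 q0' k0 k0' : V}
    (K0 : Khb G c u v0 a b t0 t0' q0 q0' k0 k0') (hl : LS G c H u a) (hk : Clr G H k0) :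
    KB G c H u v0 a b t0 t0' q0 k0 :=
  ⟨K0.hu, K0.ha, K0.ta, K0.tb, K0.h1, K0.q1, hl.cf, hl.cx, hk⟩

/-- the second operation -/
theorem step_KV {H1 : Finset V} (hG : ∀ f x, ¬ GSG G c L H f x) (h24 : 24 ≤ (goodB G c H).card)
    (h : Cov (fun t : V => GB G c H t ∧ ¬ GB G c H1 t) 15)
    (hl : Cov (fun f : V => Live G c H f ∧ ¬ Live G c H1 f) 3) :
    ∃ H', OpV G c H1 H' ∧ LossG G c L H H' 24 5 := by
  classical
  have h1 := cov_goodB h
  have h2 : 0 < (goodB G c H1).card := by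
    have h3 : (goodB G c H).card ≤ (goodB G c H \ goodB G c H1).card + (goodB G c H1).card := by
      rw [← Finset.card_sdiff_add_card_inter (goodB G c H) (goodB G c H1)]
      have := Finset.card_le_card (Finset.inter_subset_right (s₁ := goodB G c H)
        (s₂ := goodB G c H1))
      omega
    omega
  obtain ⟨t, ht⟩ := Finset.card_pos.1 h2
  obtain ⟨u, v, a, b, t', q, q', k, k', K, hls, hk⟩ := mem_goodB.1 ht
  have hq : q ∉ H1 := hk.2 q K.q1.symm.1
  refine ⟨H1 ∪ {t, a, q, k}, ⟨t, t', a, q, k, K.h1, K.ta, khb_tQ F K, K.q1, ⟨?_, ?_⟩, hk.1, rfl⟩,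
    lossG_of F hG ?_ ?_⟩
  · exact hls.cx.2 t ((K.ha.n3.nb t).2 (by simp))
  · intro w hw
    rcases (K.h1.n3.nb w).1 hw with h3 | h3 | h3
    · rw [h3]
      exact hls.cx.2 t' ((K.ha.n3.nb t').2 (by simp))
    · rw [h3]
      exact hls.cx.1
    · rw [h3]
      exact hq
  · exact (covB_comp h (cov_KV F K)).mono (fun _ h => h) (by norm_num)
  · exact (cov_comp_live hl (live_KV F K)).mono (fun _ h => h) (by norm_num)

end facts

/-- row G_C5c -/
theorem st_GC5c : ST_GC5c := by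
  intro V _ _ G _ c j L H F hI hPN _ _ _ h24 h5s _ h5b
  classical
  have hG : ∀ f x, ¬ GSG G c L H f x := fun f x => no_GSG F hPN h5s h5b
  have e : goodG G c L H = ∅ := by
    rw [Finset.eq_empty_iff_forall_notMem]
    intro p hp
    exact hG p.1 p.2 (mem_goodG.1 hp)
  have hB : 24 ≤ (goodB G c H).card := by
    unfold Lam2 at h24
    rw [e] at h24
    simpa using h24
  obtain ⟨t, ht⟩ := Finset.card_pos.1 (lt_of_lt_of_le (by norm_num : 0 < 24) hB)
  obtain ⟨u, v, a, b, t', q, q', k, k', K, hls, hk⟩ := mem_goodB.1 ht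
  have hKB := kb_of F K hls hk
  obtain ⟨g1, g2, hn⟩ := Pool.Agent.Helper96.MC.n3_of F.reg K.q1.symm.1
  have cg : ∀ g, G.Adj k g → g ≠ q → c g = false := by
    intro g hg hne
    cases h : c g
    · rfl
    · exact absurd (rm_uniq (F.mu1 k) ⟨hg, by rw [h, khb_ck K]⟩ K.q1.symm) hne
  -- the case of a vertex which is not bare
  have key : ∀ g1 g2, N3 G k q g1 g2 → ¬ Bare G c H u g2 →
      ∃ H1 H', (OpK4 G c H H1 ∨ OpKH G c H H1) ∧ OpV G c H1 H' ∧ LossG G c L H H' 24 5 := by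
    intro g1 g2 hn hb
    obtain ⟨h, hh, hu, hH⟩ := not_bare hb
    have c1 := cg g1 ((hn.nb g1).2 (by simp)) hn.xy.symm
    have c2 := cg g2 ((hn.nb g2).2 (by simp)) hn.xz.symm
    have s2 : tS G c g2 := ⟨c2, mu_of_rm F.mu1 hh⟩
    have hz := F.g3' _ _ _ _ _ _ _ _ _ _ g2 g1 K (Pool.Agent.Helper96.MC.n3_23 hn) s2
    have b1 : Bare G c H u g1 := fun y hy => (nomate hz.2 y hy).elim
    by_cases ht' : g2 = t'
    · subst ht'
      obtain ⟨H', h1, h2⟩ := step_KV F hG hB (cov_KH F K ((hn.nb g1).2 (by simp)) c1 b1)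
        (live_KH F K c1 b1)
      exact ⟨_, H', Or.inr ⟨u, v, a, b, t, g2, q, k, g1, hKB,
        Pool.Agent.Helper96.MC.n3_23 hn, b1, rfl⟩, h1, h2⟩
    · obtain ⟨H', h1, h2⟩ := step_KV F hG hB (cov_K4 F K hn c1 s2 b1 hh)
        (live_K4 F K c1 s2 b1 ((hn.nb g2).2 (by simp)) hh)
      exact ⟨_, H', Or.inl ⟨u, v, a, b, t, t', q, k, g1, g2, h, hKB, hn, b1, ht', hh, hu, hH,
        rfl⟩, h1, h2⟩
  by_cases b2 : Bare G c H u g2
  · by_cases b1 : Bare G c H u g1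
    · left
      have c1 := cg g1 ((hn.nb g1).2 (by simp)) hn.xy.symm
      have c2 := cg g2 ((hn.nb g2).2 (by simp)) hn.xz.symm
      refine ⟨_, ⟨u, v, a, b, t, t', q, k, g1, g2, hKB, hn, b1, b2, rfl⟩,
        lossG_of F hG ?_ (live_K3 F K c1 c2 b1 b2)⟩
      exact (cov_K3 F K hn c1 c2 b1 b2).mono (fun _ h => h) (by norm_num)
    · exact Or.inr (key g2 g1 (Pool.Agent.Helper96.MC.n3_23 hn) b1)
  · exact Or.inr (key g1 g2 hn b2)

end Pool.Agent.Helper6.MC
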