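import Pool.Agent.Helper6.MC.SeqOps
import Pool.Agent.Helper33.MC.St

/-!
MP_4042d8_co, row D_SEQ: runs give final colourings.
-/

set_option autoImplicit false
set_option linter.unusedSectionVars false
set_option linter.unusedSimpArgs false
set_option linter.unusedVariables false

namespace Pool.Agent.Helper6.MC

open Pool.Agent.Helper27.MC Pool.Agent.Helper51.MC Pool.Agent.Helper88.MC Pool.Agent.Helper64.MC
open Pool.Agent.Helper33.MC (Clr OpU OpN OpM OpV Run)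

section

variable {V : Type} [Fintype V] [DecidableEq V] {G : SimpleGraph V} [DecidableRel G.Adj]
variable {c c' : V → Bool} {H H' : Finset V} {e : ℤ} {Lp Ln : List Sh}

/-- slots from the data of `u` and `a` -/
theorem slot_of {u v a b x y : V} (h : Sv G c u v a b) (h' : Av G c a u x y) (ha : tA G c a)
    (hb : tA G c b) : Slot G c u v a b x y :=
  ⟨h.cs, h.cm, h.ca, h.cb, ha.2, hb.2, h.n3.yz, h.n3.nb, h'.n3.nb, h'.n3.yz, h'.n3.xy.symm,
    h'.n3.xz.symm⟩

theorem clr_cn1 {s : V} (h : Clr G H s) : ∀ v ∈ cn G {s}, v ∉ H := by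
  intro v hv
  rw [mem_cn] at hv
  rcases hv with hv | ⟨z, hz, hv⟩
  · rw [Finset.mem_singleton] at hv
    rw [hv]
    exact h.1
  · rw [Finset.mem_singleton] at hz
    rw [hz] at hv
    exact h.2 v hv.symm

theorem clr_cn2 {u a : V} (h : Clr G H u) (h' : Clr G H a) : ∀ v ∈ cn G {u, a}, v ∉ H := by
  intro v hv
  rw [mem_cn] at hv
  rcases hv with hv | ⟨z, hz, hv⟩
  · rw [Finset.mem_insert, Finset.mem_singleton] at hv
    rcases hv with rfl | rfl
    · exact h.1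
    · exact h'.1
  · rw [Finset.mem_insert, Finset.mem_singleton] at hz
    rcases hz with rfl | rfl
    · exact h.2 v hv.symm
    · exact h'.2 v hv.symm

theorem bare_of {u x : V} (h : Pool.Agent.Helper33.MC.Bare G c H u x) : Bare G c H u x :=
  fun w hw => (h w hw).symm

theorem seqU (S : Sq G c c' H e Lp Ln) (h : OpU G c H H') :
    ∃ c'', Sq G c c'' H' (e - 1) (.p3 :: Lp) Ln := by
  obtain ⟨s, m, a, b, hs, ha, hb, hl, rfl⟩ := h
  have h := S.opU3 hs ha.2 hb.2 (clr_cn1 hl)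
  have e1 : ({a, s, b} : Finset V) = {s, a, b} := by
    ext v
    simp only [Finset.mem_insert, Finset.mem_singleton]
    tauto
  rw [e1] at h
  exact ⟨_, h⟩

theorem seqN (S : Sq G c c' H e Lp Ln) (h : OpN G c H H') :
    ∃ c'', Sq G c c'' H' e Lp (.p3 :: Ln) := by
  obtain ⟨u, v, a, b, x, y, hs, hs', ha, hb, hu, hl, hx, hy, rfl⟩ := h
  exact ⟨_, S.opN (slot_of hs hs' ha hb) (clr_cn2 hu hl) (bare_of hx) (bare_of hy)⟩

theorem seqM (S : Sq G c c' H e Lp Ln) (h : OpM G c H H') :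
    ∃ c'', Sq G c c'' H' e Lp (.p4 :: Ln) := by
  obtain ⟨u, v, a, b, x, t, r, hs, hs', ha, hb, hu, hl, hx, hr, hru, hrH, rfl⟩ := h
  exact ⟨_, S.opM (slot_of hs hs' ha hb) (clr_cn2 hu hl) (bare_of hx) hr hru hrH⟩

theorem seqV (S : Sq G c c' H e Lp Ln) (h : OpV G c H H') :
    ∃ c'', Sq G c c'' H' (e - 1) (.p4 :: Lp) Ln := by
  obtain ⟨t, r, a, q, q', hs, ha, hq, hq', hl, hqH, rfl⟩ := h
  have h := S.opU4 hs ha.2 hq' (clr_cn1 hl)
  have e1 : ({a, t, q, q'} : Finset V) = {t, a, q, q'} := by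
    ext v
    simp only [Finset.mem_insert, Finset.mem_singleton]
    tauto
  rw [e1] at h
  exact ⟨_, h⟩

/-- runs give states -/
theorem run_sq (hm : ∀ v, mu G c v ≤ 1) {j : ℤ} (hi : imb c = 2 * j) {i k : ℕ}
    (h : Run G c i k H) : ∃ c', Sq G c c' H (j - i + k) [] (List.replicate k .p3) := by
  induction h with
  | start => exact ⟨c, Sq.start hm (by rw [hi]; push_cast; ring)⟩
  | @n i k H H' h hN ih =>
    obtain ⟨c1, S⟩ := ih
    obtain ⟨c2, S⟩ := seqN S hN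
    refine ⟨c2, ?_⟩
    have e1 : (j - ((i + 1 : ℕ) : ℤ) + ((k + 1 : ℕ) : ℤ)) = j - i + k := by push_cast; ring
    rw [e1, List.replicate_succ]
    exact S
  | @un i k H H1 H' h hU hN ih =>
    obtain ⟨c1, S⟩ := ih
    obtain ⟨c2, S⟩ := seqU S hU
    obtain ⟨c3, S⟩ := seqN S hN
    refine ⟨c3, ?_⟩
    have e1 : (j - ((i + 1 : ℕ) : ℤ) + (k : ℤ)) = j - i + k - 1 := by push_cast; ring
    rw [e1]
    exact S.mtch
  | @mv i k H H1 H' h hM hV ih =>
    obtain ⟨c1, S⟩ := ih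
    obtain ⟨c2, S⟩ := seqM S hM
    obtain ⟨c3, S⟩ := seqV S hV
    refine ⟨c3, ?_⟩
    have e1 : (j - ((i + 1 : ℕ) : ℤ) + (k : ℤ)) = j - i + k - 1 := by push_cast; ring
    rw [e1]
    exact S.mtch
  | @u i k H H' h hU ih =>
    obtain ⟨c1, S⟩ := ih
    obtain ⟨c2, S⟩ := seqU S hU
    refine ⟨c2, ?_⟩
    have e1 : (j - (i : ℤ) + (k : ℤ)) = j - i + ((k + 1 : ℕ) : ℤ) - 1 := by push_cast; ring
    rw [List.replicate_succ] at S
    rw [e1]
    exact S.mtch

end

/-- row D_SEQ -/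
theorem DSEQ : Pool.Agent.Helper33.MC.ST_DSEQ := by
  intro V _ _ G _ hG c j hm hi H h
  obtain ⟨c', S⟩ := run_sq hm hi h
  have S' : Sq G c c' H 0 [] [] := by simpa using S
  exact ⟨c', S'.fin⟩

end Pool.Agent.Helper6.MC
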