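import Pool.Agent.Helper6.MC.SeqB
import Pool.Agent.Helper6.MC.DSeq
import Pool.Agent.Helper6.MC.OpK

/-!
MP_4042d8_co, section D part II: the runs with the operations `B3`, `B4` and the house give final
colourings.
-/

set_option autoImplicit false
set_option linter.unusedSectionVars false
set_option linter.unusedSimpArgs false
set_option linter.unusedVariables false

namespace Pool.Agent.Helper6.MC

open Pool.Agent.Helper27.MC Pool.Agent.Helper51.MC Pool.Agent.Helper88.MC Pool.Agent.Helper64.MC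
open Pool.Agent.Helper33.MC (Clr OpU OpN OpM OpV Run)

section

variable {V : Type} [Fintype V] [DecidableEq V] {G : SimpleGraph V} [DecidableRel G.Adj]
variable {c c' : V → Bool} {H H' : Finset V} {e : ℤ} {Lp Ln : List Sh}

/-- the house: `P4` of colour `false` formed by `a y k g` -/
theorem Sq.opBH {u m a b t t' q k y g : V} (S : Sq G c c' H e Lp Ln)
    (B : B10 G c u m a b t t' q k y y g) (hl : ∀ v ∈ cn G {u, a, t, k}, v ∉ H)
    (hy : ∀ w, Rm G c y w → w ∈ H ∨ w = u ∨ w = t)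
    (h2 : ∀ w, Rm G c g w → w ∈ H ∨ w = u ∨ w = t) :
    Sq G c (flp c' {u, a, t, k}) (H ∪ {u, b, a, y, t, q, k, g}) e Lp (.p4 :: Ln) := by
  obtain ⟨B', nu, nb, na, ny, nt, nq, nk, _, ng⟩ := S.b10 B hl
  have res : ∀ {v : V}, v ∉ H → (∀ w, Rm G c v w → w ∈ H ∨ w = u ∨ w = t) →
      ∀ w, Rm G c' v w → w = u ∨ w = t := by
    intro v hv h w hw
    obtain ⟨a1, a2⟩ := (S.rm hv w).1 hw
    rcases h w a1 with h3 | h3
    · exact absurd h3 a2
    · exact h3
  have ay : G.Adj a y := (B.na.nb y).2 (by simp)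
  have ky : G.Adj k y := (B.nk.nb y).2 (by simp)
  have Ry : ∀ w, Rm G (flp c' {u, a, t, k}) y w ↔ w = a ∨ w = k := by
    intro w
    rw [B'.rf B'.cy B'.na.xz.symm B'.na.yz.symm]
    have := res ny hy w
    constructor
    · rintro (h | h | h)
      · rcases this h.1 with h3 | h3
        · exact absurd h3 h.2.1
        · exact absurd h3 h.2.2
      · exact Or.inl h.1
      · exact Or.inr h.1
    · rintro (h | h)
      · exact Or.inr (Or.inl ⟨h, ay⟩)
      · exact Or.inr (Or.inr ⟨h, ky⟩)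
  have Rg : ∀ w, Rm G (flp c' {u, a, t, k}) g w ↔ w = k := by
    intro w
    rw [B'.swap.rg B.nk.yz]
    have := res ng h2 w
    tauto
  have E : Ext G c c' H {u, a, t, k} {u, b, a, y, t, q, k, g} := by
    refine ⟨?_, ?_, fun z hz v hv => hl v (mem_cn.2 (Or.inr ⟨z, hz, hv.symm⟩)), ?_, ?_⟩
    · intro v hv
      simp only [Finset.mem_insert, Finset.mem_singleton] at hv ⊢
      tauto
    · intro v hv
      simp only [Finset.mem_insert, Finset.mem_singleton] at hv
      rcases hv with rfl | rfl | rfl | rfl | rfl | rfl | rfl | rfl <;> assumption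
    · intro v hv w hw
      simp only [Finset.mem_insert, Finset.mem_singleton] at hv ⊢
      rcases hv with rfl | rfl | rfl | rfl | rfl | rfl | rfl | rfl
      · have := (B'.ru w).1 hw; tauto
      · have := (B'.rb w).1 hw; tauto
      · have := (B'.ra w).1 hw; tauto
      · have := (Ry w).1 hw; tauto
      · have := (B'.rt0 w).1 hw; tauto
      · have := (B'.rq0 w).1 hw; tauto
      · have := (B'.rk w).1 hw; tauto
      · have := (Rg w).1 hw; tauto
    · intro v w hv cv hw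
      have hq : ∀ w, Rm G c k w → w = q := fun w h => rm_uniq (S.one k) h B.qk.symm
      simp only [Finset.mem_insert, Finset.mem_singleton] at hv ⊢
      rcases hv with rfl | rfl | rfl | rfl | rfl | rfl | rfl | rfl
      · rw [B.cu] at cv; cases cv
      · exact absurd hw (mu_zero B.mb w)
      · exact absurd hw (mu_zero B.ma w)
      · rw [B.cy] at cv; cases cv
      · rw [B.ct] at cv; cases cv
      · have := (B.rq w).1 hw; tauto
      · have := hq w hw; tauto
      · rw [B.cg2] at cv; cases cv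
  have ca' : flp c' {u, a, t, k} a = false := by
    have h1 : flp c' {u, a, t, k} y = false := B'.cg1'
    have h3 := ((Ry a).2 (Or.inl rfl)).2
    rw [h3, h1]
  have hst := S.stepN E B'.dd0 .p4 (g := ![a, y, k, g])
    (comp4 B.ka.symm B.nk.yz ca' B'.ra Ry B'.rk Rg) ?_ ?_
  · rw [sub_zero] at hst
    exact hst
  · intro i
    fin_cases i <;> simp [Sh.k]
  · intro v hv h3
    have h0 : v ≠ a := h3 (0 : Fin 4)
    have h1 : v ≠ y := h3 (1 : Fin 4)
    have h2 : v ≠ k := h3 (2 : Fin 4)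
    have h4 : v ≠ g := h3 (3 : Fin 4)
    simp only [Finset.mem_insert, Finset.mem_singleton] at hv
    rcases hv with rfl | rfl | rfl | rfl | rfl | rfl | rfl | rfl
    · exact mu_le_one fun w hw => (B'.ru w).1 hw
    · exact mu_le_one fun w hw => (B'.rb w).1 hw
    · exact absurd rfl h0
    · exact absurd rfl h1
    · exact mu_le_one fun w hw => (B'.rt0 w).1 hw
    · exact mu_le_one fun w hw => (B'.rq0 w).1 hw
    · exact absurd rfl h2
    · exact absurd rfl h4

/-- from the data of a branch to the local picture -/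
theorem KB.b10 (hm : ∀ v, mu G c v ≤ 1) {u v a b t t' q k g1 g2 : V}
    (K : KB G c H u v a b t t' q k) (hk : N3 G k q g1 g2) :
    B10 G c u v a b t t' q k t' g1 g2 ∧ (∀ x ∈ cn G {u, a, t, k}, x ∉ H) ∧
      (∀ w, Rm G c t' w → w = t) := by
  have rtt' : Rm G c t t' := ⟨(K.st.n3.nb t').2 (by simp), by rw [K.st.cm, K.st.cs]⟩
  have ruv : Rm G c u v := ⟨(K.su.n3.nb v).2 (by simp), by rw [K.su.cm, K.su.cs]⟩
  have ck : c k = true := by rw [K.qk.2, K.st.cb]
  have fk : ∀ g, G.Adj k g → g ≠ q → c g = false := by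
    intro g hg hne
    cases h : c g
    · rfl
    · exact absurd (rm_uniq (hm k) ⟨hg, by rw [h, ck]⟩ K.qk.symm) hne
  have nu : ∀ w, G.Adj u w → w ∉ H := K.lu.2
  have na : ∀ w, G.Adj a w → w ∉ H := K.la.2
  have nk : ∀ w, G.Adj k w → w ∉ H := K.lk.2
  have t0 : t ∉ H := na t ((K.av.n3.nb t).2 (by simp))
  have t0' : t' ∉ H := na t' ((K.av.n3.nb t').2 (by simp))
  have q0 : q ∉ H := nk q K.qk.symm.1
  refine ⟨⟨K.su.cs, K.su.cm, K.su.ca, K.su.cb, K.st.cs, K.st.cm, K.st.cb, ck, K.st.cm, ?_, ?_,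
    K.su.n3, K.av.n3, K.st.n3, hk, K.tb.2, ?_, ?_⟩, ?_, ?_⟩
  · exact fk g1 ((hk.nb g1).2 (by simp)) hk.xy.symm
  · exact fk g2 ((hk.nb g2).2 (by simp)) hk.xz.symm
  · intro w
    exact ⟨fun h => rm_uniq (hm q) h K.qk, fun h => h ▸ K.qk⟩
  · rintro rfl
    exact K.av.n3.xz (rm_uniq (hm t) ruv.symm rtt')
  · intro x hx
    rw [mem_cn] at hx
    simp only [Finset.mem_insert, Finset.mem_singleton] at hx
    rcases hx with (rfl | rfl | rfl | rfl) | ⟨z, (rfl | rfl | rfl | rfl), h⟩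
    · exact K.lu.1
    · exact K.la.1
    · exact t0
    · exact K.lk.1
    · exact nu x h.symm
    · exact na x h.symm
    · rcases (K.st.n3.nb x).1 h.symm with h1 | h1 | h1
      · rw [h1]
        exact t0'
      · rw [h1]
        exact K.la.1
      · rw [h1]
        exact q0
    · exact nk x h.symm
  · intro w hw
    exact rm_uniq (hm t') hw rtt'.symm

theorem KB.ne {u v a b t t' q k g : V} (K : KB G c H u v a b t t' q k)
    (h : Pool.Agent.Helper33.MC.Bare G c H u g) : t' ≠ g := by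
  rintro rfl
  have rtt' : Rm G c t t' := ⟨(K.st.n3.nb t').2 (by simp), by rw [K.st.cm, K.st.cs]⟩
  rcases h t rtt'.symm with h1 | h1
  · exact K.av.n3.xy h1.symm
  · exact K.la.2 t ((K.av.n3.nb t).2 (by simp)) h1

theorem bare_or {u g : V} (h : Pool.Agent.Helper33.MC.Bare G c H u g) {t : V} :
    ∀ w, Rm G c g w → w ∈ H ∨ w = u ∨ w = t := by
  intro w hw
  rcases h w hw with h1 | h1
  · exact Or.inr (Or.inl h1)
  · exact Or.inl h1

theorem seqK3 (S : Sq G c c' H e Lp Ln) (h : OpK3 G c H H') :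
    ∃ c'', Sq G c c'' H' e Lp (.p3 :: Ln) := by
  obtain ⟨u, v, a, b, t, t', q, k, g1, g2, K, hk, h1, h2, rfl⟩ := h
  obtain ⟨B, hl, hy⟩ := K.b10 S.one hk
  have h := S.opB3 B hl (K.ne h1) (K.ne h2) (fun w hw => Or.inr (Or.inr (hy w hw))) (bare_or h1)
    (bare_or h2)
  have e1 : ({u, b, a, t', t, q, g1, k, g2} : Finset V) = {u, b, a, t', t, q, k, g1, g2} := by
    ext v
    simp only [Finset.mem_insert, Finset.mem_singleton]
    tauto
  rw [e1] at h
  exact ⟨_, h⟩

theorem seqK4 (S : Sq G c c' H e Lp Ln) (h : OpK4 G c H H') :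
    ∃ c'', Sq G c c'' H' e Lp (.p4 :: Ln) := by
  obtain ⟨u, v, a, b, t, t', q, k, g1, g2, h, K, hk, h1, h2, hr, hu, hH, rfl⟩ := h
  obtain ⟨B, hl, hy⟩ := K.b10 S.one hk
  have rtt' : Rm G c t t' := ⟨(K.st.n3.nb t').2 (by simp), by rw [K.st.cm, K.st.cs]⟩
  have hht : h ≠ t := by
    rintro rfl
    exact h2 (rm_uniq (S.one h) hr.symm rtt')
  have h3 := S.opB4 B hl (K.ne h1) h2.symm (fun w hw => Or.inr (Or.inr (hy w hw))) (bare_or h1)
    hr hH hu hht
  have e1 : ({u, b, a, t', t, q, g1, k, g2, h} : Finset V) = {u, b, a, t', t, q, k, g1, g2, h} := by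
    ext v
    simp only [Finset.mem_insert, Finset.mem_singleton]
    tauto
  rw [e1] at h3
  exact ⟨_, h3⟩

theorem seqKH (S : Sq G c c' H e Lp Ln) (h : OpKH G c H H') :
    ∃ c'', Sq G c c'' H' e Lp (.p4 :: Ln) := by
  obtain ⟨u, v, a, b, t, t', q, k, g, K, hk, h1, rfl⟩ := h
  obtain ⟨B, hl, hy⟩ := K.b10 S.one hk
  exact ⟨_, S.opBH B hl (fun w hw => Or.inr (Or.inr (hy w hw))) (bare_or h1)⟩

/-- runs give states -/
theorem rung_sq (hm : ∀ v, mu G c v ≤ 1) {j : ℤ} (hi : imb c = 2 * j) {i k : ℕ}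
    (h : RunG G c i k H) : ∃ c', Sq G c c' H (j - i + k) [] (List.replicate k .p3) := by
  induction h with
  | start => exact ⟨c, Sq.start hm (by rw [hi]; push_cast; ring)⟩
  | @n i k H H' h hN ih =>
    obtain ⟨c1, S⟩ := ih
    have : ∃ c2, Sq G c c2 H' (j - i + k) [] (.p3 :: List.replicate k .p3) := by
      rcases hN with hN | hN
      · exact seqN S hN
      · exact seqK3 S hN
    obtain ⟨c2, S⟩ := this
    refine ⟨c2, ?_⟩
    have e1 : (j - ((i + 1 : ℕ) : ℤ) + ((k + 1 : ℕ) : ℤ)) = j - i + k := by push_cast; ring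
    rw [e1, List.replicate_succ]
    exact S
  | @un i k H H1 H' h hU hN ih =>
    obtain ⟨c1, S⟩ := ih
    obtain ⟨c2, S⟩ := seqU S hU
    obtain ⟨c3, S⟩ := seqN S hN
    refine ⟨c3, ?_⟩
    have e1 : (j - ((i + 1 : ℕ) : ℤ) + (k : ℤ)) = j - i + k - 1 := by push_cast; ring
    rw [e1]
    exact S.mtch
  | @mv i k H H1 H' h hM hV ih =>
    obtain ⟨c1, S⟩ := ih
    have : ∃ c2, Sq G c c2 H1 (j - i + k) [] (.p4 :: List.replicate k .p3) := by
      rcases hM with hM | hM | hM
      · exact seqM S hM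
      · exact seqK4 S hM
      · exact seqKH S hM
    obtain ⟨c2, S⟩ := this
    obtain ⟨c3, S⟩ := seqV S hV
    refine ⟨c3, ?_⟩
    have e1 : (j - ((i + 1 : ℕ) : ℤ) + (k : ℤ)) = j - i + k - 1 := by push_cast; ring
    rw [e1]
    exact S.mtch
  | @u i k H H' h hU ih =>
    obtain ⟨c1, S⟩ := ih
    obtain ⟨c2, S⟩ := seqU S hU
    refine ⟨c2, ?_⟩
    have e1 : (j - (i : ℤ) + (k : ℤ)) = j - i + ((k + 1 : ℕ) : ℤ) - 1 := by push_cast; ring
    rw [List.replicate_succ] at S
    rw [e1]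
    exact S.mtch

end

/-- row D_SEQ for part II -/
theorem SEQG : ST_SEQG := by
  intro V _ _ G _ hG c j hm hi H h
  obtain ⟨c', S⟩ := rung_sq hm hi h
  have S' : Sq G c c' H 0 [] [] := by simpa using S
  exact ⟨c', S'.fin⟩

end Pool.Agent.Helper6.MC
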