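import Pool.Agent.Helper6.MC.SelCore
import Pool.Agent.Helper51.MC.NB
import Pool.Agent.Helper78.MC.K2

/-!
MP_4042d8_co, row SEL: the selection of the operations for `2 ≤ j`, girth at least 5.
-/

namespace Pool.Agent.Helper6.MC

open Pool.Agent.Helper27.MC Pool.Agent.Helper91.MC

set_option autoImplicit false
set_option linter.unusedSectionVars false

section

variable {V : Type} [Fintype V] [DecidableEq V] {G : SimpleGraph V} [DecidableRel G.Adj]
  {c : V → Bool}

/-- a territory of a nonempty set is nonempty -/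
theorem ter_ne {X : Finset V} (x : V) (hx : x ∈ X) : (ter G c X).Nonempty := by
  refine ⟨x, ?_⟩
  unfold ter
  rw [Finset.mem_filter]
  refine ⟨Finset.mem_univ _, Or.inl ?_⟩
  unfold cn
  rw [Finset.mem_filter]
  exact ⟨Finset.mem_univ _, Or.inl hx⟩

/-- a free vertex has two slots -/
theorem fr_two (hG : G.IsRegularOfDegree 3) {u : V} (hu : Fr G c u) :
    ∃ a b : V, a ≠ b ∧ IsSl G c u a ∧ IsSl G c u b := by
  obtain ⟨m, a, b, h1, h2, h3, h4, h5, h6, h7⟩ :=
    (Pool.Agent.Helper51.MC.NB V G hG c u).1 hu.1.2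
  have ea : c a = true := by rw [h6, hu.1.1]; rfl
  have eb : c b = true := by rw [h7, hu.1.1]; rfl
  have ha : G.Adj u a := (h4 a).2 (Or.inr (Or.inl rfl))
  have hb : G.Adj u b := (h4 b).2 (Or.inr (Or.inr rfl))
  exact ⟨a, b, h3, ⟨hu, hu.2 a ha ea, ha⟩, ⟨hu, hu.2 b hb eb, hb⟩⟩

/-- the number of slots -/
theorem two_fr_le (hG : G.IsRegularOfDegree 3) :
    2 * (Finset.univ.filter (fun v => Fr G c v)).card ≤
      (Finset.univ.filter (fun p : V × V => IsSl G c p.1 p.2)).card := by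
  rw [Finset.card_eq_sum_card_fiberwise (f := Prod.fst)
    (s := Finset.univ.filter (fun p : V × V => IsSl G c p.1 p.2))
    (t := Finset.univ.filter (fun v => Fr G c v))
    (fun p hp => Finset.mem_coe.2 (Finset.mem_filter.2 ⟨Finset.mem_univ _,
      ((Finset.mem_filter.1 (Finset.mem_coe.1 hp)).2).1⟩))]
  rw [Nat.mul_comm, ← smul_eq_mul]
  refine Finset.card_nsmul_le_sum _ _ _ (fun u hu => ?_)
  obtain ⟨a, b, hab, ha, hb⟩ := fr_two hG (Finset.mem_filter.1 hu).2
  have hsub : ({(u, a), (u, b)} : Finset (V × V)) ⊆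
      (Finset.univ.filter (fun p : V × V => IsSl G c p.1 p.2)).filter (fun p => p.1 = u) := by
    intro p hp
    rw [Finset.mem_insert, Finset.mem_singleton] at hp
    rw [Finset.mem_filter, Finset.mem_filter]
    rcases hp with rfl | rfl
    · exact ⟨⟨Finset.mem_univ _, ha⟩, rfl⟩
    · exact ⟨⟨Finset.mem_univ _, hb⟩, rfl⟩
  have h := Finset.card_le_card hsub
  rw [Finset.card_pair (by intro e; exact hab (Prod.mk.inj e).2)] at h
  exact h

/-- a slot is not of both types -/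
theorem nsl_not_msl {u a t : V} (h : Nsl G c u a) (h' : Msl G c u a t) : False := by
  have h1 := h.2 t h'.2.1 h'.2.2.1
  have h2 := h1.2
  have h3 := h'.2.2.2.1.1.2
  omega

/-- the `T1`-vertex of an `M`-slot determines the slot -/
theorem msl_inj (hG : G.IsRegularOfDegree 3)
    (hcl2 : ∀ u u' a : V, IsSl G c u a → IsSl G c u' a → u = u')
    {u u' a a' t : V} (h : Msl G c u a t) (h' : Msl G c u' a' t) : u = u' ∧ a = a' := by
  have e : a = a' := t1_uniq hG h.2.2.2.1 h.1.2.1 h'.1.2.1 h.2.1.symm h'.2.1.symm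
  subst e
  exact ⟨hcl2 u u' a h.1 h'.1, rfl⟩

end

/-- row SEL -/
theorem SEL (h1 : ST_F1) (h4 : ST_F4) (hcl : ST_CLS) (hk1 : ST_K1) (hk2 : ST_K2) (hk3 : ST_K3) :
    ST_SEL := by
  classical
  intro V _ _ G _ hG hNT hNS c j hO hj
  obtain ⟨hcl1, hcl2⟩ := hcl V G hG hNT hNS c j hO hj
  have K1 := hk1 V G hG hNT hNS c j hO hj
  obtain ⟨K2a, K2b, K2c⟩ := hk2 V G hG hNT hNS c j hO hj
  obtain ⟨K3a, K3b, K3c, K3d⟩ := hk3 V G hG hNT hNS c j hO hj
  have hF4 := h4 V G hG c j hO (by omega)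
  have hTh : (Finset.univ.filter (fun q => tQ G c q ∧
      ∃ s s', s ≠ s' ∧ G.Adj q s ∧ G.Adj q s' ∧ tS G c s ∧ tS G c s')) = ∅ := by
    rw [Finset.filter_eq_empty_iff]
    rintro q _ ⟨hq, s, s', hne, hs, hs', tS1, tS2⟩
    have h5 := h1 V G hG c j hO (by omega) q s s' hq hs hs' hne tS1 tS2
    exact hNT q s s' hs h5 hs'
  rw [hTh, Finset.card_empty, Nat.add_zero] at hF4
  have hF6 : 6 * j ≤ (Finset.univ.filter (fun v => Fr G c v)).card := by
    rw [hF4]
    omega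
  have h2F := two_fr_le (c := c) hG
  obtain ⟨N, hN⟩ : ∃ N : Finset (V × V), N = Finset.univ.filter (fun p : V × V => Nsl G c p.1 p.2) :=
    ⟨_, rfl⟩
  obtain ⟨M, hM⟩ : ∃ M : Finset (V × V), M = Finset.univ.filter (fun p : V × V =>
    ∃ t, Msl G c p.1 p.2 t) := ⟨_, rfl⟩
  obtain ⟨E, hE⟩ : ∃ E : Finset V, E = Finset.univ.filter (fun t : V =>
    ∃ u a, Msl G c u a t) := ⟨_, rfl⟩
  obtain ⟨F, hF⟩ : ∃ F : Finset V, F = Finset.univ.filter (fun v : V => Fr G c v) := ⟨_, rfl⟩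
  have mN : ∀ p : V × V, p ∈ N ↔ Nsl G c p.1 p.2 := by
    intro p; rw [hN, Finset.mem_filter]; simp
  have mM : ∀ p : V × V, p ∈ M ↔ ∃ t, Msl G c p.1 p.2 t := by
    intro p; rw [hM, Finset.mem_filter]; simp
  have mE : ∀ t : V, t ∈ E ↔ ∃ u a, Msl G c u a t := by
    intro p; rw [hE, Finset.mem_filter]; simp
  have mF : ∀ t : V, t ∈ F ↔ Fr G c t := by
    intro p; rw [hF, Finset.mem_filter]; simp
  have mS : ∀ p : V × V, p ∈ N ∪ M → IsSl G c p.1 p.2 := by
    intro p hp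
    rcases Finset.mem_union.1 hp with h | h
    · exact ((mN p).1 h).1
    · obtain ⟨t, ht⟩ := (mM p).1 h
      exact ht.1
  have hNM : Disjoint N M := by
    rw [Finset.disjoint_left]
    intro p hp hp'
    obtain ⟨t, ht⟩ := (mM p).1 hp'
    exact nsl_not_msl ((mN p).1 hp) ht
  have hcard : 12 * j ≤ N.card + M.card := by
    have hsub : (Finset.univ.filter (fun p : V × V => IsSl G c p.1 p.2)) ⊆ N ∪ M := by
      intro p hp
      rcases hcl1 p.1 p.2 (Finset.mem_filter.1 hp).2 with h | h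
      · exact Finset.mem_union_left _ ((mN p).2 h)
      · exact Finset.mem_union_right _ ((mM p).2 h)
    have h5 := Finset.card_le_card hsub
    rw [Finset.card_union_of_disjoint hNM] at h5
    omega
  obtain ⟨f, hf⟩ : ∃ f : V × V → V, ∀ p ∈ M, Msl G c p.1 p.2 (f p) := by
    refine ⟨fun p => if h : ∃ t, Msl G c p.1 p.2 t then Classical.choose h else p.1, ?_⟩
    intro p hp
    have h := (mM p).1 hp
    simp only [h, dite_true]
    exact Classical.choose_spec h
  have hfi : ∀ x ∈ M, ∀ y ∈ M, f x = f y → x = y := by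
    intro x hx y hy e
    have h5 := hf x hx
    have h6 := hf y hy
    rw [← e] at h6
    have h7 := msl_inj hG hcl2 h5 h6
    exact Prod.ext h7.1 h7.2
  obtain ⟨I, J, E', F', hI, hJ, hE', hF', hIJ, hFc, hEc, dII, dIJ, dJJ, dIE, dJE, dEE, dIF, dJF,
    dEF, dFF⟩ := core N M E F (fun p : V × V => ter G c {p.1, p.2}) (fun t : V => ter G c {t})
    (fun s : V => ter G c {s}) f j hNM hcard (by rw [hF]; exact hF6)
    (fun p _ => ter_ne p.1 (by simp)) (fun t _ => ter_ne t (by simp))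
    (fun s _ => ter_ne s (by simp)) (fun x hx => (mE _).2 ⟨x.1, x.2, hf x hx⟩) hfi
    (fun x hx A hA hA' => (Finset.card_le_card (fun y hy => Finset.mem_filter.2
      ⟨Finset.mem_univ _, mS y (hA hy), hA' y hy⟩)).trans (K1 x.1 x.2 (mS x hx)))
    (fun x hx A hA hA' => (Finset.card_le_card (fun y hy => Finset.mem_filter.2
      ⟨Finset.mem_univ _, (mE y).1 (hA hy), hA' y hy⟩)).trans (K2a x.1 x.2 (mS x hx)))
    (fun x hx y hy hd => K2b x.1 x.2 y.1 y.2 (f y) (mS x hx) (hf y hy) hd)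
    (fun x hx A hA hA' => (Finset.card_le_card (fun y hy => Finset.mem_filter.2
      ⟨Finset.mem_univ _, (mE y).1 (hA hy), hA' y hy⟩)).trans (K2c x ((mE x).1 hx)))
    (fun x hx A hA hA' => (Finset.card_le_card (fun y hy => Finset.mem_filter.2
      ⟨Finset.mem_univ _, (mF y).1 (hA hy), hA' y hy⟩)).trans (K3a x.1 x.2 ((mN x).1 hx)))
    (fun x hx A hA hA' => (Finset.card_le_card (fun y hy => Finset.mem_filter.2
      ⟨Finset.mem_univ _, (mF y).1 (hA hy), hA' y hy⟩)).trans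
        (K3b x.1 x.2 (f x) (hf x hx)))
    (fun x hx A hA hA' => by
      obtain ⟨u, a, h⟩ := (mE x).1 hx
      exact (Finset.card_le_card (fun y hy => Finset.mem_filter.2
        ⟨Finset.mem_univ _, (mF y).1 (hA hy), hA' y hy⟩)).trans (K3c u a x h))
    (fun x hx A hA hA' => (Finset.card_le_card (fun y hy => Finset.mem_filter.2
      ⟨Finset.mem_univ _, (mF y).1 (hA hy), hA' y hy⟩)).trans (K3d x ((mF x).1 hx)))
  /- enumerations -/
  obtain ⟨eI⟩ : Nonempty (Fin I.card ≃ I) := ⟨I.equivFin.symm⟩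
  obtain ⟨eF⟩ : Nonempty (Fin I.card ≃ F') := ⟨(Finset.equivFinOfCardEq hFc).symm⟩
  obtain ⟨eJ⟩ : Nonempty (Fin J.card ≃ J) := ⟨J.equivFin.symm⟩
  obtain ⟨eE⟩ : Nonempty (Fin J.card ≃ E') := ⟨(Finset.equivFinOfCardEq hEc).symm⟩
  have vne : ∀ {α : Type} (A : Finset α) (n : ℕ) (e : Fin n ≃ A) (i k : Fin n), i ≠ k →
      (e i : α) ≠ (e k : α) := by
    intro α A n e i k hik h
    exact hik (e.injective (Subtype.ext h))
  refine ⟨I.card, J.card, fun i => (eI i : V × V).1, fun i => (eI i : V × V).2,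
    fun i => (eF i : V), fun i => (eJ i : V × V).1, fun i => (eJ i : V × V).2,
    fun i => f (eJ i : V × V), fun i => (eE i : V), hIJ, ?_, ?_, ?_, ?_, ?_⟩
  · exact fun i => (mN _).1 (hI (eI i).2)
  · exact fun i => (mF _).1 (hF' (eF i).2)
  · exact fun i => hf _ (hJ (eJ i).2)
  · intro i
    obtain ⟨u, a, h⟩ := (mE _).1 (hE' (eE i).2)
    exact h.2.2.2.1
  · rintro ((i | i) | (i | i)) ((k | k) | (k | k)) hik
    · exact dII _ (eI i).2 _ (eI k).2 (vne I _ eI i k (fun e => hik (by rw [e])))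
    · exact dIF _ (eI i).2 _ (eF k).2
    · exact dIJ _ (eI i).2 _ (eJ k).2
    · exact dIE _ (eI i).2 _ (eE k).2
    · exact (dIF _ (eI k).2 _ (eF i).2).symm
    · exact dFF _ (eF i).2 _ (eF k).2 (vne F' _ eF i k (fun e => hik (by rw [e])))
    · exact (dJF _ (eJ k).2 _ (eF i).2).symm
    · exact (dEF _ (eE k).2 _ (eF i).2).symm
    · exact (dIJ _ (eI k).2 _ (eJ i).2).symm
    · exact dJF _ (eJ i).2 _ (eF k).2
    · exact dJJ _ (eJ i).2 _ (eJ k).2 (vne J _ eJ i k (fun e => hik (by rw [e])))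
    · exact dJE _ (eJ i).2 _ (eE k).2
    · exact (dIE _ (eI k).2 _ (eE i).2).symm
    · exact dEF _ (eE i).2 _ (eF k).2
    · exact (dJE _ (eJ k).2 _ (eE i).2).symm
    · exact dEE _ (eE i).2 _ (eE k).2 (vne E' _ eE i k (fun e => hik (by rw [e])))

end Pool.Agent.Helper6.MC
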