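import Mathlib

/-!
MP_4042d8_co, row SEL, part 1: the abstract selection (greedy choices with counted conflicts).
-/

namespace Pool.Agent.Helper6.MC

set_option autoImplicit false

/-- greedy choice: either `j` independent elements, or a maximal independent set -/
theorem maxInd {α : Type} [DecidableEq α] (s : Finset α) (R : α → α → Prop)
    (hs : ∀ x y, R x y → R y x) (hr : ∀ x ∈ s, R x x) (j : ℕ) :
    ∃ t ⊆ s, t.card ≤ j ∧ (∀ x ∈ t, ∀ y ∈ t, x ≠ y → ¬ R x y) ∧
      (t.card = j ∨ ∀ x ∈ s, ∃ y ∈ t, R y x) := by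
  induction j with
  | zero => exact ⟨∅, Finset.empty_subset _, by simp, by simp, Or.inl rfl⟩
  | succ j ih =>
    obtain ⟨t, ht, hc, hi, h⟩ := ih
    by_cases hall : ∀ x ∈ s, ∃ y ∈ t, R y x
    · exact ⟨t, ht, by omega, hi, Or.inr hall⟩
    · rcases h with h | h
      · push Not at hall
        obtain ⟨x, hx, hxt⟩ := hall
        have hn : x ∉ t := fun e => hxt x e (hr x hx)
        refine ⟨insert x t, Finset.insert_subset hx ht, ?_, ?_, ?_⟩
        · rw [Finset.card_insert_of_notMem hn, h]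
        · intro y hy z hz hyz hR
          rcases Finset.mem_insert.1 hy with h1 | h1 <;> rcases Finset.mem_insert.1 hz with h2 | h2
          · exact hyz (h1.trans h2.symm)
          · rw [h1] at hR
            exact hxt z h2 (hs _ _ hR)
          · rw [h2] at hR
            exact hxt y h1 hR
          · exact hi y h1 z h2 hyz hR
        · left
          rw [Finset.card_insert_of_notMem hn, h]
      · exact absurd h hall

/-- counting the blocked elements -/
theorem blk {α β : Type} [DecidableEq α] [DecidableEq β] (t : Finset α) (B : Finset β)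
    (R : α → β → Prop) (k : ℕ)
    (hk : ∀ x ∈ t, ∀ A ⊆ B, (∀ y ∈ A, R x y) → A.card ≤ k)
    (hB : ∀ y ∈ B, ∃ x ∈ t, R x y) : B.card ≤ k * t.card := by
  classical
  have h1 : B ⊆ t.biUnion (fun x => B.filter (fun y => R x y)) := by
    intro y hy
    obtain ⟨x, hx, hxy⟩ := hB y hy
    exact Finset.mem_biUnion.2 ⟨x, hx, Finset.mem_filter.2 ⟨hy, hxy⟩⟩
  have h2 : (t.biUnion (fun x => B.filter (fun y => R x y))).card ≤ t.card * k :=
    Finset.card_biUnion_le_card_mul t _ k (fun x hx => hk x hx _ (Finset.filter_subset _ _)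
      (fun y hy => (Finset.mem_filter.1 hy).2))
  have h3 := Finset.card_le_card h1
  rw [Nat.mul_comm]
  exact h3.trans h2

/-- greedy choice of `j` independent elements -/
theorem grd {α : Type} [DecidableEq α] (s : Finset α) (R : α → α → Prop)
    (hs : ∀ x y, R x y → R y x) (hr : ∀ x ∈ s, R x x) (k j : ℕ)
    (hk : ∀ x ∈ s, ∀ A ⊆ s, (∀ y ∈ A, R x y) → A.card ≤ k) (hkj : k * j ≤ s.card) (hk0 : 0 < k) :
    ∃ t ⊆ s, t.card = j ∧ ∀ x ∈ t, ∀ y ∈ t, x ≠ y → ¬ R x y := by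
  obtain ⟨t, ht, hc, hi, h⟩ := maxInd s R hs hr j
  refine ⟨t, ht, ?_, hi⟩
  rcases h with h | h
  · exact h
  · have h1 := blk t s R k (fun x hx => hk x (ht hx)) h
    have h2 : k * j ≤ k * t.card := hkj.trans h1
    have h3 : j ≤ t.card := Nat.le_of_mul_le_mul_left h2 hk0
    omega

/-- the selection -/
theorem core {P T S W : Type} [DecidableEq P] [DecidableEq T] [DecidableEq S] [DecidableEq W]
    (N M : Finset P) (E : Finset T) (F : Finset S) (p : P → Finset W) (q : T → Finset W)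
    (r : S → Finset W) (f : P → T) (j : ℕ)
    (hNM : Disjoint N M) (hcard : 12 * j ≤ N.card + M.card) (hF : 6 * j ≤ F.card)
    (hp : ∀ x ∈ N ∪ M, (p x).Nonempty) (hq : ∀ x ∈ E, (q x).Nonempty)
    (hr : ∀ x ∈ F, (r x).Nonempty)
    (hfE : ∀ x ∈ M, f x ∈ E) (hfi : ∀ x ∈ M, ∀ y ∈ M, f x = f y → x = y)
    (k1 : ∀ x ∈ N ∪ M, ∀ A ⊆ N ∪ M, (∀ y ∈ A, ¬ Disjoint (p x) (p y)) → A.card ≤ 8)
    (k2a : ∀ x ∈ N ∪ M, ∀ A ⊆ E, (∀ y ∈ A, ¬ Disjoint (p x) (q y)) → A.card ≤ 4)
    (k2b : ∀ x ∈ N ∪ M, ∀ y ∈ M, Disjoint (p x) (p y) → Disjoint (p x) (q (f y)))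
    (k2c : ∀ x ∈ E, ∀ A ⊆ E, (∀ y ∈ A, ¬ Disjoint (q x) (q y)) → A.card ≤ 3)
    (k3a : ∀ x ∈ N, ∀ A ⊆ F, (∀ y ∈ A, ¬ Disjoint (p x) (r y)) → A.card ≤ 2)
    (k3b : ∀ x ∈ M, ∀ A ⊆ F, (∀ y ∈ A, ¬ Disjoint (p x) (r y)) → A.card ≤ 3)
    (k3c : ∀ x ∈ E, ∀ A ⊆ F, (∀ y ∈ A, ¬ Disjoint (q x) (r y)) → A.card ≤ 2)
    (k3d : ∀ x ∈ F, ∀ A ⊆ F, (∀ y ∈ A, ¬ Disjoint (r x) (r y)) → A.card ≤ 2) :
    ∃ (I J : Finset P) (E' : Finset T) (F' : Finset S), I ⊆ N ∧ J ⊆ M ∧ E' ⊆ E ∧ F' ⊆ F ∧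
      I.card + J.card = j ∧ F'.card = I.card ∧ E'.card = J.card ∧
      (∀ x ∈ I, ∀ y ∈ I, x ≠ y → Disjoint (p x) (p y)) ∧
      (∀ x ∈ I, ∀ y ∈ J, Disjoint (p x) (p y)) ∧
      (∀ x ∈ J, ∀ y ∈ J, x ≠ y → Disjoint (p x) (p y)) ∧
      (∀ x ∈ I, ∀ t ∈ E', Disjoint (p x) (q t)) ∧
      (∀ x ∈ J, ∀ t ∈ E', Disjoint (p x) (q t)) ∧
      (∀ t ∈ E', ∀ t' ∈ E', t ≠ t' → Disjoint (q t) (q t')) ∧
      (∀ x ∈ I, ∀ s ∈ F', Disjoint (p x) (r s)) ∧
      (∀ x ∈ J, ∀ s ∈ F', Disjoint (p x) (r s)) ∧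
      (∀ t ∈ E', ∀ s ∈ F', Disjoint (q t) (r s)) ∧
      (∀ s ∈ F', ∀ s' ∈ F', s ≠ s' → Disjoint (r s) (r s')) := by
  classical
  have self : ∀ A : Finset W, A.Nonempty → ¬ Disjoint A A := fun A hA h =>
    hA.ne_empty (by simpa using h)
  /- step 1 -/
  obtain ⟨I, hI, hIc, hIi, hI2⟩ := maxInd N (fun x y => ¬ Disjoint (p x) (p y))
    (fun x y h h' => h h'.symm) (fun x hx => self _ (hp x (Finset.mem_union_left _ hx))) j
  obtain ⟨h, hh⟩ : ∃ h, I.card + h = j := ⟨j - I.card, by omega⟩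
  obtain ⟨M', hM'⟩ : ∃ M' : Finset P, M' = M.filter (fun y => ∀ x ∈ I, Disjoint (p x) (p y)) :=
    ⟨_, rfl⟩
  have hM'M : M' ⊆ M := by rw [hM']; exact Finset.filter_subset _ _
  have hM'd : ∀ y ∈ M', ∀ x ∈ I, Disjoint (p x) (p y) := by
    intro y hy
    rw [hM'] at hy
    exact (Finset.mem_filter.1 hy).2
  have hM'c : 12 * h ≤ M'.card := by
    rcases hI2 with h1 | h1
    · have : h = 0 := by omega
      rw [this]
      simp
    · have hB := blk I (N ∪ M.filter (fun y => ¬ ∀ x ∈ I, Disjoint (p x) (p y)))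
        (fun x y => ¬ Disjoint (p x) (p y)) 8
        (fun x hx A hA => k1 x (Finset.mem_union_left _ (hI hx)) A (hA.trans
          (Finset.union_subset_union_right (Finset.filter_subset _ _))))
        (by
          intro y hy
          rcases Finset.mem_union.1 hy with h2 | h2
          · exact h1 y h2
          · have h3 := (Finset.mem_filter.1 h2).2
            push Not at h3
            exact h3)
      have hdis : Disjoint N (M.filter (fun y => ¬ ∀ x ∈ I, Disjoint (p x) (p y))) :=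
        Finset.disjoint_of_subset_right (Finset.filter_subset _ _) hNM
      rw [Finset.card_union_of_disjoint hdis] at hB
      have hsp : (M.filter (fun y => ∀ x ∈ I, Disjoint (p x) (p y))).card +
          (M.filter (fun y => ¬ ∀ x ∈ I, Disjoint (p x) (p y))).card = M.card :=
        Finset.card_filter_add_card_filter_not _
      rw [← hM'] at hsp
      omega
  /- step 2 -/
  obtain ⟨J, hJ, hJc, hJi⟩ := grd M' (fun x y => ¬ Disjoint (p x) (p y))
    (fun x y h h' => h h'.symm) (fun x hx => self _ (hp x (Finset.mem_union_right _ (hM'M hx))))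
    8 h (fun x hx A hA => k1 x (Finset.mem_union_right _ (hM'M hx)) A
      (hA.trans (hM'M.trans Finset.subset_union_right))) (by omega) (by norm_num)
  /- step 3 -/
  have himc : (M'.image f).card = M'.card := Finset.card_image_of_injOn
    (fun x hx y hy e => hfi x (hM'M hx) y (hM'M hy) e)
  have himE : M'.image f ⊆ E := by
    intro t ht
    obtain ⟨x, hx, rfl⟩ := Finset.mem_image.1 ht
    exact hfE x (hM'M hx)
  obtain ⟨E1, hE1⟩ : ∃ E1 : Finset T, E1 = (M'.image f).filter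
    (fun t => ∀ x ∈ J, Disjoint (p x) (q t)) := ⟨_, rfl⟩
  have hE1s : E1 ⊆ M'.image f := by rw [hE1]; exact Finset.filter_subset _ _
  have hE1c : 3 * h ≤ E1.card := by
    have hB := blk J ((M'.image f).filter (fun t => ¬ ∀ x ∈ J, Disjoint (p x) (q t)))
      (fun x y => ¬ Disjoint (p x) (q y)) 4
      (fun x hx A hA => k2a x (Finset.mem_union_right _ (hM'M (hJ hx))) A
        (hA.trans ((Finset.filter_subset _ _).trans himE)))
      (by
        intro y hy
        have h3 := (Finset.mem_filter.1 hy).2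
        push Not at h3
        exact h3)
    have hsp : ((M'.image f).filter (fun t => ∀ x ∈ J, Disjoint (p x) (q t))).card +
        ((M'.image f).filter (fun t => ¬ ∀ x ∈ J, Disjoint (p x) (q t))).card =
        (M'.image f).card := Finset.card_filter_add_card_filter_not _
    rw [← hE1, himc] at hsp
    omega
  obtain ⟨E', hE', hE'c, hE'i⟩ := grd E1 (fun x y => ¬ Disjoint (q x) (q y))
    (fun x y h h' => h h'.symm) (fun x hx => self _ (hq x (himE (hE1s hx))))
    3 h (fun x hx A hA => k2c x (himE (hE1s hx)) A (hA.trans (hE1s.trans himE))) hE1c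
    (by norm_num)
  have hE'E : E' ⊆ E := hE'.trans (hE1s.trans himE)
  have hIE : ∀ x ∈ I, ∀ t ∈ E', Disjoint (p x) (q t) := by
    intro x hx t ht
    obtain ⟨y, hy, rfl⟩ := Finset.mem_image.1 (hE1s (hE' ht))
    exact k2b x (Finset.mem_union_left _ (hI hx)) y (hM'M hy) (hM'd y hy x hx)
  have hJE : ∀ x ∈ J, ∀ t ∈ E', Disjoint (p x) (q t) := by
    intro x hx t ht
    have h1 := hE' ht
    rw [hE1] at h1
    exact (Finset.mem_filter.1 h1).2 x hx
  /- step 4 -/
  obtain ⟨F1, hF1⟩ : ∃ F1 : Finset S, F1 = F.filter (fun s => (∀ x ∈ I, Disjoint (p x) (r s)) ∧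
    (∀ x ∈ J, Disjoint (p x) (r s)) ∧ (∀ t ∈ E', Disjoint (q t) (r s))) := ⟨_, rfl⟩
  have hF1s : F1 ⊆ F := by rw [hF1]; exact Finset.filter_subset _ _
  have hF1c : 2 * I.card ≤ F1.card := by
    have b1 := blk I (F.filter (fun s => ¬ ∀ x ∈ I, Disjoint (p x) (r s)))
      (fun x y => ¬ Disjoint (p x) (r y)) 2
      (fun x hx A hA => k3a x (hI hx) A (hA.trans (Finset.filter_subset _ _)))
      (by
        intro y hy
        have h3 := (Finset.mem_filter.1 hy).2
        push Not at h3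
        exact h3)
    have b2 := blk J (F.filter (fun s => ¬ ∀ x ∈ J, Disjoint (p x) (r s)))
      (fun x y => ¬ Disjoint (p x) (r y)) 3
      (fun x hx A hA => k3b x (hM'M (hJ hx)) A (hA.trans (Finset.filter_subset _ _)))
      (by
        intro y hy
        have h3 := (Finset.mem_filter.1 hy).2
        push Not at h3
        exact h3)
    have b3 := blk E' (F.filter (fun s => ¬ ∀ t ∈ E', Disjoint (q t) (r s)))
      (fun x y => ¬ Disjoint (q x) (r y)) 2
      (fun x hx A hA => k3c x (hE'E hx) A (hA.trans (Finset.filter_subset _ _)))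
      (by
        intro y hy
        have h3 := (Finset.mem_filter.1 hy).2
        push Not at h3
        exact h3)
    have hcov : F ⊆ ((F1 ∪ F.filter (fun s => ¬ ∀ x ∈ I, Disjoint (p x) (r s))) ∪
        F.filter (fun s => ¬ ∀ x ∈ J, Disjoint (p x) (r s))) ∪
        F.filter (fun s => ¬ ∀ t ∈ E', Disjoint (q t) (r s)) := by
      intro s hs
      rw [Finset.mem_union, Finset.mem_union, Finset.mem_union, Finset.mem_filter,
        Finset.mem_filter, Finset.mem_filter, hF1, Finset.mem_filter]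
      by_cases a1 : ∀ x ∈ I, Disjoint (p x) (r s)
      · by_cases a2 : ∀ x ∈ J, Disjoint (p x) (r s)
        · by_cases a3 : ∀ t ∈ E', Disjoint (q t) (r s)
          · exact Or.inl (Or.inl (Or.inl ⟨hs, a1, a2, a3⟩))
          · exact Or.inr ⟨hs, a3⟩
        · exact Or.inl (Or.inr ⟨hs, a2⟩)
      · exact Or.inl (Or.inl (Or.inr ⟨hs, a1⟩))
    have c0 := Finset.card_le_card hcov
    have c1 := Finset.card_union_le ((F1 ∪ F.filter (fun s => ¬ ∀ x ∈ I, Disjoint (p x) (r s))) ∪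
        F.filter (fun s => ¬ ∀ x ∈ J, Disjoint (p x) (r s)))
        (F.filter (fun s => ¬ ∀ t ∈ E', Disjoint (q t) (r s)))
    have c2 := Finset.card_union_le (F1 ∪ F.filter (fun s => ¬ ∀ x ∈ I, Disjoint (p x) (r s)))
        (F.filter (fun s => ¬ ∀ x ∈ J, Disjoint (p x) (r s)))
    have c3 := Finset.card_union_le F1 (F.filter (fun s => ¬ ∀ x ∈ I, Disjoint (p x) (r s)))
    omega
  obtain ⟨F', hF', hF'c, hF'i⟩ := grd F1 (fun x y => ¬ Disjoint (r x) (r y))
    (fun x y h h' => h h'.symm) (fun x hx => self _ (hr x (hF1s hx)))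
    2 I.card (fun x hx A hA => k3d x (hF1s hx) A (hA.trans hF1s)) hF1c (by norm_num)
  have hF'd : ∀ s ∈ F', (∀ x ∈ I, Disjoint (p x) (r s)) ∧
    (∀ x ∈ J, Disjoint (p x) (r s)) ∧ (∀ t ∈ E', Disjoint (q t) (r s)) := by
    intro s hs
    have h1 := hF' hs
    rw [hF1] at h1
    exact (Finset.mem_filter.1 h1).2
  refine ⟨I, J, E', F', hI, hJ.trans hM'M, hE'E, hF'.trans hF1s, by omega, hF'c, by omega,
    fun x hx y hy e => not_not.1 (hIi x hx y hy e), fun x hx y hy => hM'd y (hJ hy) x hx,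
    fun x hx y hy e => not_not.1 (hJi x hx y hy e), hIE, hJE,
    fun x hx y hy e => not_not.1 (hE'i x hx y hy e), fun x hx s hs => (hF'd s hs).1 x hx,
    fun x hx s hs => (hF'd s hs).2.1 x hx, fun t ht s hs => (hF'd s hs).2.2 t ht,
    fun x hx y hy e => not_not.1 (hF'i x hx y hy e)⟩

end Pool.Agent.Helper6.MC
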