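import Mathlib
import Pool.Agent.Helper64.MC.Types

/-!
MP_4042d8_co: sequential frame. A state `Sq G c c' H e Lp Ln`: the current colouring `c'` agrees
with `c` outside the hard set `H`, no mono edge of `c'` leaves `H`, the imbalance is `2 e`, the hard
components are matched up to a list `Lp` of unmatched components of colour `true` and a list `Ln` of
unmatched components of colour `false`.
-/

set_option autoImplicit false
set_option linter.unusedSectionVars false
set_option linter.unusedSimpArgs false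
set_option linter.unusedVariables false

namespace Pool.Agent.Helper6.MC

open Pool.Agent.Helper27.MC Pool.Agent.Helper51.MC Pool.Agent.Helper88.MC Pool.Agent.Helper64.MC

/-- shapes of hard components -/
inductive Sh
  | p3
  | p4
  | p5
  | k3
  deriving DecidableEq

/-- number of vertices -/
def Sh.k : Sh → ℕ
  | .p3 => 3
  | .p4 => 4
  | .p5 => 5
  | .k3 => 3

/-- the graph -/
def Sh.g : (s : Sh) → SimpleGraph (Fin s.k)
  | .p3 => pth 3
  | .p4 => pth 4
  | .p5 => pth 5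
  | .k3 => cmp 3

variable {V : Type} [Fintype V] [DecidableEq V] {G : SimpleGraph V} [DecidableRel G.Adj]

variable (G) in
/-- `R` is the union of disjoint whole components of colour `b` with the shapes of the list -/
def Unm (c : V → Bool) (b : Bool) : List Sh → Finset V → Prop
  | [], R => R = ∅
  | s :: L, R => ∃ f : Fin s.k → V, Comp G c b s.g f ∧ (∀ i, f i ∈ R) ∧
      Unm c b L (R \ Finset.univ.image f)

theorem mem_img {k : ℕ} {f : Fin k → V} {v : V} : v ∈ Finset.univ.image f ↔ ∃ i, f i = v := by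
  simp

section unm

variable {c c' : V → Bool} {b : Bool}

theorem Unm.congr : ∀ {L : List Sh} {R : Finset V}, Unm G c b L R →
    (∀ v ∈ R, ∀ w, w = v ∨ G.Adj v w → c' w = c w) → Unm G c' b L R := by
  intro L
  induction L with
  | nil => intro R h _; exact h
  | cons s L ih =>
    intro R h he
    obtain ⟨f, hf, hR, h⟩ := h
    refine ⟨f, hf.congr fun i w hw => he (f i) (hR i) w hw, hR, ih h fun v hv w hw => ?_⟩
    exact he v (Finset.mem_sdiff.1 hv).1 w hw

theorem Unm.app : ∀ {L' : List Sh} {R' : Finset V}, Unm G c b L' R' →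
    ∀ {L : List Sh} {R : Finset V}, Unm G c b L R → Disjoint R' R →
      Unm G c b (L' ++ L) (R' ∪ R) := by
  intro L'
  induction L' with
  | nil =>
    intro R' h L R hR hd
    have h' : R' = ∅ := h
    rw [h', Finset.empty_union]
    exact hR
  | cons s L' ih =>
    intro R' h L R hR hd
    obtain ⟨f, hf, hf', h⟩ := h
    refine ⟨f, hf, fun i => Finset.mem_union_left _ (hf' i), ?_⟩
    have hd' : Disjoint (R' \ Finset.univ.image f) R :=
      Finset.disjoint_of_subset_left Finset.sdiff_subset hd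
    have e : (R' ∪ R) \ Finset.univ.image f = (R' \ Finset.univ.image f) ∪ R := by
      ext v
      simp only [Finset.mem_sdiff, Finset.mem_union]
      constructor
      · rintro ⟨h1 | h1, h2⟩
        · exact Or.inl ⟨h1, h2⟩
        · exact Or.inr h1
      · rintro (⟨h1, h2⟩ | h1)
        · exact ⟨Or.inl h1, h2⟩
        · refine ⟨Or.inr h1, fun h2 => ?_⟩
          obtain ⟨i, rfl⟩ := mem_img.1 h2
          exact Finset.disjoint_left.1 hd (hf' i) h1
    rw [e]
    exact ih h hR hd'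

theorem Unm.one {s : Sh} {f : Fin s.k → V} (hf : Comp G c b s.g f) :
    Unm G c b [s] (Finset.univ.image f) :=
  ⟨f, hf, fun i => mem_img.2 ⟨i, rfl⟩, by rw [Finset.sdiff_self]; rfl⟩

theorem Unm.perm {L L' : List Sh} (hp : L.Perm L') :
    ∀ {R : Finset V}, Unm G c b L R → Unm G c b L' R := by
  induction hp with
  | nil => intro R h; exact h
  | cons s _ ih =>
    intro R h
    obtain ⟨f, hf, hR, h⟩ := h
    exact ⟨f, hf, hR, ih h⟩
  | swap s t L =>
    intro R h
    obtain ⟨f, hf, hfR, g, hg, hgR, h⟩ := h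
    refine ⟨g, hg, fun i => (Finset.mem_sdiff.1 (hgR i)).1, f, hf, fun i => ?_, ?_⟩
    · refine Finset.mem_sdiff.2 ⟨hfR i, fun h1 => ?_⟩
      obtain ⟨i', h2⟩ := mem_img.1 h1
      have h3 := (Finset.mem_sdiff.1 (hgR i')).2
      exact h3 (mem_img.2 ⟨i, h2.symm⟩)
    · rw [sdiff_right_comm]
      exact h
  | trans _ _ ih1 ih2 => intro R h; exact ih2 (ih1 h)

end unm

theorem Mat.nil {c : V → Bool} : Mat G c (∅ : Finset V) ∅ :=
  ⟨by simp, by simp, by intro x hx; simp at hx, by intro x hx; simp at hx, id, by simp, by simp⟩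

/-! ### states -/

variable (G) in
/-- a state -/
structure Sq (c c' : V → Bool) (H : Finset V) (e : ℤ) (Lp Ln : List Sh) : Prop where
  one : ∀ v, mu G c v ≤ 1
  eq : ∀ v, v ∉ H → c' v = c v
  cl : Cl c' G H
  q : ∀ v w, v ∈ H → c v = true → Rm G c v w → w ∈ H
  imb2 : imb c' = 2 * e
  hard : ∃ P N R T : Finset V, P ⊆ H ∧ N ⊆ H ∧ R ⊆ H ∧ T ⊆ H ∧ Disjoint P R ∧ Disjoint N T ∧
    Mat G c' P N ∧ Unm G c' true Lp R ∧ Unm G c' false Ln T ∧
    ∀ v ∈ H, v ∉ P → v ∉ N → v ∉ R → v ∉ T → mu G c' v ≤ 1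

/-- `X` is flipped; `K` (disjoint from `H`) contains everything which changes -/
structure Ext (G : SimpleGraph V) (c c' : V → Bool) (H X K : Finset V) : Prop where
  XK : X ⊆ K
  KH : ∀ v ∈ K, v ∉ H
  nX : ∀ x ∈ X, ∀ v, G.Adj x v → v ∉ H
  cl : Cl (flp c' X) G K
  q : ∀ v w, v ∈ K → c v = true → Rm G c v w → w ∈ K

section state

variable {c c' : V → Bool} {H : Finset V} {e : ℤ} {Lp Ln : List Sh}

/-- mono neighbours outside `H` -/
theorem Sq.rm (S : Sq G c c' H e Lp Ln) {v : V} (hv : v ∉ H) (w : V) :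
    Rm G c' v w ↔ Rm G c v w ∧ w ∉ H := by
  constructor
  · intro h
    have hw : w ∉ H := fun h1 => hv (S.cl w h1 v h.symm)
    refine ⟨⟨h.1, ?_⟩, hw⟩
    have := h.2
    rw [S.eq v hv, S.eq w hw] at this
    exact this
  · rintro ⟨h, hw⟩
    refine ⟨h.1, ?_⟩
    rw [S.eq v hv, S.eq w hw]
    exact h.2

theorem Sq.mu_out (S : Sq G c c' H e Lp Ln) {v : V} (hv : v ∉ H) : mu G c' v ≤ 1 :=
  (mu_mono fun y hy => ((S.rm hv y).1 hy).1).trans (S.one v)

theorem Sq.mate_t (S : Sq G c c' H e Lp Ln) {v w : V} (hv : v ∉ H) (cv : c v = true)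
    (h : Rm G c v w) : w ∉ H := fun hw => hv (S.q w v hw (by rw [h.2, cv]) h.symm)

/-- vertices `true` outside `H` keep their mates -/
theorem Sq.rm_t (S : Sq G c c' H e Lp Ln) {v : V} (hv : v ∉ H) (cv : c v = true) (w : V) :
    Rm G c' v w ↔ Rm G c v w :=
  ⟨fun h => ((S.rm hv w).1 h).1, fun h => (S.rm hv w).2 ⟨h, S.mate_t hv cv h⟩⟩

theorem Sq.mu0 (S : Sq G c c' H e Lp Ln) {v : V} (hv : v ∉ H) (h : mu G c v = 0) :
    mu G c' v = 0 :=
  mu_eq_zero fun y hy => mu_zero h y ((S.rm hv y).1 hy).1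

theorem Sq.perm (S : Sq G c c' H e Lp Ln) {Lp' Ln' : List Sh} (hp : Lp.Perm Lp')
    (hn : Ln.Perm Ln') : Sq G c c' H e Lp' Ln' := by
  obtain ⟨h1, h2, h3, h4, h5, P, N, R, T, hP, hN, hR, hT, d1, d2, hM, hU, hU', ho⟩ := S
  exact ⟨h1, h2, h3, h4, h5, P, N, R, T, hP, hN, hR, hT, d1, d2, hM, hU.perm hp, hU'.perm hn, ho⟩

/-- match two unmatched components of the same shape -/
theorem Sq.mtch {s : Sh} (S : Sq G c c' H e (s :: Lp) (s :: Ln)) : Sq G c c' H e Lp Ln := by
  obtain ⟨h1, h2, h3, h4, h5, P, N, R, T, hP, hN, hR, hT, d1, d2, hM, ⟨f, hf, fR, hU⟩,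
    ⟨g, hg, gT, hU'⟩, ho⟩ := S
  have fs : Finset.univ.image f ⊆ R := by
    intro v hv
    obtain ⟨i, rfl⟩ := mem_img.1 hv
    exact fR i
  have gs : Finset.univ.image g ⊆ T := by
    intro v hv
    obtain ⟨i, rfl⟩ := mem_img.1 hv
    exact gT i
  refine ⟨h1, h2, h3, h4, h5, Finset.univ.image f ∪ P, Finset.univ.image g ∪ N,
    R \ Finset.univ.image f, T \ Finset.univ.image g, Finset.union_subset (fs.trans hR) hP,
    Finset.union_subset (gs.trans hT) hN, Finset.sdiff_subset.trans hR,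
    Finset.sdiff_subset.trans hT, ?_, ?_, ?_, hU, hU', ?_⟩
  · rw [Finset.disjoint_union_left]
    exact ⟨Finset.disjoint_sdiff, Finset.disjoint_of_subset_right Finset.sdiff_subset d1⟩
  · rw [Finset.disjoint_union_left]
    exact ⟨Finset.disjoint_sdiff, Finset.disjoint_of_subset_right Finset.sdiff_subset d2⟩
  · exact (Mat.of_comp hf hg).union hM (Finset.disjoint_of_subset_left fs d1.symm)
      (Finset.disjoint_of_subset_left gs d2.symm)
  · intro v hv a1 a2 a3 a4
    rw [Finset.mem_union, not_or] at a1 a2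
    exact ho v hv a1.2 a2.2 (fun h => a3 (Finset.mem_sdiff.2 ⟨h, a1.1⟩))
      (fun h => a4 (Finset.mem_sdiff.2 ⟨h, a2.1⟩))

/-- the beginning -/
theorem Sq.start (hm : ∀ v, mu G c v ≤ 1) {e : ℤ} (hi : Pool.Agent.Helper27.MC.imb c = 2 * e) :
    Sq G c c ∅ e [] [] :=
  ⟨hm, fun _ _ => rfl, by intro v hv; simp at hv, by intro v w hv; simp at hv, hi, ∅, ∅, ∅, ∅,
    by simp, by simp, by simp, by simp, by simp, by simp, Mat.nil, rfl, rfl,
    by intro v hv; simp at hv⟩

/-- the end -/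
theorem Sq.fin (S : Sq G c c' H 0 [] []) : FinH G c' := by
  obtain ⟨P, N, R, T, hP, hN, hR, hT, d1, d2, hM, hU, hU', ho⟩ := S.hard
  have hR0 : R = ∅ := hU
  have hT0 : T = ∅ := hU'
  refine ⟨by rw [S.imb2]; rfl, P, N, hM, fun v h1 h2 => ?_⟩
  by_cases hv : v ∈ H
  · exact ho v hv h1 h2 (by rw [hR0]; simp) (by rw [hT0]; simp)
  · exact S.mu_out hv

variable {X K : Finset V}

theorem Ext.sameH (E : Ext G c c' H X K) {v w : V} (hv : v ∈ H) (hw : w = v ∨ G.Adj v w) :
    flp c' X w = c' w := by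
  refine flp_not fun h => ?_
  rcases hw with rfl | hw
  · exact E.KH _ (E.XK h) hv
  · exact E.nX w h v hw.symm hv

theorem Ext.clU (S : Sq G c c' H e Lp Ln) (E : Ext G c c' H X K) :
    Cl (flp c' X) G (H ∪ K) := by
  intro v hv w hw
  rcases Finset.mem_union.1 hv with h | h
  · refine Finset.mem_union_left _ (S.cl v h w ⟨hw.1, ?_⟩)
    have := hw.2
    rw [E.sameH h (Or.inl rfl), E.sameH h (Or.inr hw.1)] at this
    exact this
  · exact Finset.mem_union_right _ (E.cl v h w hw)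

theorem Ext.mat (E : Ext G c c' H X K) {P N : Finset V} (hP : P ⊆ H) (hN : N ⊆ H)
    (hM : Mat G c' P N) : Mat G (flp c' X) P N := by
  obtain ⟨p, n, cP, cN, f, hf⟩ := hM
  have key : ∀ A : Finset V, A ⊆ H → ∀ v ∈ A, ∀ w, Rm G (flp c' X) v w ↔ Rm G c' v w := by
    intro A hA v hv w
    unfold Rm
    constructor
    · rintro ⟨h1, h2⟩
      rw [E.sameH (hA hv) (Or.inl rfl), E.sameH (hA hv) (Or.inr h1)] at h2
      exact ⟨h1, h2⟩
    · rintro ⟨h1, h2⟩
      rw [← E.sameH (hA hv) (Or.inl rfl), ← E.sameH (hA hv) (Or.inr h1)] at h2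
      exact ⟨h1, h2⟩
  refine ⟨fun v hv => ?_, fun v hv => ?_, fun v hv w hw => ?_, fun v hv w hw => ?_, f, hf.1, ?_⟩
  · rw [E.sameH (hP hv) (Or.inl rfl)]
    exact p v hv
  · rw [E.sameH (hN hv) (Or.inl rfl)]
    exact n v hv
  · exact cP v hv w ((key P hP v hv w).1 hw)
  · exact cN v hv w ((key N hN v hv w).1 hw)
  · intro v hv w hw
    rw [key P hP v hv w, hf.2 v hv w hw]
    exact (key N hN (f v) (hf.1.mapsTo hv) (f w)).symm

theorem Ext.dis (E : Ext G c c' H X K) {A B : Finset V} (hA : A ⊆ H) (hB : B ⊆ K) :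
    Disjoint B A := by
  rw [Finset.disjoint_left]
  exact fun v hv hv' => E.KH v (hB hv) (hA hv')

/-- the general step: new unmatched hard components inside `K` -/
theorem Sq.ext (S : Sq G c c' H e Lp Ln) (E : Ext G c c' H X K) {d : ℤ} (hd : dd c' X = d)
    {R' T' : Finset V} {Lp' Ln' : List Sh} (hR' : R' ⊆ K) (hT' : T' ⊆ K)
    (hU : Unm G (flp c' X) true Lp' R') (hU' : Unm G (flp c' X) false Ln' T')
    (hK : ∀ v ∈ K, v ∉ R' → v ∉ T' → mu G (flp c' X) v ≤ 1) :
    Sq G c (flp c' X) (H ∪ K) (e - d) (Lp' ++ Lp) (Ln' ++ Ln) := by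
  obtain ⟨P, N, R, T, hP, hN, hR, hT, d1, d2, hM, hU0, hU0', ho⟩ := S.hard
  refine ⟨S.one, ?_, E.clU S, ?_, ?_, P, N, R' ∪ R, T' ∪ T,
    hP.trans Finset.subset_union_left, hN.trans Finset.subset_union_left,
    Finset.union_subset (hR'.trans Finset.subset_union_right) (hR.trans Finset.subset_union_left),
    Finset.union_subset (hT'.trans Finset.subset_union_right) (hT.trans Finset.subset_union_left),
    ?_, ?_, E.mat hP hN hM, ?_, ?_, ?_⟩
  · intro v hv
    rw [Finset.mem_union, not_or] at hv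
    rw [flp_not fun h => hv.2 (E.XK h)]
    exact S.eq v hv.1
  · intro v w hv cv hw
    rcases Finset.mem_union.1 hv with h | h
    · exact Finset.mem_union_left _ (S.q v w h cv hw)
    · exact Finset.mem_union_right _ (E.q v w h cv hw)
  · rw [flip_imb, S.imb2, hd]
    ring
  · rw [Finset.disjoint_union_right]
    exact ⟨(E.dis hP hR').symm, d1⟩
  · rw [Finset.disjoint_union_right]
    exact ⟨(E.dis hN hT').symm, d2⟩
  · exact hU.app (hU0.congr fun v hv w hw => E.sameH (hR hv) hw) (E.dis hR hR')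
  · exact hU'.app (hU0'.congr fun v hv w hw => E.sameH (hT hv) hw) (E.dis hT hT')
  · intro v hv a1 a2 a3 a4
    rw [Finset.mem_union, not_or] at a3 a4
    rcases Finset.mem_union.1 hv with h | h
    · rw [mu_congr G (E.sameH h (Or.inl rfl)) fun w hw => E.sameH h (Or.inr hw)]
      exact ho v h a1 a2 a3.2 a4.2
    · exact hK v h a3.1 a4.1

/-- step without hard components -/
theorem Sq.step0 (S : Sq G c c' H e Lp Ln) (E : Ext G c c' H X K) {d : ℤ} (hd : dd c' X = d)
    (hK : ∀ v ∈ K, mu G (flp c' X) v ≤ 1) : Sq G c (flp c' X) (H ∪ K) (e - d) Lp Ln :=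
  S.ext E hd (R' := ∅) (T' := ∅) (Lp' := []) (Ln' := []) (by simp) (by simp) rfl rfl
    (fun v hv _ _ => hK v hv)

/-- step with one new component of colour `false` -/
theorem Sq.stepN (S : Sq G c c' H e Lp Ln) (E : Ext G c c' H X K) {d : ℤ} (hd : dd c' X = d)
    (s : Sh) {g : Fin s.k → V} (hg : Comp G (flp c' X) false s.g g) (gK : ∀ i, g i ∈ K)
    (hK : ∀ v ∈ K, (∀ i, v ≠ g i) → mu G (flp c' X) v ≤ 1) :
    Sq G c (flp c' X) (H ∪ K) (e - d) Lp (s :: Ln) := by
  refine S.ext E hd (R' := ∅) (T' := Finset.univ.image g) (Lp' := []) (Ln' := [s]) (by simp)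
    ?_ rfl (Unm.one hg) ?_
  · intro v hv
    obtain ⟨i, rfl⟩ := mem_img.1 hv
    exact gK i
  · intro v hv _ h
    exact hK v hv fun i hi => h (mem_img.2 ⟨i, hi.symm⟩)

/-- step with one new component of colour `true` -/
theorem Sq.stepP (S : Sq G c c' H e Lp Ln) (E : Ext G c c' H X K) {d : ℤ} (hd : dd c' X = d)
    (s : Sh) {f : Fin s.k → V} (hf : Comp G (flp c' X) true s.g f) (fK : ∀ i, f i ∈ K)
    (hK : ∀ v ∈ K, (∀ i, v ≠ f i) → mu G (flp c' X) v ≤ 1) :
    Sq G c (flp c' X) (H ∪ K) (e - d) (s :: Lp) Ln := by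
  refine S.ext E hd (R' := Finset.univ.image f) (T' := ∅) (Lp' := [s]) (Ln' := []) ?_ (by simp)
    (Unm.one hf) rfl ?_
  · intro v hv
    obtain ⟨i, rfl⟩ := mem_img.1 hv
    exact fK i
  · intro v hv h _
    exact hK v hv fun i hi => h (mem_img.2 ⟨i, hi.symm⟩)

end state

end Pool.Agent.Helper6.MC
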