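import Pool.Agent.Helper6.MC.SeqOps

/-!
MP_4042d8_co: sequential frame, the operation `B10`: flip `{u, a, t, k}`, where `t` is a neighbour
of `a` in `T1`, `q` its `Q`-neighbour, `k` the mate of `q` and `g1`, `g2` the other neighbours of
`k`; `y` is the third neighbour of `a`.
-/

set_option autoImplicit false
set_option linter.unusedSectionVars false
set_option linter.unusedSimpArgs false
set_option linter.unusedVariables false

namespace Pool.Agent.Helper6.MC

open Pool.Agent.Helper27.MC Pool.Agent.Helper51.MC Pool.Agent.Helper88.MC Pool.Agent.Helper64.MC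

variable {V : Type} [Fintype V] [DecidableEq V] {G : SimpleGraph V} [DecidableRel G.Adj]

variable (G) in
/-- the local picture of `B10` -/
structure B10 (c : V → Bool) (u m a b t t' q k y g1 g2 : V) : Prop where
  cu : c u = false
  cm : c m = false
  ca : c a = true
  cb : c b = true
  ct : c t = false
  ct' : c t' = false
  cq : c q = true
  ck : c k = true
  cy : c y = false
  cg1 : c g1 = false
  cg2 : c g2 = false
  nu : N3 G u m a b
  na : N3 G a u t y
  nt : N3 G t t' a q
  nk : N3 G k q g1 g2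
  mb : mu G c b = 0
  rq : ∀ w, Rm G c q w ↔ w = k
  tm : t ≠ m

section lists

variable {c : V → Bool} {u m a b t t' q k y g1 g2 : V} (B : B10 G c u m a b t t' q k y g1 g2)
include B

theorem B10.qk : Rm G c q k := (B.rq k).2 rfl

theorem B10.ma : mu G c a = 0 := by
  refine mu_eq_zero fun w hw => ?_
  have h1 := hw.2
  rw [B.ca] at h1
  rcases (B.na.nb w).1 hw.1 with rfl | rfl | rfl
  · rw [B.cu] at h1; cases h1
  · rw [B.ct] at h1; cases h1
  · rw [B.cy] at h1; cases h1

theorem B10.qa : q ≠ a := by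
  rintro rfl
  exact mu_zero B.ma k B.qk

theorem B10.qb : q ≠ b := by
  rintro rfl
  exact mu_zero B.mb k B.qk

theorem B10.ka : k ≠ a := by
  rintro rfl
  exact mu_zero B.ma q B.qk.symm

theorem B10.kb : k ≠ b := by
  rintro rfl
  exact mu_zero B.mb q B.qk.symm

theorem B10.ut : u ≠ t := B.na.xy

theorem B10.g1u : g1 ≠ u := by
  rintro rfl
  have h := (B.nk.nb g1).2 (by simp)
  rcases (B.nu.nb k).1 h.symm with h1 | h1 | h1
  · have := B.ck
    rw [h1, B.cm] at this; cases this
  · exact B.ka h1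
  · exact B.kb h1

theorem B10.g1t : g1 ≠ t := by
  rintro rfl
  have h := (B.nk.nb g1).2 (by simp)
  rcases (B.nt.nb k).1 h.symm with h1 | h1 | h1
  · have := B.ck
    rw [h1, B.ct'] at this; cases this
  · exact B.ka h1
  · exact B.qk.ne h1.symm

theorem B10.swap : B10 G c u m a b t t' q k y g2 g1 :=
  ⟨B.cu, B.cm, B.ca, B.cb, B.ct, B.ct', B.cq, B.ck, B.cy, B.cg2, B.cg1, B.nu, B.na, B.nt,
    ⟨fun w => (B.nk.nb w).trans (by tauto), B.nk.xz, B.nk.xy, B.nk.yz.symm⟩, B.mb, B.rq, B.tm⟩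

theorem B10.ntb : ¬ G.Adj t b := by
  intro h
  rcases (B.nt.nb b).1 h with h1 | h1 | h1
  · have := B.cb
    rw [h1, B.ct'] at this; cases this
  · exact B.nu.yz h1.symm
  · exact B.qb h1.symm

theorem B10.nuq : ¬ G.Adj u q := by
  intro h
  rcases (B.nu.nb q).1 h with h1 | h1 | h1
  · have := B.cq
    rw [h1, B.cm] at this; cases this
  · exact B.qa h1
  · exact B.qb h1

/-- false vertices outside `X` -/
theorem B10.rf {v : V} (cv : c v = false) (h1 : v ≠ u) (h2 : v ≠ t) (w : V) :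
    Rm G (flp c {u, a, t, k}) v w ↔ (Rm G c v w ∧ w ≠ u ∧ w ≠ t) ∨ (w = a ∧ G.Adj a v) ∨
      (w = k ∧ G.Adj k v) := by
  have h3 : v ≠ a := by
    rintro rfl
    rw [B.ca] at cv; cases cv
  have h4 : v ≠ k := by
    rintro rfl
    rw [B.ck] at cv; cases cv
  rw [rm_out (by simp [h1, h2, h3, h4])]
  simp only [Finset.mem_insert, Finset.mem_singleton]
  have e1 := B.cu
  have e2 := B.ca
  have e3 := B.ct
  have e4 := B.ck
  constructor
  · rintro (⟨a1, a2⟩ | ⟨rfl | rfl | rfl | rfl, a2, a3⟩)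
    · exact Or.inl ⟨a2, fun h => a1 (Or.inl h), fun h => a1 (Or.inr (Or.inr (Or.inl h)))⟩
    · rw [e1, cv] at a3; exact absurd rfl a3
    · exact Or.inr (Or.inl ⟨rfl, a2.symm⟩)
    · rw [e3, cv] at a3; exact absurd rfl a3
    · exact Or.inr (Or.inr ⟨rfl, a2.symm⟩)
  · rintro (⟨a1, a2, a3⟩ | ⟨rfl, a1⟩ | ⟨rfl, a1⟩)
    · refine Or.inl ⟨?_, a1⟩
      rintro (h | h | h | h)
      · exact a2 h
      · have := a1.2
        rw [h, e2, cv] at this; cases this
      · exact a3 h
      · have := a1.2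
        rw [h, e4, cv] at this; cases this
    · exact Or.inr ⟨by simp, a1.symm, by rw [e2, cv]; decide⟩
    · exact Or.inr ⟨by simp, a1.symm, by rw [e4, cv]; decide⟩

/-- true vertices outside `X` -/
theorem B10.rt {v : V} (cv : c v = true) (h1 : v ≠ a) (h2 : v ≠ k) (w : V) :
    Rm G (flp c {u, a, t, k}) v w ↔ (Rm G c v w ∧ w ≠ a ∧ w ≠ k) ∨ (w = u ∧ G.Adj u v) ∨
      (w = t ∧ G.Adj t v) := by
  have h3 : v ≠ u := by
    rintro rfl
    rw [B.cu] at cv; cases cv
  have h4 : v ≠ t := by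
    rintro rfl
    rw [B.ct] at cv; cases cv
  rw [rm_out (by simp [h1, h2, h3, h4])]
  simp only [Finset.mem_insert, Finset.mem_singleton]
  have e1 := B.cu
  have e2 := B.ca
  have e3 := B.ct
  have e4 := B.ck
  constructor
  · rintro (⟨a1, a2⟩ | ⟨rfl | rfl | rfl | rfl, a2, a3⟩)
    · exact Or.inl ⟨a2, fun h => a1 (Or.inr (Or.inl h)),
        fun h => a1 (Or.inr (Or.inr (Or.inr h)))⟩
    · exact Or.inr (Or.inl ⟨rfl, a2.symm⟩)
    · rw [e2, cv] at a3; exact absurd rfl a3
    · exact Or.inr (Or.inr ⟨rfl, a2.symm⟩)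
    · rw [e4, cv] at a3; exact absurd rfl a3
  · rintro (⟨a1, a2, a3⟩ | ⟨rfl, a1⟩ | ⟨rfl, a1⟩)
    · refine Or.inl ⟨?_, a1⟩
      rintro (h | h | h | h)
      · have := a1.2
        rw [h, e1, cv] at this; cases this
      · exact a2 h
      · have := a1.2
        rw [h, e3, cv] at this; cases this
      · exact a3 h
    · exact Or.inr ⟨by simp, a1.symm, by rw [e1, cv]; decide⟩
    · exact Or.inr ⟨by simp, a1.symm, by rw [e3, cv]; decide⟩

theorem B10.ru (w : V) : Rm G (flp c {u, a, t, k}) u w ↔ w = b := by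
  rw [rm_in (by simp), B.nu.nb]
  simp only [Finset.mem_insert, Finset.mem_singleton]
  have e1 := B.cu
  have e2 := B.cm
  have e3 := B.ca
  have e4 := B.cb
  constructor
  · rintro (⟨h, h'⟩ | ⟨h, rfl | rfl | rfl, h'⟩)
    · rcases (B.nu.nb w).1 h'.1 with h1 | h1 | h1
      · subst h1
        rcases h with h | h | h | h
        · exact absurd h h'.ne.symm
        · rw [h] at e2; rw [e3] at e2; cases e2
        · exact absurd h.symm B.tm
        · rw [h] at e2; rw [B.ck] at e2; cases e2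
      · have := h'.2
        rw [h1, e3, e1] at this; cases this
      · exact h1
    · rw [e1, e2] at h'; exact absurd rfl h'
    · exact absurd (Or.inr (Or.inl rfl)) h
    · rfl
  · rintro rfl
    refine Or.inr ⟨?_, Or.inr (Or.inr rfl), by rw [e4, e1]; decide⟩
    rintro (h | h | h | h)
    · rw [h, e1] at e4; cases e4
    · exact B.nu.yz h.symm
    · rw [h, B.ct] at e4; cases e4
    · exact B.kb h.symm

theorem B10.rb (w : V) : Rm G (flp c {u, a, t, k}) b w ↔ w = u := by
  rw [B.rt B.cb B.nu.yz.symm B.kb.symm]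
  have h1 : ∀ w, ¬ Rm G c b w := mu_zero B.mb
  have h2 := B.ntb
  have h3 : G.Adj u b := (B.nu.nb b).2 (by simp)
  constructor
  · rintro (h | h | h)
    · exact absurd h.1 (h1 w)
    · exact h.1
    · exact absurd h.2 h2
  · intro h
    exact Or.inr (Or.inl ⟨h, h3⟩)

theorem B10.ra (w : V) : Rm G (flp c {u, a, t, k}) a w ↔ w = y := by
  rw [rm_in (by simp), B.na.nb]
  simp only [Finset.mem_insert, Finset.mem_singleton]
  have e1 := B.cy
  have e2 := B.ca
  constructor
  · rintro (⟨h, h'⟩ | ⟨h, rfl | rfl | rfl, h'⟩)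
    · exact absurd h' (mu_zero B.ma w)
    · exact absurd (Or.inl rfl) h
    · exact absurd (Or.inr (Or.inr (Or.inl rfl))) h
    · rfl
  · rintro rfl
    refine Or.inr ⟨?_, by simp, by rw [e1, e2]; decide⟩
    rintro (h | h | h | h)
    · exact B.na.xz h.symm
    · rw [h, e2] at e1; cases e1
    · exact B.na.yz h.symm
    · rw [h, B.ck] at e1; cases e1

theorem B10.rt0 (w : V) : Rm G (flp c {u, a, t, k}) t w ↔ w = q := by
  rw [rm_in (by simp), B.nt.nb]
  simp only [Finset.mem_insert, Finset.mem_singleton]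
  have e1 := B.ct
  have e2 := B.cq
  constructor
  · rintro (⟨h, h'⟩ | ⟨h, rfl | rfl | rfl, h'⟩)
    · rcases (B.nt.nb w).1 h'.1 with h1 | h1 | h1
      · subst h1
        rcases h with h | h | h | h
        · exfalso
          have h2 : G.Adj u t := by
            have := h'.1.symm
            rw [h] at this
            exact this
          rcases (B.nu.nb t).1 h2 with h3 | h3 | h3
          · exact B.tm h3
          · rw [h3, B.ca] at e1; cases e1
          · rw [h3, B.cb] at e1; cases e1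
        · have := B.ct'
          rw [h, B.ca] at this; cases this
        · exact absurd h h'.ne.symm
        · have := B.ct'
          rw [h, B.ck] at this; cases this
      · have := h'.2
        rw [h1, B.ca, e1] at this; cases this
      · exact h1
    · rw [e1, B.ct'] at h'; exact absurd rfl h'
    · exact absurd (Or.inr (Or.inl rfl)) h
    · rfl
  · rintro rfl
    refine Or.inr ⟨?_, by simp, by rw [e1, e2]; decide⟩
    rintro (h | h | h | h)
    · rw [h, B.cu] at e2; cases e2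
    · exact B.qa h
    · rw [h, e1] at e2; cases e2
    · exact B.qk.ne h

theorem B10.rq0 (w : V) : Rm G (flp c {u, a, t, k}) q w ↔ w = t := by
  rw [B.rt B.cq B.qa B.qk.ne]
  have h1 := B.rq w
  have h2 := B.nuq
  have h3 : G.Adj t q := (B.nt.nb q).2 (by simp)
  constructor
  · rintro (h | h | h)
    · exact absurd (h1.1 h.1) h.2.2
    · exact absurd h.2 h2
    · exact h.1
  · intro h
    exact Or.inr (Or.inr ⟨h, h3⟩)

theorem B10.rk (w : V) : Rm G (flp c {u, a, t, k}) k w ↔ w = g1 ∨ w = g2 := by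
  rw [rm_in (by simp), B.nk.nb]
  simp only [Finset.mem_insert, Finset.mem_singleton]
  have e1 := B.ck
  have e2 := B.cg1
  have e3 := B.cg2
  constructor
  · rintro (⟨h, h'⟩ | ⟨h, rfl | h1 | h1, h'⟩)
    · rcases (B.nk.nb w).1 h'.1 with h1 | h1 | h1
      · subst h1
        rcases h with h | h | h | h
        · have := B.cq
          rw [h, B.cu] at this; cases this
        · exact absurd h B.qa
        · have := B.cq
          rw [h, B.ct] at this; cases this
        · exact absurd h h'.ne.symm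
      · exact Or.inl h1
      · exact Or.inr h1
    · rw [B.cq, e1] at h'; exact absurd rfl h'
    · exact Or.inl h1
    · exact Or.inr h1
  · rintro (rfl | rfl)
    · refine Or.inr ⟨?_, by simp, by rw [e2, e1]; decide⟩
      rintro (h | h | h | h)
      · exact B.g1u h
      · rw [h, B.ca] at e2; cases e2
      · exact B.g1t h
      · rw [h, e1] at e2; cases e2
    · refine Or.inr ⟨?_, by simp, by rw [e3, e1]; decide⟩
      rintro (h | h | h | h)
      · exact B.swap.g1u h
      · rw [h, B.ca] at e3; cases e3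
      · exact B.swap.g1t h
      · rw [h, e1] at e3; cases e3

theorem B10.ry (yg1 : y ≠ g1) (yg2 : y ≠ g2) (hy : ∀ w, Rm G c y w → w = u ∨ w = t) (w : V) :
    Rm G (flp c {u, a, t, k}) y w ↔ w = a := by
  rw [B.rf B.cy B.na.xz.symm B.na.yz.symm]
  have h1 : G.Adj a y := (B.na.nb y).2 (by simp)
  have h2 : ¬ G.Adj k y := by
    intro h
    rcases (B.nk.nb y).1 h with h3 | h3 | h3
    · have := B.cy
      rw [h3, B.cq] at this; cases this
    · exact yg1 h3
    · exact yg2 h3
  constructor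
  · rintro (h | h | h)
    · rcases hy w h.1 with h3 | h3
      · exact absurd h3 h.2.1
      · exact absurd h3 h.2.2
    · exact h.1
    · exact absurd h.2 h2
  · intro h
    exact Or.inr (Or.inl ⟨h, h1⟩)

theorem B10.rg (yg1 : y ≠ g1) (w : V) : Rm G (flp c {u, a, t, k}) g1 w ↔ w = k ∨ (Rm G c g1 w ∧ w ≠ u ∧ w ≠ t) := by
  rw [B.rf B.cg1 B.g1u B.g1t]
  have h1 : G.Adj k g1 := (B.nk.nb g1).2 (by simp)
  have h2 : ¬ G.Adj a g1 := by
    intro h
    rcases (B.na.nb g1).1 h with h3 | h3 | h3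
    · exact B.g1u h3
    · exact B.g1t h3
    · exact yg1 h3.symm
  constructor
  · rintro (h | h | h)
    · exact Or.inr h
    · exact absurd h.2 h2
    · exact Or.inl h.1
  · rintro (h | h)
    · exact Or.inr (Or.inr ⟨h, h1⟩)
    · exact Or.inl h

theorem B10.dd0 : dd c {u, a, t, k} = 0 := by
  have h1 : u ∉ ({a, t, k} : Finset V) := by
    simp only [Finset.mem_insert, Finset.mem_singleton, not_or]
    refine ⟨?_, B.ut, ?_⟩
    · rintro rfl
      have := B.cu
      rw [B.ca] at this; cases this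
    · rintro rfl
      have := B.cu
      rw [B.ck] at this; cases this
  have h2 : a ∉ ({t, k} : Finset V) := by
    simp only [Finset.mem_insert, Finset.mem_singleton, not_or]
    refine ⟨?_, B.ka.symm⟩
    rintro rfl
    have := B.ct
    rw [B.ca] at this; cases this
  have h3 : t ∉ ({k} : Finset V) := by
    simp only [Finset.mem_singleton]
    rintro rfl
    have := B.ct
    rw [B.ck] at this; cases this
  unfold dd
  rw [Finset.sum_insert h1, Finset.sum_insert h2, Finset.sum_insert h3, Finset.sum_singleton,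
    B.cu, B.ca, B.ct, B.ck]
  simp

theorem B10.cg1' : flp c {u, a, t, k} g1 = false := by
  rw [flp_not, B.cg1]
  simp only [Finset.mem_insert, Finset.mem_singleton, not_or]
  refine ⟨B.g1u, ?_, B.g1t, ?_⟩
  · rintro rfl
    have := B.cg1
    rw [B.ca] at this; cases this
  · rintro rfl
    have := B.cg1
    rw [B.ck] at this; cases this

end lists

section state

variable {c c' : V → Bool} {H : Finset V} {e : ℤ} {Lp Ln : List Sh}
variable {u m a b t t' q k y g1 g2 : V}

/-- transport to the current colouring -/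
theorem Sq.b10 (S : Sq G c c' H e Lp Ln) (B : B10 G c u m a b t t' q k y g1 g2)
    (hl : ∀ v ∈ cn G {u, a, t, k}, v ∉ H) :
    B10 G c' u m a b t t' q k y g1 g2 ∧ u ∉ H ∧ b ∉ H ∧ a ∉ H ∧ y ∉ H ∧ t ∉ H ∧ q ∉ H ∧ k ∉ H ∧
      g1 ∉ H ∧ g2 ∉ H := by
  have hn : ∀ z ∈ ({u, a, t, k} : Finset V), ∀ v, G.Adj z v → v ∉ H :=
    fun z hz v hv => hl v (mem_cn.2 (Or.inr ⟨z, hz, hv.symm⟩))
  have h0 : ∀ z ∈ ({u, a, t, k} : Finset V), z ∉ H := fun z hz => hl z (mem_cn.2 (Or.inl hz))
  have hu := h0 u (by simp)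
  have ha := h0 a (by simp)
  have ht := h0 t (by simp)
  have hk := h0 k (by simp)
  have hm := hn u (by simp) m ((B.nu.nb m).2 (by simp))
  have hb := hn u (by simp) b ((B.nu.nb b).2 (by simp))
  have hy := hn a (by simp) y ((B.na.nb y).2 (by simp))
  have ht' := hn t (by simp) t' ((B.nt.nb t').2 (by simp))
  have hq := hn t (by simp) q ((B.nt.nb q).2 (by simp))
  have hg1 := hn k (by simp) g1 ((B.nk.nb g1).2 (by simp))
  have hg2 := hn k (by simp) g2 ((B.nk.nb g2).2 (by simp))
  refine ⟨⟨?_, ?_, ?_, ?_, ?_, ?_, ?_, ?_, ?_, ?_, ?_, B.nu, B.na, B.nt, B.nk, S.mu0 hb B.mb, ?_,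
    B.tm⟩, hu, hb, ha, hy, ht, hq, hk, hg1, hg2⟩
  · rw [S.eq u hu, B.cu]
  · rw [S.eq m hm, B.cm]
  · rw [S.eq a ha, B.ca]
  · rw [S.eq b hb, B.cb]
  · rw [S.eq t ht, B.ct]
  · rw [S.eq t' ht', B.ct']
  · rw [S.eq q hq, B.cq]
  · rw [S.eq k hk, B.ck]
  · rw [S.eq y hy, B.cy]
  · rw [S.eq g1 hg1, B.cg1]
  · rw [S.eq g2 hg2, B.cg2]
  · intro w
    rw [S.rm_t hq B.cq, B.rq]

/-- `B10` with a `P3` of colour `false` -/
theorem Sq.opB3 (S : Sq G c c' H e Lp Ln) (B : B10 G c u m a b t t' q k y g1 g2)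
    (hl : ∀ v ∈ cn G {u, a, t, k}, v ∉ H) (yg1 : y ≠ g1) (yg2 : y ≠ g2)
    (hy : ∀ w, Rm G c y w → w ∈ H ∨ w = u ∨ w = t)
    (h1 : ∀ w, Rm G c g1 w → w ∈ H ∨ w = u ∨ w = t)
    (h2 : ∀ w, Rm G c g2 w → w ∈ H ∨ w = u ∨ w = t) :
    Sq G c (flp c' {u, a, t, k}) (H ∪ {u, b, a, y, t, q, g1, k, g2}) e Lp (.p3 :: Ln) := by
  obtain ⟨B', nu, nb, na, ny, nt, nq, nk, ng1, ng2⟩ := S.b10 B hl
  have res : ∀ {v : V}, v ∉ H → (∀ w, Rm G c v w → w ∈ H ∨ w = u ∨ w = t) →
      ∀ w, Rm G c' v w → w = u ∨ w = t := by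
    intro v hv h w hw
    obtain ⟨a1, a2⟩ := (S.rm hv w).1 hw
    rcases h w a1 with h3 | h3
    · exact absurd h3 a2
    · exact h3
  have Ry := B'.ry yg1 yg2 (res ny hy)
  have Rg1 : ∀ w, Rm G (flp c' {u, a, t, k}) g1 w ↔ w = k := by
    intro w
    rw [B'.rg yg1]
    have := res ng1 h1 w
    tauto
  have Rg2 : ∀ w, Rm G (flp c' {u, a, t, k}) g2 w ↔ w = k := by
    intro w
    rw [B'.swap.rg yg2]
    have := res ng2 h2 w
    tauto
  have E : Ext G c c' H {u, a, t, k} {u, b, a, y, t, q, g1, k, g2} := by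
    refine ⟨?_, ?_, fun z hz v hv => hl v (mem_cn.2 (Or.inr ⟨z, hz, hv.symm⟩)), ?_, ?_⟩
    · intro v hv
      simp only [Finset.mem_insert, Finset.mem_singleton] at hv ⊢
      tauto
    · intro v hv
      simp only [Finset.mem_insert, Finset.mem_singleton] at hv
      rcases hv with rfl | rfl | rfl | rfl | rfl | rfl | rfl | rfl | rfl <;> assumption
    · intro v hv w hw
      simp only [Finset.mem_insert, Finset.mem_singleton] at hv ⊢
      rcases hv with rfl | rfl | rfl | rfl | rfl | rfl | rfl | rfl | rfl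
      · have := (B'.ru w).1 hw; tauto
      · have := (B'.rb w).1 hw; tauto
      · have := (B'.ra w).1 hw; tauto
      · have := (Ry w).1 hw; tauto
      · have := (B'.rt0 w).1 hw; tauto
      · have := (B'.rq0 w).1 hw; tauto
      · have := (Rg1 w).1 hw; tauto
      · have := (B'.rk w).1 hw; tauto
      · have := (Rg2 w).1 hw; tauto
    · intro v w hv cv hw
      have hq : ∀ w, Rm G c k w → w = q := fun w h => rm_uniq (S.one k) h B.qk.symm
      simp only [Finset.mem_insert, Finset.mem_singleton] at hv ⊢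
      rcases hv with rfl | rfl | rfl | rfl | rfl | rfl | rfl | rfl | rfl
      · rw [B.cu] at cv; cases cv
      · exact absurd hw (mu_zero B.mb w)
      · exact absurd hw (mu_zero B.ma w)
      · rw [B.cy] at cv; cases cv
      · rw [B.ct] at cv; cases cv
      · have := (B.rq w).1 hw; tauto
      · rw [B.cg1] at cv; cases cv
      · have := hq w hw; tauto
      · rw [B.cg2] at cv; cases cv
  have h := S.stepN E B'.dd0 .p3 (g := ![g1, k, g2]) (comp3 B.nk.yz B'.cg1' Rg1 B'.rk Rg2) ?_ ?_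
  · rw [sub_zero] at h
    exact h
  · intro i
    fin_cases i <;> simp [Sh.k]
  · intro v hv h
    have h0 : v ≠ g1 := h (0 : Fin 3)
    have h1 : v ≠ k := h (1 : Fin 3)
    have h2 : v ≠ g2 := h (2 : Fin 3)
    simp only [Finset.mem_insert, Finset.mem_singleton] at hv
    rcases hv with rfl | rfl | rfl | rfl | rfl | rfl | rfl | rfl | rfl
    · exact mu_le_one fun w hw => (B'.ru w).1 hw
    · exact mu_le_one fun w hw => (B'.rb w).1 hw
    · exact mu_le_one fun w hw => (B'.ra w).1 hw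
    · exact mu_le_one fun w hw => (Ry w).1 hw
    · exact mu_le_one fun w hw => (B'.rt0 w).1 hw
    · exact mu_le_one fun w hw => (B'.rq0 w).1 hw
    · exact absurd rfl h0
    · exact absurd rfl h1
    · exact absurd rfl h2

/-- `B10` with a `P4` of colour `false`: `g2` has the mate `h` -/
theorem Sq.opB4 (S : Sq G c c' H e Lp Ln) (B : B10 G c u m a b t t' q k y g1 g2)
    (hl : ∀ v ∈ cn G {u, a, t, k}, v ∉ H) (yg1 : y ≠ g1) (yg2 : y ≠ g2)
    (hy : ∀ w, Rm G c y w → w ∈ H ∨ w = u ∨ w = t)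
    (h1 : ∀ w, Rm G c g1 w → w ∈ H ∨ w = u ∨ w = t) {h : V}
    (hh : Rm G c g2 h) (hhH : h ∉ H) (hhu : h ≠ u) (hht : h ≠ t) :
    Sq G c (flp c' {u, a, t, k}) (H ∪ {u, b, a, y, t, q, g1, k, g2, h}) e Lp (.p4 :: Ln) := by
  obtain ⟨B', nu, nb, na, ny, nt, nq, nk, ng1, ng2⟩ := S.b10 B hl
  have res : ∀ {v : V}, v ∉ H → (∀ w, Rm G c v w → w ∈ H ∨ w = u ∨ w = t) →
      ∀ w, Rm G c' v w → w = u ∨ w = t := by
    intro v hv h w hw
    obtain ⟨a1, a2⟩ := (S.rm hv w).1 hw
    rcases h w a1 with h3 | h3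
    · exact absurd h3 a2
    · exact h3
  have ch : c h = false := by rw [hh.2, B.cg2]
  have ch' : c' h = false := by rw [S.eq h hhH, ch]
  have hh' : Rm G c' g2 h := (S.rm ng2 h).2 ⟨hh, hhH⟩
  have Rg20 : ∀ w, Rm G c' g2 w ↔ w = h :=
    fun w => ⟨fun h3 => rm_uniq (S.mu_out ng2) h3 hh', fun h3 => h3 ▸ hh'⟩
  have Rh0 : ∀ w, Rm G c' h w ↔ w = g2 :=
    fun w => ⟨fun h3 => rm_uniq (S.mu_out hhH) h3 hh'.symm, fun h3 => h3 ▸ hh'.symm⟩
  have nhy : h ≠ y := by
    rintro rfl
    rcases res ny hy g2 hh'.symm with h3 | h3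
    · exact B.swap.g1u h3
    · exact B.swap.g1t h3
  have nhg1 : h ≠ g1 := by
    rintro rfl
    rcases res ng1 h1 g2 hh'.symm with h3 | h3
    · exact B.swap.g1u h3
    · exact B.swap.g1t h3
  have nah : ¬ G.Adj a h := by
    intro h3
    rcases (B.na.nb h).1 h3 with h4 | h4 | h4
    · exact hhu h4
    · exact hht h4
    · exact nhy h4
  have nkh : ¬ G.Adj k h := by
    intro h3
    rcases (B.nk.nb h).1 h3 with h4 | h4 | h4
    · rw [h4, B.cq] at ch; cases ch
    · exact nhg1 h4
    · exact hh.ne h4.symm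
  have Ry := B'.ry yg1 yg2 (res ny hy)
  have Rg1 : ∀ w, Rm G (flp c' {u, a, t, k}) g1 w ↔ w = k := by
    intro w
    rw [B'.rg yg1]
    have := res ng1 h1 w
    tauto
  have Rg2 : ∀ w, Rm G (flp c' {u, a, t, k}) g2 w ↔ w = k ∨ w = h := by
    intro w
    rw [B'.swap.rg yg2, Rg20]
    constructor
    · rintro (h3 | h3)
      · exact Or.inl h3
      · exact Or.inr h3.1
    · rintro (h3 | h3)
      · exact Or.inl h3
      · exact Or.inr ⟨h3, h3 ▸ hhu, h3 ▸ hht⟩
  have Rh : ∀ w, Rm G (flp c' {u, a, t, k}) h w ↔ w = g2 := by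
    intro w
    rw [B'.rf ch' hhu hht, Rh0]
    constructor
    · rintro (h3 | h3 | h3)
      · exact h3.1
      · exact absurd h3.2 nah
      · exact absurd h3.2 nkh
    · intro h3
      exact Or.inl ⟨h3, h3 ▸ B.swap.g1u, h3 ▸ B.swap.g1t⟩
  have nkh' : k ≠ h := by
    rintro rfl
    rw [B.ck] at ch; cases ch
  have E : Ext G c c' H {u, a, t, k} {u, b, a, y, t, q, g1, k, g2, h} := by
    refine ⟨?_, ?_, fun z hz v hv => hl v (mem_cn.2 (Or.inr ⟨z, hz, hv.symm⟩)), ?_, ?_⟩
    · intro v hv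
      simp only [Finset.mem_insert, Finset.mem_singleton] at hv ⊢
      tauto
    · intro v hv
      simp only [Finset.mem_insert, Finset.mem_singleton] at hv
      rcases hv with rfl | rfl | rfl | rfl | rfl | rfl | rfl | rfl | rfl | rfl <;> assumption
    · intro v hv w hw
      simp only [Finset.mem_insert, Finset.mem_singleton] at hv ⊢
      rcases hv with rfl | rfl | rfl | rfl | rfl | rfl | rfl | rfl | rfl | rfl
      · have := (B'.ru w).1 hw; tauto
      · have := (B'.rb w).1 hw; tauto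
      · have := (B'.ra w).1 hw; tauto
      · have := (Ry w).1 hw; tauto
      · have := (B'.rt0 w).1 hw; tauto
      · have := (B'.rq0 w).1 hw; tauto
      · have := (Rg1 w).1 hw; tauto
      · have := (B'.rk w).1 hw; tauto
      · have := (Rg2 w).1 hw; tauto
      · have := (Rh w).1 hw; tauto
    · intro v w hv cv hw
      have hq : ∀ w, Rm G c k w → w = q := fun w h => rm_uniq (S.one k) h B.qk.symm
      simp only [Finset.mem_insert, Finset.mem_singleton] at hv ⊢
      rcases hv with rfl | rfl | rfl | rfl | rfl | rfl | rfl | rfl | rfl | rfl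
      · rw [B.cu] at cv; cases cv
      · exact absurd hw (mu_zero B.mb w)
      · exact absurd hw (mu_zero B.ma w)
      · rw [B.cy] at cv; cases cv
      · rw [B.ct] at cv; cases cv
      · have := (B.rq w).1 hw; tauto
      · rw [B.cg1] at cv; cases cv
      · have := hq w hw; tauto
      · rw [B.cg2] at cv; cases cv
      · rw [ch] at cv; cases cv
  have hst := S.stepN E B'.dd0 .p4 (g := ![g1, k, g2, h])
    (comp4 B.nk.yz nkh' B'.cg1' Rg1 B'.rk Rg2 Rh) ?_ ?_
  · rw [sub_zero] at hst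
    exact hst
  · intro i
    fin_cases i <;> simp [Sh.k]
  · intro v hv h3
    have h0 : v ≠ g1 := h3 (0 : Fin 4)
    have h1 : v ≠ k := h3 (1 : Fin 4)
    have h2 : v ≠ g2 := h3 (2 : Fin 4)
    have h4 : v ≠ h := h3 (3 : Fin 4)
    simp only [Finset.mem_insert, Finset.mem_singleton] at hv
    rcases hv with rfl | rfl | rfl | rfl | rfl | rfl | rfl | rfl | rfl | rfl
    · exact mu_le_one fun w hw => (B'.ru w).1 hw
    · exact mu_le_one fun w hw => (B'.rb w).1 hw
    · exact mu_le_one fun w hw => (B'.ra w).1 hw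
    · exact mu_le_one fun w hw => (Ry w).1 hw
    · exact mu_le_one fun w hw => (B'.rt0 w).1 hw
    · exact mu_le_one fun w hw => (B'.rq0 w).1 hw
    · exact absurd rfl h0
    · exact absurd rfl h1
    · exact absurd rfl h2
    · exact absurd rfl h4

end state

end Pool.Agent.Helper6.MC
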