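import Pool.Agent.Helper6.MC.Seq
import Pool.Agent.Helper64.MC.St1

/-!
MP_4042d8_co: sequential frame, the operations `N`, `M`, `L5`, `LK`, `U3`, `U4`, `U5`, `UK` in a
state.
-/

set_option autoImplicit false
set_option linter.unusedSectionVars false
set_option linter.unusedSimpArgs false
set_option linter.unusedVariables false

namespace Pool.Agent.Helper6.MC

open Pool.Agent.Helper27.MC Pool.Agent.Helper51.MC Pool.Agent.Helper88.MC Pool.Agent.Helper64.MC

variable {V : Type} [Fintype V] [DecidableEq V] {G : SimpleGraph V} [DecidableRel G.Adj]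

variable (G) in
/-- `x` has no mate except possibly `u` or a member of `H` -/
def Bare (c : V → Bool) (H : Finset V) (u x : V) : Prop := ∀ w, Rm G c x w → w ∈ H ∨ w = u

section ops

variable {c c' : V → Bool} {H : Finset V} {e : ℤ} {Lp Ln : List Sh}

theorem Sq.bare (S : Sq G c c' H e Lp Ln) {u x : V} (hx : x ∉ H) (hb : Bare G c H u x) (w : V)
    (hw : Rm G c' x w) : w = u := by
  obtain ⟨h1, h2⟩ := (S.rm hx w).1 hw
  rcases hb w h1 with h | h
  · exact absurd h h2
  · exact h

section L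

variable {u m a b x y : V}

/-- slots are slots of the current colouring -/
theorem Sq.slot (S : Sq G c c' H e Lp Ln) (hs : Slot G c u m a b x y)
    (hl : ∀ v ∈ cn G {u, a}, v ∉ H) : Slot G c' u m a b x y := by
  have h1 : u ∉ H := hl u ((L_mem hs u).2 (by simp))
  have h2 : m ∉ H := hl m ((L_mem hs m).2 (by simp))
  have h3 : a ∉ H := hl a ((L_mem hs a).2 (by simp))
  have h4 : b ∉ H := hl b ((L_mem hs b).2 (by simp))
  refine ⟨?_, ?_, ?_, ?_, S.mu0 h3 hs.ma, S.mu0 h4 hs.mb, hs.hab, hs.nbu, hs.nba, hs.hxy, hs.hxu,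
    hs.hyu⟩
  · rw [S.eq u h1, hs.cu]
  · rw [S.eq m h2, hs.cm]
  · rw [S.eq a h3, hs.ca]
  · rw [S.eq b h4, hs.cb]

theorem slot_nX (hl : ∀ v ∈ cn G {u, a}, v ∉ H) :
    ∀ z ∈ ({u, a} : Finset V), ∀ v, G.Adj z v → v ∉ H :=
  fun z hz v hv => hl v (mem_cn.2 (Or.inr ⟨z, hz, hv.symm⟩))

/-- the `P2` of colour `true` -/
theorem L_b {c : V → Bool} (S : Slot G c u m a b x y) (w : V) :
    Rm G (flp c {u, a}) b w ↔ w = u := by
  rw [L_t S S.cb S.hab.symm]
  have h1 := nomate S.mb w
  have h2 : G.Adj u b := (S.nbu b).2 (by simp)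
  tauto

/-- `N(u,a)` -/
theorem Sq.opN (S : Sq G c c' H e Lp Ln) (hs : Slot G c u m a b x y)
    (hl : ∀ v ∈ cn G {u, a}, v ∉ H) (hx : Bare G c H u x) (hy : Bare G c H u y) :
    Sq G c (flp c' {u, a}) (H ∪ {u, b, x, a, y}) e Lp (.p3 :: Ln) := by
  have s := S.slot hs hl
  have nu : u ∉ H := hl u ((L_mem hs u).2 (by simp))
  have na : a ∉ H := hl a ((L_mem hs a).2 (by simp))
  have nb : b ∉ H := hl b ((L_mem hs b).2 (by simp))
  have nx : x ∉ H := hl x ((L_mem hs x).2 (by simp))
  have ny : y ∉ H := hl y ((L_mem hs y).2 (by simp))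
  have Rx : ∀ w, Rm G (flp c' {u, a}) x w ↔ w = a := by
    intro w
    rw [L_x s]
    have := S.bare nx hx w
    tauto
  have Ry : ∀ w, Rm G (flp c' {u, a}) y w ↔ w = a := by
    intro w
    rw [L_x s.symm]
    have := S.bare ny hy w
    tauto
  have E : Ext G c c' H {u, a} {u, b, x, a, y} := by
    refine ⟨?_, ?_, slot_nX hl, ?_, ?_⟩
    · intro v hv
      simp only [Finset.mem_insert, Finset.mem_singleton] at hv ⊢
      tauto
    · intro v hv
      simp only [Finset.mem_insert, Finset.mem_singleton] at hv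
      rcases hv with rfl | rfl | rfl | rfl | rfl <;> assumption
    · intro v hv w hw
      simp only [Finset.mem_insert, Finset.mem_singleton] at hv ⊢
      rcases hv with rfl | rfl | rfl | rfl | rfl
      · have := (L_u s w).1 hw; tauto
      · have := (L_b s w).1 hw; tauto
      · have := (Rx w).1 hw; tauto
      · have := (L_a s w).1 hw; tauto
      · have := (Ry w).1 hw; tauto
    · intro v w hv cv hw
      simp only [Finset.mem_insert, Finset.mem_singleton] at hv
      rcases hv with rfl | rfl | rfl | rfl | rfl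
      · rw [hs.cu] at cv; cases cv
      · exact absurd hw (nomate hs.mb w)
      · rw [hs.cx] at cv; cases cv
      · exact absurd hw (nomate hs.ma w)
      · rw [hs.cy] at cv; cases cv
  have h := S.stepN E (L_dd s) .p3 (g := ![x, a, y]) (comp3 hs.hxy (L_cx s) Rx (L_a s) Ry) ?_ ?_
  · rw [sub_zero] at h
    exact h
  · intro i
    fin_cases i <;> simp [Sh.k]
  · intro v hv h
    have h0 : v ≠ x := h (0 : Fin 3)
    have h1 : v ≠ a := h (1 : Fin 3)
    have h2 : v ≠ y := h (2 : Fin 3)
    simp only [Finset.mem_insert, Finset.mem_singleton] at hv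
    rcases hv with rfl | rfl | rfl | rfl | rfl
    · exact mu_le_one fun w hw => (L_u s w).1 hw
    · exact mu_le_one fun w hw => (L_b s w).1 hw
    · exact absurd rfl h0
    · exact absurd rfl h1
    · exact absurd rfl h2

/-- `M(u,a)` -/
theorem Sq.opM (S : Sq G c c' H e Lp Ln) (hs : Slot G c u m a b x y)
    (hl : ∀ v ∈ cn G {u, a}, v ∉ H) (hx : Bare G c H u x) {r : V} (hr : Rm G c y r) (hru : r ≠ u)
    (hrH : r ∉ H) :
    Sq G c (flp c' {u, a}) (H ∪ {u, b, x, a, y, r}) e Lp (.p4 :: Ln) := by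
  have s := S.slot hs hl
  have nu : u ∉ H := hl u ((L_mem hs u).2 (by simp))
  have na : a ∉ H := hl a ((L_mem hs a).2 (by simp))
  have nb : b ∉ H := hl b ((L_mem hs b).2 (by simp))
  have nx : x ∉ H := hl x ((L_mem hs x).2 (by simp))
  have ny : y ∉ H := hl y ((L_mem hs y).2 (by simp))
  have cr0 : c r = false := by rw [hr.2, hs.cy]
  have hr' : Rm G c' y r := (S.rm ny r).2 ⟨hr, hrH⟩
  have cr : c' r = false := by rw [S.eq r hrH, cr0]
  have Ry0 : ∀ w, Rm G c' y w ↔ w = r :=
    fun w => ⟨fun h => rm_uniq (S.mu_out ny) h hr', fun h => h ▸ hr'⟩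
  have Rr0 : ∀ w, Rm G c' r w ↔ w = y :=
    fun w => ⟨fun h => rm_uniq (S.mu_out hrH) h hr'.symm, fun h => h ▸ hr'.symm⟩
  have nar : ¬ G.Adj a r := by
    rw [s.nba]
    rintro (h | rfl | rfl)
    · exact hru h
    · exact s.hyu (S.bare nx hx y hr'.symm)
    · exact hr.ne rfl
  have Rx : ∀ w, Rm G (flp c' {u, a}) x w ↔ w = a := by
    intro w
    rw [L_x s]
    have := S.bare nx hx w
    tauto
  have Ry : ∀ w, Rm G (flp c' {u, a}) y w ↔ w = a ∨ w = r := by
    intro w
    rw [L_x s.symm, Ry0]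
    constructor
    · rintro (h | h)
      · exact Or.inr h.1
      · exact Or.inl h
    · rintro (h | h)
      · exact Or.inr h
      · exact Or.inl ⟨h, h ▸ hru⟩
  have Rr : ∀ w, Rm G (flp c' {u, a}) r w ↔ w = y := by
    intro w
    rw [L_f s cr hru, Rr0]
    constructor
    · rintro (h | h)
      · exact h.1
      · exact absurd h.2 nar
    · intro h
      exact Or.inl ⟨h, h ▸ s.hyu⟩
  have har : a ≠ r := by
    rintro rfl
    rw [s.ca] at cr; cases cr
  have E : Ext G c c' H {u, a} {u, b, x, a, y, r} := by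
    refine ⟨?_, ?_, slot_nX hl, ?_, ?_⟩
    · intro v hv
      simp only [Finset.mem_insert, Finset.mem_singleton] at hv ⊢
      tauto
    · intro v hv
      simp only [Finset.mem_insert, Finset.mem_singleton] at hv
      rcases hv with rfl | rfl | rfl | rfl | rfl | rfl <;> assumption
    · intro v hv w hw
      simp only [Finset.mem_insert, Finset.mem_singleton] at hv ⊢
      rcases hv with rfl | rfl | rfl | rfl | rfl | rfl
      · have := (L_u s w).1 hw; tauto
      · have := (L_b s w).1 hw; tauto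
      · have := (Rx w).1 hw; tauto
      · have := (L_a s w).1 hw; tauto
      · have := (Ry w).1 hw; tauto
      · have := (Rr w).1 hw; tauto
    · intro v w hv cv hw
      simp only [Finset.mem_insert, Finset.mem_singleton] at hv
      rcases hv with rfl | rfl | rfl | rfl | rfl | rfl
      · rw [hs.cu] at cv; cases cv
      · exact absurd hw (nomate hs.mb w)
      · rw [hs.cx] at cv; cases cv
      · exact absurd hw (nomate hs.ma w)
      · rw [hs.cy] at cv; cases cv
      · rw [cr0] at cv; cases cv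
  have h := S.stepN E (L_dd s) .p4 (g := ![x, a, y, r]) (comp4 hs.hxy har (L_cx s) Rx (L_a s) Ry Rr)
    ?_ ?_
  · rw [sub_zero] at h
    exact h
  · intro i
    fin_cases i <;> simp [Sh.k]
  · intro v hv h
    have h0 : v ≠ x := h (0 : Fin 4)
    have h1 : v ≠ a := h (1 : Fin 4)
    have h2 : v ≠ y := h (2 : Fin 4)
    have h3 : v ≠ r := h (3 : Fin 4)
    simp only [Finset.mem_insert, Finset.mem_singleton] at hv
    rcases hv with rfl | rfl | rfl | rfl | rfl | rfl
    · exact mu_le_one fun w hw => (L_u s w).1 hw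
    · exact mu_le_one fun w hw => (L_b s w).1 hw
    · exact absurd rfl h0
    · exact absurd rfl h1
    · exact absurd rfl h2
    · exact absurd rfl h3

/-- `LK(u,a)`: the two other neighbours of `a` are mates -/
theorem Sq.opLK (S : Sq G c c' H e Lp Ln) (hs : Slot G c u m a b x y)
    (hl : ∀ v ∈ cn G {u, a}, v ∉ H) (hxy : Rm G c x y) :
    Sq G c (flp c' {u, a}) (H ∪ {u, b, a, x, y}) e Lp (.k3 :: Ln) := by
  have s := S.slot hs hl
  have nu : u ∉ H := hl u ((L_mem hs u).2 (by simp))
  have na : a ∉ H := hl a ((L_mem hs a).2 (by simp))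
  have nb : b ∉ H := hl b ((L_mem hs b).2 (by simp))
  have nx : x ∉ H := hl x ((L_mem hs x).2 (by simp))
  have ny : y ∉ H := hl y ((L_mem hs y).2 (by simp))
  have h' : Rm G c' x y := (S.rm nx y).2 ⟨hxy, ny⟩
  have Rx0 : ∀ w, Rm G c' x w ↔ w = y :=
    fun w => ⟨fun h => rm_uniq (S.mu_out nx) h h', fun h => h ▸ h'⟩
  have Ry0 : ∀ w, Rm G c' y w ↔ w = x :=
    fun w => ⟨fun h => rm_uniq (S.mu_out ny) h h'.symm, fun h => h ▸ h'.symm⟩
  have Rx : ∀ w, Rm G (flp c' {u, a}) x w ↔ w = a ∨ w = y := by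
    intro w
    rw [L_x s, Rx0]
    constructor
    · rintro (h | h)
      · exact Or.inr h.1
      · exact Or.inl h
    · rintro (h | h)
      · exact Or.inr h
      · exact Or.inl ⟨h, h ▸ s.hyu⟩
  have Ry : ∀ w, Rm G (flp c' {u, a}) y w ↔ w = a ∨ w = x := by
    intro w
    rw [L_x s.symm, Ry0]
    constructor
    · rintro (h | h)
      · exact Or.inr h.1
      · exact Or.inl h
    · rintro (h | h)
      · exact Or.inr h
      · exact Or.inl ⟨h, h ▸ s.hxu⟩
  have hax : a ≠ x := ((s.nba x).2 (by simp)).ne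
  have hay : a ≠ y := ((s.nba y).2 (by simp)).ne
  have E : Ext G c c' H {u, a} {u, b, a, x, y} := by
    refine ⟨?_, ?_, slot_nX hl, ?_, ?_⟩
    · intro v hv
      simp only [Finset.mem_insert, Finset.mem_singleton] at hv ⊢
      tauto
    · intro v hv
      simp only [Finset.mem_insert, Finset.mem_singleton] at hv
      rcases hv with rfl | rfl | rfl | rfl | rfl <;> assumption
    · intro v hv w hw
      simp only [Finset.mem_insert, Finset.mem_singleton] at hv ⊢
      rcases hv with rfl | rfl | rfl | rfl | rfl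
      · have := (L_u s w).1 hw; tauto
      · have := (L_b s w).1 hw; tauto
      · have := (L_a s w).1 hw; tauto
      · have := (Rx w).1 hw; tauto
      · have := (Ry w).1 hw; tauto
    · intro v w hv cv hw
      simp only [Finset.mem_insert, Finset.mem_singleton] at hv
      rcases hv with rfl | rfl | rfl | rfl | rfl
      · rw [hs.cu] at cv; cases cv
      · exact absurd hw (nomate hs.mb w)
      · exact absurd hw (nomate hs.ma w)
      · rw [hs.cx] at cv; cases cv
      · rw [hs.cy] at cv; cases cv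
  have h := S.stepN E (L_dd s) .k3 (g := ![a, x, y]) (compK hax h'.ne hay (L_ca s) (L_a s) Rx Ry)
    ?_ ?_
  · rw [sub_zero] at h
    exact h
  · intro i
    fin_cases i <;> simp [Sh.k]
  · intro v hv h
    have h0 : v ≠ a := h (0 : Fin 3)
    have h1 : v ≠ x := h (1 : Fin 3)
    have h2 : v ≠ y := h (2 : Fin 3)
    simp only [Finset.mem_insert, Finset.mem_singleton] at hv
    rcases hv with rfl | rfl | rfl | rfl | rfl
    · exact mu_le_one fun w hw => (L_u s w).1 hw
    · exact mu_le_one fun w hw => (L_b s w).1 hw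
    · exact absurd rfl h0
    · exact absurd rfl h1
    · exact absurd rfl h2

end L

section U

variable {s m a b : V}

theorem u_nX (hl : ∀ v ∈ cn G {s}, v ∉ H) : ∀ z ∈ ({s} : Finset V), ∀ v, G.Adj z v → v ∉ H :=
  fun z hz v hv => hl v (mem_cn.2 (Or.inr ⟨z, hz, hv.symm⟩))

/-- data of a vertex in the state -/
theorem Sq.udat (S : Sq G c c' H e Lp Ln) (hs : Sv G c s m a b) (hl : ∀ v ∈ cn G {s}, v ∉ H) :
    Sv G c' s m a b ∧ s ∉ H ∧ a ∉ H ∧ b ∉ H := by
  have h0 : s ∉ H := hl s (mem_cn.2 (Or.inl (by simp)))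
  have hn : ∀ v, G.Adj s v → v ∉ H := u_nX hl s (by simp)
  have hm : m ∉ H := hn m ((hs.n3.nb m).2 (by simp))
  have ha : a ∉ H := hn a ((hs.n3.nb a).2 (by simp))
  have hb : b ∉ H := hn b ((hs.n3.nb b).2 (by simp))
  refine ⟨⟨?_, ?_, ?_, ?_, hs.n3⟩, h0, ha, hb⟩
  · rw [S.eq s h0, hs.cs]
  · rw [S.eq m hm, hs.cm]
  · rw [S.eq a ha, hs.ca]
  · rw [S.eq b hb, hs.cb]

/-- `U(s)`, `s` free -/
theorem Sq.opU3 (S : Sq G c c' H e Lp Ln) (hs : Sv G c s m a b) (ha : mu G c a = 0)
    (hb : mu G c b = 0) (hl : ∀ v ∈ cn G {s}, v ∉ H) :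
    Sq G c (flp c' {s}) (H ∪ {a, s, b}) (e - 1) (.p3 :: Lp) Ln := by
  obtain ⟨t, ns, na, nb⟩ := S.udat hs hl
  have ma := S.mu0 na ha
  have mb := S.mu0 nb hb
  have Rs := U_s t.cs t.n3.nb t.cm t.ca t.cb
  have Ra : ∀ w, Rm G (flp c' {s}) a w ↔ w = s := by
    intro w
    rw [U_t t.cs t.ca, t.n3.nb]
    have := nomate ma w
    tauto
  have Rb : ∀ w, Rm G (flp c' {s}) b w ↔ w = s := by
    intro w
    rw [U_t t.cs t.cb, t.n3.nb]
    have := nomate mb w
    tauto
  have cs : flp c' {s} s = true := by rw [flp_in (Finset.mem_singleton_self s), t.cs]; rfl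
  have ca' : flp c' {s} a = true := by
    have := ((Ra s).2 rfl).2
    rw [← this, cs]
  have E : Ext G c c' H {s} {a, s, b} := by
    refine ⟨?_, ?_, u_nX hl, ?_, ?_⟩
    · intro v hv
      simp only [Finset.mem_insert, Finset.mem_singleton] at hv ⊢
      tauto
    · intro v hv
      simp only [Finset.mem_insert, Finset.mem_singleton] at hv
      rcases hv with rfl | rfl | rfl <;> assumption
    · intro v hv w hw
      simp only [Finset.mem_insert, Finset.mem_singleton] at hv ⊢
      rcases hv with rfl | rfl | rfl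
      · have := (Ra w).1 hw; tauto
      · have := (Rs w).1 hw; tauto
      · have := (Rb w).1 hw; tauto
    · intro v w hv cv hw
      simp only [Finset.mem_insert, Finset.mem_singleton] at hv
      rcases hv with rfl | rfl | rfl
      · exact absurd hw (nomate ha w)
      · rw [hs.cs] at cv; cases cv
      · exact absurd hw (nomate hb w)
  refine S.stepP E (U_dd t.cs) .p3 (f := ![a, s, b]) (comp3 t.n3.yz ca' Ra Rs Rb) ?_ ?_
  · intro i
    fin_cases i <;> simp [Sh.k]
  · intro v hv h
    have h0 : v ≠ a := h (0 : Fin 3)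
    have h1 : v ≠ s := h (1 : Fin 3)
    have h2 : v ≠ b := h (2 : Fin 3)
    simp only [Finset.mem_insert, Finset.mem_singleton] at hv
    rcases hv with rfl | rfl | rfl
    · exact absurd rfl h0
    · exact absurd rfl h1
    · exact absurd rfl h2

/-- `U4(s)`: `a` of type `A`, `b` with mate `q` -/
theorem Sq.opU4 (S : Sq G c c' H e Lp Ln) (hs : Sv G c s m a b) (ha : mu G c a = 0) {q : V}
    (hq : Rm G c b q) (hl : ∀ v ∈ cn G {s}, v ∉ H) :
    Sq G c (flp c' {s}) (H ∪ {a, s, b, q}) (e - 1) (.p4 :: Lp) Ln := by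
  obtain ⟨t, ns, na, nb⟩ := S.udat hs hl
  have ma := S.mu0 na ha
  have nq : q ∉ H := S.mate_t nb hs.cb hq
  have hq' : Rm G c' b q := (S.rm nb q).2 ⟨hq, nq⟩
  have cq : c' q = true := by rw [hq'.2, t.cb]
  have Rc : ∀ w, Rm G c' b w ↔ w = q :=
    fun w => ⟨fun h => rm_uniq (S.mu_out nb) h hq', fun h => h ▸ hq'⟩
  have Rd : ∀ w, Rm G c' q w ↔ w = b :=
    fun w => ⟨fun h => rm_uniq (S.mu_out nq) h hq'.symm, fun h => h ▸ hq'.symm⟩
  have nqs : ¬ G.Adj s q := by
    rw [t.n3.nb]
    rintro (rfl | rfl | rfl)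
    · have := t.cm
      rw [cq] at this; cases this
    · exact nomate ma b hq'.symm
    · exact hq.ne rfl
  have Rs := U_s t.cs t.n3.nb t.cm t.ca t.cb
  have Ra : ∀ w, Rm G (flp c' {s}) a w ↔ w = s := by
    intro w
    rw [U_t t.cs t.ca, t.n3.nb]
    have := nomate ma w
    tauto
  have Rb : ∀ w, Rm G (flp c' {s}) b w ↔ w = s ∨ w = q := by
    intro w
    rw [U_t t.cs t.cb, t.n3.nb, Rc]
    tauto
  have Rq : ∀ w, Rm G (flp c' {s}) q w ↔ w = b := by
    intro w
    rw [U_t t.cs cq, Rd]
    tauto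
  have cs : flp c' {s} s = true := by rw [flp_in (Finset.mem_singleton_self s), t.cs]; rfl
  have ca' : flp c' {s} a = true := by
    have := ((Ra s).2 rfl).2
    rw [← this, cs]
  have hsq : s ≠ q := by
    rintro rfl
    have := t.cs
    rw [cq] at this; cases this
  have hR : ∀ w, Rm G c b w → w = q := fun w h => rm_uniq (S.one b) h hq
  have hR' : ∀ w, Rm G c q w → w = b := fun w h => rm_uniq (S.one q) h hq.symm
  have E : Ext G c c' H {s} {a, s, b, q} := by
    refine ⟨?_, ?_, u_nX hl, ?_, ?_⟩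
    · intro v hv
      simp only [Finset.mem_insert, Finset.mem_singleton] at hv ⊢
      tauto
    · intro v hv
      simp only [Finset.mem_insert, Finset.mem_singleton] at hv
      rcases hv with rfl | rfl | rfl | rfl <;> assumption
    · intro v hv w hw
      simp only [Finset.mem_insert, Finset.mem_singleton] at hv ⊢
      rcases hv with rfl | rfl | rfl | rfl
      · have := (Ra w).1 hw; tauto
      · have := (Rs w).1 hw; tauto
      · have := (Rb w).1 hw; tauto
      · have := (Rq w).1 hw; tauto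
    · intro v w hv cv hw
      simp only [Finset.mem_insert, Finset.mem_singleton] at hv ⊢
      rcases hv with rfl | rfl | rfl | rfl
      · exact absurd hw (nomate ha w)
      · rw [hs.cs] at cv; cases cv
      · have := hR w hw; tauto
      · have := hR' w hw; tauto
  refine S.stepP E (U_dd t.cs) .p4 (f := ![a, s, b, q]) (comp4 t.n3.yz hsq ca' Ra Rs Rb Rq) ?_ ?_
  · intro i
    fin_cases i <;> simp [Sh.k]
  · intro v hv h
    have h0 : v ≠ a := h (0 : Fin 4)
    have h1 : v ≠ s := h (1 : Fin 4)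
    have h2 : v ≠ b := h (2 : Fin 4)
    have h3 : v ≠ q := h (3 : Fin 4)
    simp only [Finset.mem_insert, Finset.mem_singleton] at hv
    rcases hv with rfl | rfl | rfl | rfl
    · exact absurd rfl h0
    · exact absurd rfl h1
    · exact absurd rfl h2
    · exact absurd rfl h3

/-- `UK(s)`: the two true neighbours are mates -/
theorem Sq.opUK (S : Sq G c c' H e Lp Ln) (hs : Sv G c s m a b) (hab : Rm G c a b)
    (hl : ∀ v ∈ cn G {s}, v ∉ H) :
    Sq G c (flp c' {s}) (H ∪ {a, b, s}) (e - 1) (.k3 :: Lp) Ln := by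
  obtain ⟨t, ns, na, nb⟩ := S.udat hs hl
  have hq' : Rm G c' a b := (S.rm na b).2 ⟨hab, nb⟩
  have Ra0 : ∀ w, Rm G c' a w ↔ w = b :=
    fun w => ⟨fun h => rm_uniq (S.mu_out na) h hq', fun h => h ▸ hq'⟩
  have Rb0 : ∀ w, Rm G c' b w ↔ w = a :=
    fun w => ⟨fun h => rm_uniq (S.mu_out nb) h hq'.symm, fun h => h ▸ hq'.symm⟩
  have Rs := U_s t.cs t.n3.nb t.cm t.ca t.cb
  have Ra : ∀ w, Rm G (flp c' {s}) a w ↔ w = b ∨ w = s := by
    intro w
    rw [U_t t.cs t.ca, t.n3.nb, Ra0]
    tauto
  have Rb : ∀ w, Rm G (flp c' {s}) b w ↔ w = a ∨ w = s := by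
    intro w
    rw [U_t t.cs t.cb, t.n3.nb, Rb0]
    tauto
  have cs : flp c' {s} s = true := by rw [flp_in (Finset.mem_singleton_self s), t.cs]; rfl
  have ca' : flp c' {s} a = true := by
    have := ((Ra s).2 (Or.inr rfl)).2
    rw [← this, cs]
  have hsa : s ≠ a := ((t.n3.nb a).2 (by simp)).ne
  have hsb : s ≠ b := ((t.n3.nb b).2 (by simp)).ne
  have hR : ∀ w, Rm G c a w → w = b := fun w h => rm_uniq (S.one a) h hab
  have hR' : ∀ w, Rm G c b w → w = a := fun w h => rm_uniq (S.one b) h hab.symm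
  have E : Ext G c c' H {s} {a, b, s} := by
    refine ⟨?_, ?_, u_nX hl, ?_, ?_⟩
    · intro v hv
      simp only [Finset.mem_insert, Finset.mem_singleton] at hv ⊢
      tauto
    · intro v hv
      simp only [Finset.mem_insert, Finset.mem_singleton] at hv
      rcases hv with rfl | rfl | rfl <;> assumption
    · intro v hv w hw
      simp only [Finset.mem_insert, Finset.mem_singleton] at hv ⊢
      rcases hv with rfl | rfl | rfl
      · have := (Ra w).1 hw; tauto
      · have := (Rb w).1 hw; tauto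
      · have := (Rs w).1 hw; tauto
    · intro v w hv cv hw
      simp only [Finset.mem_insert, Finset.mem_singleton] at hv ⊢
      rcases hv with rfl | rfl | rfl
      · have := hR w hw; tauto
      · have := hR' w hw; tauto
      · rw [hs.cs] at cv; cases cv
  refine S.stepP E (U_dd t.cs) .k3 (f := ![a, b, s])
    (compK hab.ne hsb.symm hsa.symm ca' Ra Rb Rs) ?_ ?_
  · intro i
    fin_cases i <;> simp [Sh.k]
  · intro v hv h
    have h0 : v ≠ a := h (0 : Fin 3)
    have h1 : v ≠ b := h (1 : Fin 3)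
    have h2 : v ≠ s := h (2 : Fin 3)
    simp only [Finset.mem_insert, Finset.mem_singleton] at hv
    rcases hv with rfl | rfl | rfl
    · exact absurd rfl h0
    · exact absurd rfl h1
    · exact absurd rfl h2

end U

end ops

end Pool.Agent.Helper6.MC
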